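import Pool.Agent.Helper68.C10.StPad

/-!
# Module FIL1: a bounded multiple of every local point is close to zero
-/

set_option autoImplicit false

open scoped Classical

namespace Pool.Agent.Helper68.C10

open NumberField IsDedekindDomain WeierstrassCurve
open Pool.Agent.TH841.SH.D (Pt act)
open Pool.Agent.Q7.CE (ED)
open Pool.Agent.Q285.CE (imP IsD isD_base)

namespace F1

/-- finitely many residue classes -/
theorem classes (K : Type) [Field K] [NumberField K] (v : HeightOneSpectrum (𝓞 K))
    (C e : WithZero (Multiplicative ℤ)) (he : e ≠ 0) :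
    ∃ (T : Type) (_ : Fintype T) (cls : v.adicCompletion K → T), ∀ z z',
      Valued.v z ≤ C → Valued.v z' ≤ C → cls z = cls z' → Valued.v (z - z') ≤ e := by
  -- a scaling factor
  obtain ⟨t, ht0, ht⟩ : ∃ t : K, t ≠ 0 ∧ v.valuation K t * C ≤ 1 := by
    by_cases hC : C = 0
    · exact ⟨1, one_ne_zero, by rw [hC, mul_zero]; exact zero_le⟩
    · obtain ⟨t, ht⟩ := v.valuation_surjective K (C⁻¹)
      refine ⟨t, ?_, ?_⟩
      · intro h0
        rw [h0, map_zero] at ht
        exact inv_ne_zero hC ht.symm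
      · rw [ht, inv_mul_cancel₀ hC]
  set τ := v.valuation K t with hτ
  have hτ0 : τ ≠ 0 := (Valuation.ne_zero_iff _).2 ht0
  have hg : e * τ ≠ 0 := mul_ne_zero he hτ0
  -- approximations
  have happ : ∀ z : v.adicCompletion K, Valued.v z ≤ C → ∃ a : 𝓞 K,
      Valued.v ((algebraMap K (v.adicCompletion K) t) * z -
        algebraMap K (v.adicCompletion K) (algebraMap (𝓞 K) K a)) < e * τ := by
    intro z hz
    set u := (algebraMap K (v.adicCompletion K) t) * z with hu
    have hu1 : Valued.v u ≤ 1 := by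
      rw [hu, map_mul]
      have h1 : Valued.v (algebraMap K (v.adicCompletion K) t) = τ := v.valuedAdicCompletion_eq_valuation' t
      rw [h1]
      exact (mul_le_mul_right hz τ).trans ht
    have hm : min (e * τ) 1 ≠ 0 := by
      rcases min_choice (e * τ) 1 with h | h <;> rw [h]
      · exact hg
      · exact one_ne_zero
    have ho : IsOpen {y : v.adicCompletion K | Valued.v (y - u) < min (e * τ) 1} := by
      obtain ⟨c, hc⟩ := v.valuedAdicCompletion_surjective K (min (e * τ) 1)
      rw [← hc]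
      have h := (Valued.isOpen_ball (v.adicCompletion K) ((Valued.v : Valuation
        (v.adicCompletion K) _).restrict c)).preimage
        (continuous_sub_right u)
      simpa only [Set.preimage_ofPred_eq, Valuation.restrict_lt_iff] using h
    obtain ⟨k, hk⟩ := (v.denseRange_algebraMap K).exists_mem_open ho ⟨u, by
      show Valued.v (u - u) < _
      rw [sub_self, map_zero]
      exact zero_lt_iff.2 hm⟩
    have hk' : Valued.v (algebraMap K (v.adicCompletion K) k - u) < min (e * τ) 1 := hk
    have hk1 : v.valuation K k ≤ 1 := by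
      rw [← v.valuedAdicCompletion_eq_valuation' k]
      have h2 : algebraMap K (v.adicCompletion K) k = (algebraMap K (v.adicCompletion K) k - u) + u := by
        ring
      show Valued.v (algebraMap K (v.adicCompletion K) k) ≤ 1
      rw [h2]
      exact (Valuation.map_add _ _ _).trans (max_le (hk'.le.trans (min_le_right _ _)) hu1)
    obtain ⟨a, ha⟩ := v.exists_valuation_sub_lt_of_integer hk1 (Units.mk0 _ hg)
    refine ⟨a, ?_⟩
    have h3 : u - algebraMap K (v.adicCompletion K) (algebraMap (𝓞 K) K a) =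
        -(algebraMap K (v.adicCompletion K) k - u) -
          algebraMap K (v.adicCompletion K) (algebraMap (𝓞 K) K a - k) := by
      rw [map_sub]
      ring
    rw [h3]
    refine (Valuation.map_sub _ _ _).trans_lt (max_lt ?_ ?_)
    · rw [Valuation.map_neg]
      exact hk'.trans_le (min_le_left _ _)
    · have h4 : Valued.v (algebraMap K (v.adicCompletion K) (algebraMap (𝓞 K) K a - k)) =
        v.valuation K (algebraMap (𝓞 K) K a - k) := v.valuedAdicCompletion_eq_valuation' _
      rw [h4]
      exact ha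
  -- the modulus
  obtain ⟨n, hn⟩ : ∃ n : ℕ, WithZero.exp (-(n : ℤ)) ≤ e * τ := by
    refine ⟨(WithZero.log (e * τ)).natAbs, ?_⟩
    rw [← WithZero.le_log_iff_exp_le hg]
    omega
  have hfin : Finite (𝓞 K ⧸ (v.asIdeal ^ n)) :=
    Ideal.finiteQuotientOfFreeOfNeBot _ (pow_ne_zero _ v.ne_bot)
  refine ⟨𝓞 K ⧸ (v.asIdeal ^ n), Fintype.ofFinite _, fun z =>
    if hz : Valued.v z ≤ C then Ideal.Quotient.mk _ (happ z hz).choose else 0, ?_⟩
  intro z z' hz hz' hcl
  simp only [dif_pos hz, dif_pos hz'] at hcl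
  set a := (happ z hz).choose with ha
  set a' := (happ z' hz').choose with ha'
  have h1 := (happ z hz).choose_spec
  have h2 := (happ z' hz').choose_spec
  rw [← ha] at h1
  rw [← ha'] at h2
  have h3 : Valued.v (algebraMap K (v.adicCompletion K) (algebraMap (𝓞 K) K (a - a'))) ≤ e * τ := by
    have h4 : Valued.v (algebraMap K (v.adicCompletion K) (algebraMap (𝓞 K) K (a - a'))) =
        v.valuation K (algebraMap (𝓞 K) K (a - a')) := v.valuedAdicCompletion_eq_valuation' _
    rw [h4, v.valuation_of_algebraMap]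
    exact ((v.intValuation_le_pow_iff_mem _ _).2 (Ideal.Quotient.eq.1 hcl)).trans hn
  have h5 : (algebraMap K (v.adicCompletion K) t) * (z - z') =
      ((algebraMap K (v.adicCompletion K) t) * z -
        algebraMap K (v.adicCompletion K) (algebraMap (𝓞 K) K a)) -
      ((algebraMap K (v.adicCompletion K) t) * z' -
        algebraMap K (v.adicCompletion K) (algebraMap (𝓞 K) K a')) +
      algebraMap K (v.adicCompletion K) (algebraMap (𝓞 K) K (a - a')) := by
    rw [map_sub, map_sub]
    ring
  have h6 : Valued.v ((algebraMap K (v.adicCompletion K) t) * (z - z')) ≤ e * τ := by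
    rw [h5]
    exact (Valuation.map_add _ _ _).trans (max_le ((Valuation.map_sub _ _ _).trans
      (max_le h1.le h2.le)) h3)
  rw [map_mul] at h6
  have h7 : Valued.v (algebraMap K (v.adicCompletion K) t) = τ := v.valuedAdicCompletion_eq_valuation' t
  rw [h7, mul_comm] at h6
  exact le_of_mul_le_mul_right h6 (zero_lt_iff.2 hτ0)

/-- the slope is large -/
theorem slope {F : Type} [Field F] [CharZero F] (w : Valuation F (WithZero (Multiplicative ℤ)))
    {D : F} (hD : D ≠ 0) (B : WithZero (Multiplicative ℤ)) (hB : 1 ≤ B) :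
    ∃ e : WithZero (Multiplicative ℤ), e ≠ 0 ∧ ∀ x y x' y' ℓ : F, y ^ 2 + D * y = x ^ 3 →
      y' ^ 2 + D * y' = x' ^ 3 → w x ≤ B → w x' ≤ B → w (x - x') ≤ e → w (y - y') ≤ e →
      ((x ≠ x' ∧ ℓ * (x - x') = y + y' + D) ∨
        (x = x' ∧ y + y' + D = 0 ∧ 2 * y + D ≠ 0 ∧ ℓ * (2 * y + D) = 3 * x ^ 2)) → B < w ℓ := by
  have hwD : w D ≠ 0 := (Valuation.ne_zero_iff _).2 hD
  have h2 : w (2 : F) ≤ 1 := by
    have : (2 : F) = 1 + 1 := by norm_num
    rw [this]
    exact (w.map_add _ _).trans (by simp)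
  set c : WithZero (Multiplicative ℤ) := w 3 * min 1 (w (D ^ 2 / 4)) with hc
  have hw3 : w (3 : F) ≠ 0 := (Valuation.ne_zero_iff _).2 three_ne_zero
  have hc0 : 0 < c := by
    rw [hc]
    refine mul_pos (zero_lt_iff.2 hw3) (lt_min one_pos (zero_lt_iff.2 ?_))
    exact (Valuation.ne_zero_iff _).2 (div_ne_zero (pow_ne_zero _ hD) (by norm_num))
  have hB0 : 0 < B := one_pos.trans_le hB
  -- `ε`
  obtain ⟨e, he0, heD, hec⟩ : ∃ e : WithZero (Multiplicative ℤ), e ≠ 0 ∧ e * B < w D ∧ e * B < c := by
    have hm : 0 < min (w D) c := lt_min (zero_lt_iff.2 hwD) hc0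
    refine ⟨min (w D) c * WithZero.exp (-1) * B⁻¹, ?_, ?_, ?_⟩
    · exact mul_ne_zero (mul_ne_zero hm.ne' WithZero.exp_ne_zero) (inv_ne_zero hB0.ne')
    · rw [inv_mul_cancel_right₀ hB0.ne']
      refine lt_of_lt_of_le (mul_lt_of_lt_one_right hm ?_) (min_le_left _ _)
      rw [← WithZero.exp_zero, WithZero.exp_lt_exp]
      norm_num
    · rw [inv_mul_cancel_right₀ hB0.ne']
      refine lt_of_lt_of_le (mul_lt_of_lt_one_right hm ?_) (min_le_right _ _)
      rw [← WithZero.exp_zero, WithZero.exp_lt_exp]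
      norm_num
  have heB : e ≤ e * B := le_mul_of_one_le_right' hB
  refine ⟨e, he0, ?_⟩
  intro x y x' y' ℓ h1 h1' hx hx' hxx hyy h
  -- the case of a small derivative
  have hsm : w (2 * y + D) < w D → c ≤ w (3 * x ^ 2) := by
    intro hlt
    have e1 : 4 * x ^ 3 = (2 * y + D) ^ 2 - D ^ 2 := by linear_combination (-4) * h1
    have e2 : w (4 * x ^ 3) = w (D ^ 2) := by
      rw [e1]
      have h3 : w ((2 * y + D) ^ 2) < w (D ^ 2) := by
        rw [map_pow, map_pow]
        exact pow_lt_pow_left₀ hlt zero_le two_ne_zero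
      rw [Valuation.map_sub_swap]
      exact Valuation.map_sub_eq_of_lt_left _ h3
    have e3 : w (D ^ 2 / 4) = w x ^ 3 := by
      have h4 : w (4 : F) ≠ 0 := (Valuation.ne_zero_iff _).2 (by norm_num)
      rw [map_div₀, ← e2, map_mul, map_pow, mul_div_cancel_left₀ _ h4]
    rw [hc, e3, map_mul, map_pow]
    refine mul_le_mul_right ?_ _
    rcases le_total 1 (w x) with h5 | h5
    · exact (min_le_left _ _).trans (one_le_pow₀ h5)
    · exact (min_le_right _ _).trans (pow_le_pow_right_of_le_one' h5 (by norm_num))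
  rcases h with ⟨hne, hℓ⟩ | ⟨hxe, hye, hne, hℓ⟩
  · by_cases hlt : w (2 * y + D) < w D
    · -- `ℓ = (x² + x x' + x'²) / (y - y')`
      have h3 := hsm hlt
      have e1 : ℓ * (y - y') = x ^ 2 + x * x' + x' ^ 2 := by
        have e2 : (x - x') * (ℓ * (y - y')) = (x - x') * (x ^ 2 + x * x' + x' ^ 2) := by
          linear_combination (y - y') * hℓ + h1 - h1'
        exact mul_left_cancel₀ (sub_ne_zero.2 hne) e2
      have e3 : c ≤ w (ℓ * (y - y')) := by
        have e4 : x ^ 2 + x * x' + x' ^ 2 = 3 * x ^ 2 + -((x - x') * (x' + 2 * x)) := by ring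
        have h5 : w (-((x - x') * (x' + 2 * x))) < w (3 * x ^ 2) := by
          rw [Valuation.map_neg, map_mul]
          have h6 : w (x' + 2 * x) ≤ B := by
            refine (w.map_add _ _).trans (max_le hx' ?_)
            rw [map_mul]
            exact (mul_le_of_le_one_left' h2).trans hx
          exact (mul_le_mul' hxx h6).trans_lt (hec.trans_le h3)
        rw [e1, e4, Valuation.map_add_eq_of_lt_left _ h5]
        exact h3
      rw [map_mul] at e3
      by_contra hcon
      push Not at hcon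
      have h7 : w ℓ * w (y - y') ≤ B * e := mul_le_mul' hcon hyy
      rw [mul_comm B e] at h7
      exact absurd (e3.trans h7) (not_le.2 hec)
    · push Not at hlt
      have e3 : w D ≤ w (ℓ * (x - x')) := by
        have e4 : y + y' + D = (2 * y + D) + -(y - y') := by ring
        have h5 : w (-(y - y')) < w (2 * y + D) := by
          rw [Valuation.map_neg]
          exact (hyy.trans heB).trans_lt (heD.trans_le hlt)
        rw [hℓ, e4, Valuation.map_add_eq_of_lt_left _ h5]
        exact hlt
      rw [map_mul] at e3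
      by_contra hcon
      push Not at hcon
      have h7 : w ℓ * w (x - x') ≤ B * e := mul_le_mul' hcon hxx
      rw [mul_comm B e] at h7
      exact absurd (e3.trans h7) (not_le.2 heD)
  · have e4 : 2 * y + D = y - y' := by linear_combination hye
    have h5 : w (2 * y + D) ≤ e := by rw [e4]; exact hyy
    have h3 := hsm ((h5.trans heB).trans_lt heD)
    rw [← hℓ, map_mul] at h3
    by_contra hcon
    push Not at hcon
    have h7 : w ℓ * w (2 * y + D) ≤ B * e := mul_le_mul' hcon h5
    rw [mul_comm B e] at h7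
    exact absurd (h3.trans h7) (not_le.2 hec)

/-- a large slope gives a large sum -/
theorem sum_large {F : Type} [Field F] (w : Valuation F (WithZero (Multiplicative ℤ)))
    {B : WithZero (Multiplicative ℤ)} (hB : 1 ≤ B) {ℓ x x' : F} (h : B < w ℓ) (hx : w x ≤ B)
    (hx' : w x' ≤ B) : B ≤ w (ℓ ^ 2 - x - x') := by
  have h1 : B < w (ℓ ^ 2) := by
    rw [map_pow, pow_two]
    exact h.trans_le (le_mul_of_one_le_left' (hB.trans h.le))
  have h2 : w (ℓ ^ 2 - x - x') = w (ℓ ^ 2) := by
    have h3 : ℓ ^ 2 - x - x' = ℓ ^ 2 + -(x + x') := by ring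
    rw [h3]
    refine Valuation.map_add_eq_of_lt_left _ ?_
    rw [Valuation.map_neg]
    exact ((w.map_add _ _).trans (max_le hx hx')).trans_lt h1
  rw [h2]
  exact h1.le

section

variable {K : Type} [Field K] [NumberField K] {D : K} {v : HeightOneSpectrum (𝓞 K)}

/-- the coordinates of the points which are not large -/
theorem not_lg {B : WithZero (Multiplicative ℤ)} {R : Pt (ED D) (v.adicCompletion K)}
    (h : ¬ Lg D v B R) : ∃ x y hn, R = Affine.Point.some x y hn ∧ Valued.v x < B := by
  rcases R with _ | ⟨x, y, hn⟩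
  · exact absurd (Or.inl rfl) h
  · refine ⟨x, y, hn, rfl, ?_⟩
    by_contra hc
    exact h (Or.inr ⟨x, y, hn, rfl, not_lt.1 hc⟩)

theorem diff (hD : D ≠ 0) (B : WithZero (Multiplicative ℤ)) (hB : 1 ≤ B) :
    ∃ e : WithZero (Multiplicative ℤ), e ≠ 0 ∧
      ∀ (R R' : Pt (ED D) (v.adicCompletion K)) x y hn x' y' hn',
        R = Affine.Point.some x y hn → R' = Affine.Point.some x' y' hn' →
        Valued.v x ≤ B → Valued.v x' ≤ B → Valued.v (x - x') ≤ e → Valued.v (y - y') ≤ e →
        Lg D v B (R - R') := by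
  let _ : DecidableEq (v.adicCompletion K) := Classical.decEq _
  set δ := algebraMap K (v.adicCompletion K) D with hδ
  have hδ0 : δ ≠ 0 := (map_ne_zero _).2 hD
  have : CharZero (v.adicCompletion K) :=
    charZero_of_injective_algebraMap (algebraMap K (v.adicCompletion K)).injective
  have hV : IsD ((ED D).baseChange (v.adicCompletion K)) δ := isD_base D _
  obtain ⟨e, he0, he⟩ := slope (Valued.v : Valuation (v.adicCompletion K) _) hδ0 B hB
  refine ⟨e, he0, ?_⟩
  intro R R' x y hn x' y' hn' hR hR' hx hx' hxx hyy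
  have e1 := (hV.eqn _ _).1 hn.1
  have e2 := (hV.eqn _ _).1 hn'.1
  have hm : ((ED D).baseChange (v.adicCompletion K)).toAffine.Nonsingular x' (-y' - δ) := by
    have := (Affine.nonsingular_neg x' y').2 hn'
    rwa [hV.negY] at this
  have hneg : -R' = Affine.Point.some x' (-y' - δ) hm := by
    rw [hR']
    show Affine.Point.some x' _ _ = _
    congr 1
    exact hV.negY _ _
  by_cases hop : x = x' ∧ y = -(-y' - δ) - δ
  · left
    rw [sub_eq_add_neg, hneg, hR]
    exact hV.add_opp hn hm hop
  · obtain ⟨ℓ, X, Y, h3, h4, h5, -, h6⟩ := hV.add_ex hn hm hop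
    right
    refine ⟨X, Y, h3, ?_, ?_⟩
    · rw [sub_eq_add_neg, hneg, hR]
      exact h4
    · rw [h5]
      refine sum_large _ hB (he x y x' y' ℓ e1 e2 hx hx' hxx hyy ?_) hx hx'
      rcases h6 with ⟨h7, h8⟩ | ⟨h7, h8, h9, h10⟩
      · left
        exact ⟨h7, by linear_combination h8⟩
      · right
        exact ⟨h7, by linear_combination h8, h9, h10⟩

theorem lg_mono {B B' : WithZero (Multiplicative ℤ)} (h : B ≤ B') {R : Pt (ED D) (v.adicCompletion K)}
    (hR : Lg D v B' R) : Lg D v B R := by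
  rcases hR with h1 | ⟨x, y, hn, h1, h2⟩
  · exact Or.inl h1
  · exact Or.inr ⟨x, y, hn, h1, h.trans h2⟩

end

end F1

open F1 in
theorem s_FIL1 : S_FIL1 := by
  intro K _ _ D hD v B0
  obtain ⟨B, hB0, hB⟩ : ∃ B : WithZero (Multiplicative ℤ), B0 ≤ B ∧ 1 ≤ B :=
    ⟨max B0 1, le_max_left _ _, le_max_right _ _⟩
  obtain ⟨e, he0, he⟩ := diff (v := v) hD B hB
  set δ := algebraMap K (v.adicCompletion K) D with hδ
  have hV : IsD ((ED D).baseChange (v.adicCompletion K)) δ := isD_base D _
  obtain ⟨T, _, cls, hcls⟩ := classes K v (max (Valued.v δ) (B ^ 3)) e he0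
  refine ⟨Fintype.card (T × T) + 1, fun R => ?_⟩
  by_contra hcon
  push Not at hcon
  have hcon' : ∀ n : ℕ, 1 ≤ n → n ≤ Fintype.card (T × T) + 1 → ¬ Lg D v B (n • R) :=
    fun n h1 h2 h3 => hcon n h1 h2 (lg_mono hB0 h3)
  have hco : ∀ n : Fin (Fintype.card (T × T) + 1), ∃ x y hn, (n.1 + 1) • R =
      Affine.Point.some x y hn ∧ Valued.v x < B :=
    fun n => not_lg (hcon' _ (by omega) (by omega))
  choose X Y H hXY hXB using hco
  obtain ⟨m, n, hmn, hc⟩ := Fintype.exists_ne_map_eq_of_card_lt
    (fun n : Fin (Fintype.card (T × T) + 1) => (cls (X n), cls (Y n)))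
    (by rw [Fintype.card_fin]; exact Nat.lt_succ_self _)
  have hXC : ∀ n, Valued.v (X n) ≤ max (Valued.v δ) (B ^ 3) := fun n =>
    (hXB n).le.trans ((le_self_pow₀ hB three_ne_zero).trans (le_max_right _ _))
  have hYC : ∀ n, Valued.v (Y n) ≤ max (Valued.v δ) (B ^ 3) := by
    intro n
    by_contra hlt
    push Not at hlt
    have h1 : Valued.v δ < Valued.v (Y n) := (le_max_left _ _).trans_lt hlt
    have h2 : B ^ 3 < Valued.v (Y n) := (le_max_right _ _).trans_lt hlt
    have h3 := (hV.eqn _ _).1 (H n).1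
    have h4 : Valued.v (Y n ^ 2 + δ * Y n) = Valued.v (Y n) ^ 2 := by
      have h5 : Valued.v (δ * Y n) < Valued.v (Y n ^ 2) := by
        rw [map_mul, map_pow, pow_two]
        exact mul_lt_mul_of_pos_right h1 (zero_le.trans_lt h1)
      rw [Valuation.map_add_eq_of_lt_left _ h5, map_pow]
    rw [h3, map_pow] at h4
    have h6 : Valued.v (X n) ^ 3 ≤ B ^ 3 := pow_le_pow_left₀ zero_le (hXB n).le 3
    have h7 : 1 ≤ Valued.v (Y n) := (one_le_pow₀ hB).trans h2.le
    have h8 : Valued.v (Y n) ≤ Valued.v (Y n) ^ 2 := le_self_pow₀ h7 two_ne_zero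
    rw [← h4] at h8
    exact absurd (h8.trans h6) (not_le.2 h2)
  have hmain : ∀ m n : Fin (Fintype.card (T × T) + 1), m < n →
      (cls (X m), cls (Y m)) = (cls (X n), cls (Y n)) → False := by
    intro m n hlt hc
    have hc1 : cls (X n) = cls (X m) := (congrArg Prod.fst hc).symm
    have hc2 : cls (Y n) = cls (Y m) := (congrArg Prod.snd hc).symm
    have h1 := he _ _ (X n) (Y n) (H n) (X m) (Y m) (H m) (hXY n) (hXY m) (hXB n).le (hXB m).le
      (hcls _ _ (hXC n) (hXC m) hc1) (hcls _ _ (hYC n) (hYC m) hc2)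
    have h2 : (n.1 + 1) • R - (m.1 + 1) • R = (n.1 - m.1) • R := by
      have h3 : n.1 + 1 = (n.1 - m.1) + (m.1 + 1) := by
        have : m.1 < n.1 := hlt
        omega
      rw [h3, add_smul, add_sub_cancel_right]
    rw [h2] at h1
    have : m.1 < n.1 := hlt
    exact hcon' _ (by omega) (by omega) h1
  rcases lt_or_gt_of_ne hmn with h | h
  · exact hmain m n h hc
  · exact hmain n m h hc.symm

end Pool.Agent.Helper68.C10
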