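import Pool.Agent.Helper68.C10.StPad

/-!
# The filtration of the local points of `y² + D y = x³`
-/

set_option autoImplicit false
set_option linter.unusedVariables false
set_option linter.unusedSectionVars false

namespace Pool.Agent.Helper68.C10.FilB

open WeierstrassCurve WithZero Pool.Agent.Q285.CE

/-! ### The line through two points in the coordinates `z = x / y`, `w = 1 / y` -/

section alg

variable {L : Type*} [Field L] {D a b z1 z2 z3 : L}

theorem g1 (HA : a * (1 + D * ((a * z1 + b) + (a * z2 + b))) = z1 ^ 2 + z1 * z2 + z2 ^ 2)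
    (H3 : z3 = D * a ^ 2 - z1 - z2) :
    z1 * z2 + z1 * z3 + z2 * z3 = -(2 * D * a * b + a) := by
  subst H3
  linear_combination HA

theorem g0 (HA : a * (1 + D * ((a * z1 + b) + (a * z2 + b))) = z1 ^ 2 + z1 * z2 + z2 ^ 2)
    (H1 : (a * z1 + b) + D * (a * z1 + b) ^ 2 = z1 ^ 3) (H3 : z3 = D * a ^ 2 - z1 - z2) :
    z1 * z2 * z3 = D * b ^ 2 + b := by
  have h := g1 HA H3
  linear_combination -H1 + z1 * h - z1 ^ 2 * H3

theorem w3eq (HA : a * (1 + D * ((a * z1 + b) + (a * z2 + b))) = z1 ^ 2 + z1 * z2 + z2 ^ 2)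
    (H1 : (a * z1 + b) + D * (a * z1 + b) ^ 2 = z1 ^ 3) (H3 : z3 = D * a ^ 2 - z1 - z2) :
    (a * z3 + b) + D * (a * z3 + b) ^ 2 = z3 ^ 3 := by
  have h := g1 HA H3
  have h' := g0 HA H1 H3
  linear_combination (-z3 ^ 2) * H3 + z3 * h - h'

theorem prodw (HA : a * (1 + D * ((a * z1 + b) + (a * z2 + b))) = z1 ^ 2 + z1 * z2 + z2 ^ 2)
    (H1 : (a * z1 + b) + D * (a * z1 + b) ^ 2 = z1 ^ 3) (H3 : z3 = D * a ^ 2 - z1 - z2) :
    (a * z1 + b) * (a * z2 + b) * (a * z3 + b) = b ^ 3 := by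
  have h := g1 HA H3
  have h' := g0 HA H1 H3
  linear_combination (b ^ 2 * a) * H3 + (b * a ^ 2) * h + a ^ 3 * h'

theorem sumw (HA : a * (1 + D * ((a * z1 + b) + (a * z2 + b))) = z1 ^ 2 + z1 * z2 + z2 ^ 2)
    (H1 : (a * z1 + b) + D * (a * z1 + b) ^ 2 = z1 ^ 3) (H3 : z3 = D * a ^ 2 - z1 - z2) :
    z1 * (a * z2 + b) * (a * z3 + b) + z2 * (a * z1 + b) * (a * z3 + b) +
      z3 * (a * z1 + b) * (a * z2 + b) = a ^ 2 * b := by
  have h := g1 HA H3
  have h' := g0 HA H1 H3
  linear_combination (b ^ 2) * H3 + (2 * a * b) * h + (3 * a ^ 2) * h'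

end alg

/-! ### The group law -/

section law

variable {L : Type*} [Field L] [DecidableEq L] [CharZero L] {V : WeierstrassCurve L} {D : L}

/-- the sum of two points in the coordinates `z, w` -/
theorem law (hV : IsD V D) {z1 w1 z2 w2 a b z3 w3 : L}
    (hw1 : w1 ≠ 0) (hw2 : w2 ≠ 0) (e1 : w1 + D * w1 ^ 2 = z1 ^ 3) (e2 : w2 + D * w2 ^ 2 = z2 ^ 3)
    (hd : 1 + D * (w1 + w2) ≠ 0)
    (ha : a * (1 + D * (w1 + w2)) = z1 ^ 2 + z1 * z2 + z2 ^ 2)
    (hb : b = w1 - a * z1) (hz3 : z3 = D * a ^ 2 - z1 - z2) (hw3 : w3 = a * z3 + b)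
    (n1 : V.toAffine.Nonsingular (z1 / w1) (1 / w1))
    (n2 : V.toAffine.Nonsingular (z2 / w2) (1 / w2)) :
    (z3 = 0 ∧ w3 = 0 ∧
      (Affine.Point.some _ _ n1 : V.toAffine.Point) + .some _ _ n2 = 0) ∨
    (w3 ≠ 0 ∧ ∃ (X Y : L) (h : V.toAffine.Nonsingular X Y),
      (Affine.Point.some _ _ n1 : V.toAffine.Point) + .some _ _ n2 = .some X Y h ∧
      X * w3 = z3 ∧ Y * w3 = -1 - D * w3) := by
  have hw1' : w1 = a * z1 + b := by rw [hb]; ring
  have hw2' : w2 = a * z2 + b := by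
    rw [hb]
    have h : (w2 - (a * z2 + (w1 - a * z1))) * (1 + D * (w1 + w2)) = 0 := by
      linear_combination e2 - e1 - (z2 - z1) * ha
    have := (mul_eq_zero.1 h).resolve_right hd
    linear_combination this
  have HA : a * (1 + D * ((a * z1 + b) + (a * z2 + b))) = z1 ^ 2 + z1 * z2 + z2 ^ 2 := by
    rw [← hw1', ← hw2']; exact ha
  have H1 : (a * z1 + b) + D * (a * z1 + b) ^ 2 = z1 ^ 3 := by rw [← hw1']; exact e1
  have k1 := g1 HA hz3
  have k0 := g0 HA H1 hz3
  have kp := prodw HA H1 hz3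
  have ks := sumw HA H1 hz3
  rw [← hw1', ← hw2', ← hw3] at kp ks
  by_cases hb0 : b = 0
  · left
    rw [hb0, add_zero] at hw1' hw2' hw3
    have hz1 : z1 ≠ 0 := by
      rintro rfl
      exact hw1 (by rw [hw1', mul_zero])
    have hz2 : z2 ≠ 0 := by
      rintro rfl
      exact hw2 (by rw [hw2', mul_zero])
    have ha0 : a ≠ 0 := by
      rintro rfl
      exact hw1 (by rw [hw1', zero_mul])
    have hz30 : z3 = 0 := by
      have h : z1 * z2 * z3 = 0 := by rw [k0, hb0]; ring
      exact (mul_eq_zero.1 h).resolve_left (mul_ne_zero hz1 hz2)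
    refine ⟨hz30, by rw [hw3, hz30, mul_zero], hV.add_opp n1 n2 ⟨?_, ?_⟩⟩
    · rw [hw1', hw2', div_mul_cancel_right₀ hz1, div_mul_cancel_right₀ hz2]
    · have h1 : z1 * z2 = -a := by
        rw [hz30, hb0] at k1
        linear_combination k1
      have h2 : z1 + z2 = D * a ^ 2 := by
        rw [hz30] at hz3
        linear_combination hz3
      rw [hw1', hw2']
      field_simp
      linear_combination h2 + (a * D) * h1
  · right
    have hw30 : w3 ≠ 0 := by
      rintro h
      rw [h, mul_zero] at kp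
      exact hb0 (pow_eq_zero_iff three_ne_zero |>.1 kp.symm)
    have hne : ¬ (z1 / w1 = z2 / w2 ∧ 1 / w1 = -(1 / w2) - D) := by
      rintro ⟨h1, h2⟩
      rw [div_eq_div_iff hw1 hw2] at h1
      have h3 : b * (z1 - z2) = 0 := by
        rw [hw1', hw2'] at h1
        linear_combination h1
      have h4 : z1 = z2 := by
        have := (mul_eq_zero.1 h3).resolve_left hb0
        linear_combination this
      have h5 : w1 = w2 := by rw [hw1', hw2', h4]
      rw [← h5] at h2
      have h6 : 2 + D * w1 = 0 := by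
        field_simp at h2
        linear_combination h2
      rw [← h5, ← h4] at ha
      have h7 : a = -z1 ^ 2 := by
        have h8 : (3 : L) * (a + z1 ^ 2) = 0 := by
          linear_combination -ha + 2 * a * h6
        have := (mul_eq_zero.1 h8).resolve_left three_ne_zero
        linear_combination this
      apply hb0
      rw [hb, h7]
      linear_combination w1 * h6 - e1
    obtain ⟨ℓ, X, Y, h, e, eX, eY, hs⟩ := hV.add_ex n1 n2 hne
    have hℓ : ℓ * b = -a := by
      rcases hs with ⟨q1, q2⟩ | ⟨q1, q2, q3, q4⟩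
      · have h4 : z1 - z2 ≠ 0 := by
          intro h5
          apply q1
          have h6 : z1 = z2 := by linear_combination h5
          have h7 : w1 = w2 := by rw [hw1', hw2', h6]
          rw [h6, h7]
        apply mul_right_cancel₀ h4
        have q3 : ℓ * (z1 * w2 - z2 * w1) = w2 - w1 := by
          field_simp at q2
          linear_combination q2
        rw [hw1', hw2'] at q3
        linear_combination q3
      · have h5 : w1 = w2 := by
          field_simp at q2
          linear_combination -q2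
        have h4 : z1 = z2 := by
          rw [← h5] at q1
          field_simp at q1
          exact q1
        rw [← h5, ← h4] at ha
        rw [← h5] at hd
        have h6 : ℓ * w1 * (2 + D * w1) = 3 * z1 ^ 2 := by
          field_simp at q4
          linear_combination q4
        apply mul_right_cancel₀ hd
        rw [hb]
        linear_combination -h6 + (1 - ℓ * z1) * ha + 3 * ℓ * e1
    have x1 : z1 / w1 * w1 = z1 := div_mul_cancel₀ _ hw1
    have x2 : z2 / w2 * w2 = z2 := div_mul_cancel₀ _ hw2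
    have x3 : 1 / w1 * w1 = 1 := div_mul_cancel₀ _ hw1
    have hX : X * w3 = z3 := by
      apply mul_left_cancel₀ (pow_ne_zero 5 hb0)
      have h1 : b ^ 2 * X = a ^ 2 - b ^ 2 * (z1 / w1) - b ^ 2 * (z2 / w2) := by
        rw [eX]
        linear_combination (ℓ * b - a) * hℓ
      linear_combination (w1 * w2 * w3 ^ 2) * h1 - b ^ 2 * X * w3 * kp + a ^ 2 * w3 * kp -
        b ^ 2 * w3 ^ 2 * w2 * x1 - b ^ 2 * w3 ^ 2 * w1 * x2 - b ^ 2 * w3 * ks + b ^ 2 * z3 * kp
    refine ⟨hw30, X, Y, h, e, hX, ?_⟩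
    apply mul_left_cancel₀ (mul_ne_zero hb0 hw1)
    rw [eY]
    linear_combination (-w1 * w3 * (X - z1 / w1)) * hℓ + (a * w1) * hX - a * w3 * x1 -
      b * w3 * x3 + a * z3 * hw1' - a * z1 * hw3 + b * hw1' - b * hw3

end law

/-! ### Valuations -/

section val

variable {L : Type*} [Field L] [DecidableEq L] [CharZero L] {V : WeierstrassCurve L} {D : L}

/-- the coordinate `z = x / y` -/
def zc : V.toAffine.Point → L
  | 0 => 0
  | .some x y _ => x / y

omit [DecidableEq L] [CharZero L] in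
theorem zc_zero : zc (0 : V.toAffine.Point) = 0 := rfl

omit [DecidableEq L] [CharZero L] in
theorem zc_some {x y : L} (h : V.toAffine.Nonsingular x y) :
    zc (.some x y h : V.toAffine.Point) = x / y := rfl

omit [DecidableEq L] [CharZero L] in
theorem zc_zw {z w : L} (hw : w ≠ 0) (h : V.toAffine.Nonsingular (z / w) (1 / w)) :
    zc (.some _ _ h : V.toAffine.Point) = z := by
  rw [zc_some]
  field_simp

/-- the points near zero -/
def Near (D : L) (v : Valuation L ℤᵐ⁰) (c : ℤᵐ⁰) (P : V.toAffine.Point) : Prop :=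
  P = 0 ∨ ∃ (z w : L) (h : V.toAffine.Nonsingular (z / w) (1 / w)), P = .some _ _ h ∧ w ≠ 0 ∧
    v (D * w) < 1 ∧ v z ≤ c

variable (hV : IsD V D) (hD : D ≠ 0) (v : Valuation L ℤᵐ⁰)

include hV in
omit [DecidableEq L] [CharZero L] in
theorem eqn_zw {z w : L} (hw : w ≠ 0) (h : V.toAffine.Nonsingular (z / w) (1 / w)) :
    w + D * w ^ 2 = z ^ 3 := by
  have e := (hV.eqn _ _).1 h.1
  field_simp at e
  linear_combination e

include hV in
omit [DecidableEq L] [CharZero L] in
theorem val_w {z w : L} (hw : w ≠ 0) (h : V.toAffine.Nonsingular (z / w) (1 / w))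
    (hDw : v (D * w) < 1) : v w = v z ^ 3 := by
  have e := eqn_zw hV hw h
  have e1 : w * (1 + D * w) = z ^ 3 := by linear_combination e
  have e2 := congrArg v e1
  rw [map_mul, map_pow, v.map_one_add_of_lt hDw, mul_one] at e2
  exact e2

include hV in
theorem add_near {c : ℤᵐ⁰} (hc : v D * c ^ 3 < 1) {P Q : V.toAffine.Point} (hP : Near D v c P)
    (hQ : Near D v c Q) : Near D v c (P + Q) ∧ v (zc (P + Q) - zc P - zc Q) ≤ v D * c ^ 4 := by
  rcases hP with rfl | ⟨z1, w1, n1, rfl, hw1, hD1, hz1⟩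
  · rw [zero_add]
    refine ⟨hQ, ?_⟩
    rw [zc_zero, sub_zero, sub_self, map_zero]
    exact zero_le
  rcases hQ with rfl | ⟨z2, w2, n2, rfl, hw2, hD2, hz2⟩
  · rw [add_zero]
    refine ⟨Or.inr ⟨z1, w1, n1, rfl, hw1, hD1, hz1⟩, ?_⟩
    rw [zc_zero, sub_zero, sub_self, map_zero]
    exact zero_le
  have e1 := eqn_zw hV hw1 n1
  have e2 := eqn_zw hV hw2 n2
  have v1 := val_w hV v hw1 n1 hD1
  have v2 := val_w hV v hw2 n2 hD2
  have hd' : v (D * (w1 + w2)) < 1 := by
    rw [mul_add]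
    exact v.map_add_lt hD1 hD2
  have hd1 : v (1 + D * (w1 + w2)) = 1 := v.map_one_add_of_lt hd'
  have hd : 1 + D * (w1 + w2) ≠ 0 := by
    intro h
    rw [h, map_zero] at hd1
    exact zero_ne_one hd1
  set a := (z1 ^ 2 + z1 * z2 + z2 ^ 2) / (1 + D * (w1 + w2)) with ha'
  have ha : a * (1 + D * (w1 + w2)) = z1 ^ 2 + z1 * z2 + z2 ^ 2 := div_mul_cancel₀ _ hd
  have hva : v a ≤ c ^ 2 := by
    rw [ha', map_div₀, hd1, div_one]
    refine v.map_add_le (v.map_add_le ?_ ?_) ?_
    · rw [map_pow]; gcongr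
    · rw [map_mul, sq]; gcongr
    · rw [map_pow]; gcongr
  set b := w1 - a * z1 with hb
  set z3 := D * a ^ 2 - z1 - z2 with hz3
  set w3 := a * z3 + b with hw3
  have hs : v (z1 + z2 + z3) ≤ v D * c ^ 4 := by
    have : z1 + z2 + z3 = D * a ^ 2 := by rw [hz3]; ring
    rw [this, map_mul, map_pow]
    calc v D * v a ^ 2 ≤ v D * (c ^ 2) ^ 2 := by gcongr
      _ = v D * c ^ 4 := by rw [← pow_mul]
  have hc4 : v D * c ^ 4 ≤ c := by
    calc v D * c ^ 4 = (v D * c ^ 3) * c := by rw [pow_succ c 3, mul_assoc]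
      _ ≤ 1 * c := by gcongr
      _ = c := one_mul c
  have hz3c : v z3 ≤ c := by
    have : z3 = (z1 + z2 + z3) - (z1 + z2) := by ring
    rw [this]
    exact v.map_sub_le (hs.trans hc4) (v.map_add_le hz1 hz2)
  have haz : ∀ z, v z ≤ c → v (a * z) ≤ c ^ 3 := by
    intro z hz
    rw [map_mul]
    calc v a * v z ≤ c ^ 2 * c := by gcongr
      _ = c ^ 3 := by rw [← pow_succ]
  have hw3c : v w3 ≤ c ^ 3 := by
    rw [hw3, hb]
    refine v.map_add_le (haz _ hz3c) (v.map_sub_le ?_ (haz _ hz1))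
    rw [v1]; gcongr
  have hD3 : v (D * w3) < 1 := by
    rw [map_mul]
    calc v D * v w3 ≤ v D * c ^ 3 := by gcongr
      _ < 1 := hc
  rw [zc_zw hw1 n1, zc_zw hw2 n2]
  rcases law hV hw1 hw2 e1 e2 hd ha hb hz3 hw3 n1 n2 with ⟨k1, k2, k3⟩ | ⟨k1, X, Y, h, k2, k3, k4⟩
  · rw [k3]
    refine ⟨Or.inl rfl, ?_⟩
    rw [zc_zero]
    have : (0 : L) - z1 - z2 = -(z1 + z2 + z3) := by rw [k1]; ring
    rw [this, Valuation.map_neg]
    exact hs
  · have hu1 : v (1 + D * w3) = 1 := v.map_one_add_of_lt hD3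
    have hu : 1 + D * w3 ≠ 0 := by
      intro h
      rw [h, map_zero] at hu1
      exact zero_ne_one hu1
    have hX : X = (-z3 / (1 + D * w3)) / (-w3 / (1 + D * w3)) := by
      field_simp
      linear_combination k3
    have hY : Y = 1 / (-w3 / (1 + D * w3)) := by
      field_simp
      linear_combination k4
    have hzc : zc (.some X Y h : V.toAffine.Point) = -z3 / (1 + D * w3) := by
      rw [zc_some, hX, hY]
      field_simp
    rw [k2, hzc]
    constructor
    · right
      refine ⟨-z3 / (1 + D * w3), -w3 / (1 + D * w3), by rw [← hX, ← hY]; exact h, ?_,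
        div_ne_zero (neg_ne_zero.2 k1) hu, ?_, ?_⟩
      · rw [Affine.Point.some.injEq]
        exact ⟨hX, hY⟩
      · rw [map_mul, map_div₀, hu1, div_one, Valuation.map_neg, ← map_mul]
        exact hD3
      · rw [map_div₀, hu1, div_one, Valuation.map_neg]
        exact hz3c
    · have : -z3 / (1 + D * w3) - z1 - z2 = z3 * (D * w3) / (1 + D * w3) - (z1 + z2 + z3) := by
        field_simp
        ring
      rw [this]
      refine v.map_sub_le ?_ hs
      rw [map_div₀, hu1, div_one, map_mul, map_mul]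
      calc v z3 * (v D * v w3) ≤ c * (v D * c ^ 3) := by gcongr
        _ = v D * c ^ 4 := by rw [pow_succ c 3]; ac_rfl

include hV hD in
theorem neg_near {c : ℤᵐ⁰} (hc : v D * c ^ 3 < 1) {P : V.toAffine.Point} (hP : Near D v c P) :
    Near D v c (-P) ∧ v (zc (-P) + zc P) ≤ v D * c ^ 4 := by
  rcases hP with rfl | ⟨z, w, n, rfl, hw, hDw, hz⟩
  · rw [neg_zero]
    refine ⟨Or.inl rfl, ?_⟩
    rw [zc_zero, add_zero, map_zero]
    exact zero_le
  have v1 := val_w hV v hw n hDw
  have hu1 : v (1 + D * w) = 1 := v.map_one_add_of_lt hDw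
  have hu : 1 + D * w ≠ 0 := by
    intro h
    rw [h, map_zero] at hu1
    exact zero_ne_one hu1
  have n' := hV.neg_nons hD n
  have hX : z / w = (-z / (1 + D * w)) / (-w / (1 + D * w)) := by
    rw [div_div_div_cancel_right₀ hu, neg_div_neg_eq]
  have hY : -(1 / w) - D = 1 / (-w / (1 + D * w)) := by
    field_simp
    ring
  rw [hV.neg_eq n n', zc_zw hw n]
  have hzc : zc (.some (z / w) (-(1 / w) - D) n' : V.toAffine.Point) = -z / (1 + D * w) := by
    rw [zc_some, hY]
    field_simp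
  rw [hzc]
  constructor
  · right
    refine ⟨-z / (1 + D * w), -w / (1 + D * w), by rw [← hX, ← hY]; exact n', ?_,
      div_ne_zero (neg_ne_zero.2 hw) hu, ?_, ?_⟩
    · rw [Affine.Point.some.injEq]
      exact ⟨hX, hY⟩
    · rw [map_mul, map_div₀, hu1, div_one, Valuation.map_neg, ← map_mul]
      exact hDw
    · rw [map_div₀, hu1, div_one, Valuation.map_neg]
      exact hz
  · have : -z / (1 + D * w) + z = z * (D * w) / (1 + D * w) := by
      field_simp
      ring
    rw [this, map_div₀, hu1, div_one, map_mul, map_mul, v1]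
    calc v z * (v D * v z ^ 3) ≤ c * (v D * c ^ 3) := by gcongr
      _ = v D * c ^ 4 := by rw [pow_succ c 3]; ac_rfl

include hV hD in
theorem nsmul_near {c : ℤᵐ⁰} (hc : v D * c ^ 3 < 1) {P : V.toAffine.Point} (hP : Near D v c P)
    (n : ℕ) : Near D v c (n • P) ∧ v (zc (n • P) - n * zc P) ≤ v D * c ^ 4 := by
  induction n with
  | zero =>
    rw [zero_smul]
    refine ⟨Or.inl rfl, ?_⟩
    rw [zc_zero, Nat.cast_zero, zero_mul, sub_zero, map_zero]
    exact zero_le
  | succ n ih =>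
    rw [succ_nsmul]
    obtain ⟨k1, k2⟩ := add_near hV v hc ih.1 hP
    refine ⟨k1, ?_⟩
    have : zc (n • P + P) - ((n + 1 : ℕ) : L) * zc P =
        (zc (n • P + P) - zc (n • P) - zc P) + (zc (n • P) - n * zc P) := by
      push_cast
      ring
    rw [this]
    exact v.map_add_le k2 ih.2

include hV hD in
theorem zsmul_near {c : ℤᵐ⁰} (hc : v D * c ^ 3 < 1) {P : V.toAffine.Point} (hP : Near D v c P)
    (n : ℤ) : Near D v c (n • P) ∧ v (zc (n • P) - n * zc P) ≤ v D * c ^ 4 := by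
  obtain ⟨m, rfl | rfl⟩ := n.eq_nat_or_neg
  · rw [natCast_zsmul, Int.cast_natCast]
    exact nsmul_near hV hD v hc hP m
  · rw [neg_smul, natCast_zsmul, Int.cast_neg, Int.cast_natCast]
    obtain ⟨k1, k2⟩ := nsmul_near hV hD v hc hP m
    obtain ⟨k3, k4⟩ := neg_near hV hD v hc k1
    refine ⟨k3, ?_⟩
    have : zc (-(m • P)) - -(m : L) * zc P = (zc (-(m • P)) + zc (m • P)) - (zc (m • P) - m * zc P) := by
      ring
    rw [this]
    exact v.map_sub_le k4 k2

theorem im_near {I : L} (hI : I ^ 2 + I + 1 = 0) {c : ℤᵐ⁰} {P : V.toAffine.Point}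
    (hP : Near D v c P) : Near D v c (im hV hD hI P) ∧ zc (im hV hD hI P) = I * zc P := by
  rcases hP with rfl | ⟨z, w, n, rfl, hw, hDw, hz⟩
  · rw [map_zero]
    refine ⟨Or.inl rfl, ?_⟩
    rw [zc_zero, mul_zero]
  · rw [im_some]
    have hvI : v I = 1 := by
      have h3 := congrArg v (cubI hI)
      rw [map_pow, map_one] at h3
      exact (pow_eq_one_iff.1 h3).resolve_right three_ne_zero
    have hx : I * (z / w) = (I * z) / w := by ring
    constructor
    · right
      refine ⟨I * z, w, by rw [← hx]; exact hV.im_nons hD hI n, ?_, hw, hDw, ?_⟩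
      · rw [Affine.Point.some.injEq]
        exact ⟨hx, rfl⟩
      · rw [map_mul, hvI, one_mul]
        exact hz
    · rw [zc_some, zc_some]
      ring

include hD in
theorem comb {I : L} (hI : I ^ 2 + I + 1 = 0) {c : ℤᵐ⁰} (hc : v D * c ^ 3 < 1)
    {P : V.toAffine.Point} (hP : Near D v c P) (a b : ℤ) :
    Near D v c (a • P + b • im hV hD hI P) ∧
      v (zc (a • P + b • im hV hD hI P) - (a + b * I) * zc P) ≤ v D * c ^ 4 := by
  obtain ⟨k1, k2⟩ := zsmul_near hV hD v hc hP a
  obtain ⟨k3, k4⟩ := im_near hV hD v hI hP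
  obtain ⟨k5, k6⟩ := zsmul_near hV hD v hc k3 b
  obtain ⟨k7, k8⟩ := add_near hV v hc k1 k5
  refine ⟨k7, ?_⟩
  have : zc (a • P + b • im hV hD hI P) - (a + b * I) * zc P =
      (zc (a • P + b • im hV hD hI P) - zc (a • P) - zc (b • im hV hD hI P)) +
      ((zc (a • P) - a * zc P) + (zc (b • im hV hD hI P) - b * zc (im hV hD hI P))) := by
    rw [k4]
    ring
  rw [this]
  exact v.map_add_le k8 (v.map_add_le k2 k6)

include hD in
/-- the subgroup of the points near zero -/
def FG {c : ℤᵐ⁰} (hc : v D * c ^ 3 < 1) : AddSubgroup V.toAffine.Point where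
  carrier := {P | Near D v c P}
  zero_mem' := Or.inl rfl
  add_mem' := fun hP hQ => (add_near hV v hc hP hQ).1
  neg_mem' := fun hP => (neg_near hV hD v hc hP).1

theorem mem_FG {c : ℤᵐ⁰} (hc : v D * c ^ 3 < 1) {P : V.toAffine.Point} :
    P ∈ FG hV hD v hc ↔ Near D v c P := Iff.rfl

omit [DecidableEq L] [CharZero L] in
theorem near_iff {c c' : ℤᵐ⁰} {P : V.toAffine.Point} (h : Near D v c P) :
    Near D v c' P ↔ v (zc P) ≤ c' := by
  rcases h with rfl | ⟨z, w, n, rfl, hw, hDw, hz⟩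
  · rw [zc_zero, map_zero]
    exact ⟨fun _ => zero_le, fun _ => Or.inl rfl⟩
  · rw [zc_zw hw n]
    constructor
    · rintro (h | ⟨z', w', n', e, hw', hDw', hz'⟩)
      · exact absurd h (Affine.Point.some_ne_zero _)
      · have h1 : zc (.some _ _ n : V.toAffine.Point) = z' := by rw [e, zc_zw hw' n']
        rw [zc_zw hw n] at h1
        rw [h1]
        exact hz'
    · exact fun h => Or.inr ⟨z, w, n, rfl, hw, hDw, h⟩

theorem le_exp_neg_one {x : ℤᵐ⁰} (hx : x < 1) : x ≤ exp (-1 : ℤ) := by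
  by_cases h0 : x = 0
  · rw [h0]; exact zero_le
  · rw [← exp_log h0] at hx ⊢
    rw [← exp_zero, exp_lt_exp] at hx
    rw [exp_le_exp]
    omega

include hV in
omit [DecidableEq L] [CharZero L] in
/-- large points are near zero -/
theorem near_of_large {c : ℤᵐ⁰} (hc0 : c ≠ 0) (hc : v D * c ^ 3 < 1) {x y : L}
    (h : V.toAffine.Nonsingular x y) (hx : (c ^ 2)⁻¹ ≤ v x) :
    Near D v c (.some x y h : V.toAffine.Point) := by
  have e := (hV.eqn _ _).1 h.1
  have hc2 : (0 : ℤᵐ⁰) < (c ^ 2)⁻¹ := by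
    rw [zero_lt_iff]
    exact inv_ne_zero (pow_ne_zero 2 hc0)
  have hx0 : x ≠ 0 := by
    rintro rfl
    rw [map_zero] at hx
    exact absurd hx (not_le.2 hc2)
  have hy1 : v D < v y := by
    by_contra hcon
    push Not at hcon
    have h1 : v x ^ 3 ≤ v D ^ 2 := by
      rw [← map_pow, ← e]
      have : y ^ 2 + D * y = y * (y + D) := by ring
      rw [this, map_mul, sq]
      have h2 : v (y + D) ≤ v D := v.map_add_le hcon le_rfl
      gcongr
    have h2 : v D < (c ^ 3)⁻¹ := by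
      have hc3 : (0 : ℤᵐ⁰) < c ^ 3 := zero_lt_iff.2 (pow_ne_zero 3 hc0)
      have := (lt_mul_inv_iff₀ hc3).2 hc
      rwa [one_mul] at this
    have h3 : v D ^ 2 < ((c ^ 3)⁻¹) ^ 2 := pow_lt_pow_left₀ h2 zero_le two_ne_zero
    have h4 : ((c ^ 2)⁻¹) ^ 3 ≤ v x ^ 3 := by gcongr
    have h5 : ((c ^ 3)⁻¹) ^ 2 = ((c ^ 2)⁻¹) ^ 3 := by
      rw [inv_pow, inv_pow, ← pow_mul, ← pow_mul]
    rw [h5] at h3
    exact absurd (h4.trans h1) (not_le.2 h3)
  have hy0' : (0 : ℤᵐ⁰) < v y := lt_of_le_of_lt zero_le hy1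
  have hy0 : y ≠ 0 := by
    rintro rfl
    rw [map_zero] at hy0'
    exact lt_irrefl _ hy0'
  have hvx : (0 : ℤᵐ⁰) < v x := lt_of_lt_of_le hc2 hx
  have hxy : v y ^ 2 = v x ^ 3 := by
    rw [← map_pow v x, ← e]
    have : y ^ 2 + D * y = y * (y + D) := by ring
    rw [this, map_mul, v.map_add_eq_of_lt_left hy1, sq]
  have e1 : x = (x / y) / (1 / y) := by field_simp
  have e2 : y = 1 / (1 / y) := by field_simp
  right
  refine ⟨x / y, 1 / y, by rw [← e1, ← e2]; exact h, ?_, one_div_ne_zero hy0, ?_, ?_⟩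
  · rw [Affine.Point.some.injEq]
    exact ⟨e1, e2⟩
  · rw [mul_one_div, map_div₀]
    exact (div_lt_one₀ hy0').2 hy1
  · refine (pow_le_pow_iff_left₀ zero_le zero_le two_ne_zero).1 ?_
    rw [map_div₀, div_pow, hxy, pow_succ (v x) 2, div_mul_cancel_left₀ (pow_ne_zero 2 hvx.ne')]
    exact inv_le_of_inv_le₀ (zero_lt_iff.2 (pow_ne_zero 2 hc0)) hx

end val

theorem exp_neg_lt (x : ℤᵐ⁰) (hx : x ≠ 0) : ∃ n : ℕ, exp (-(n : ℤ)) < x := by
  refine ⟨(log x).natAbs + 1, ?_⟩
  rw [← exp_log hx, exp_lt_exp, log_exp]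
  omega

end Pool.Agent.Helper68.C10.FilB

namespace Pool.Agent.Helper68.C10

open NumberField IsDedekindDomain WeierstrassCurve WithZero
open Pool.Agent.TH841.SH.D (Pt act)
open Pool.Agent.Q7.CE (ED)
open Pool.Agent.Q285.CE
open FilB

open scoped Classical in
theorem s_FIL2 : S_FIL2 := by
  intro K _ _ ω D hω hD v
  let L := v.adicCompletion K
  let d : L := algebraMap K L D
  let I : L := algebraMap K L ω
  have hd : d ≠ 0 := (map_ne_zero _).2 hD
  have hI : I ^ 2 + I + 1 = 0 := by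
    have h := congrArg (algebraMap K L) hω
    rw [map_add, map_add, map_pow, map_one, map_zero] at h
    exact h
  have hV : IsD ((ED D).baseChange L) d := isD_base D L
  have : CharZero L := charZero_of_injective_algebraMap (algebraMap K L).injective
  let w : Valuation L ℤᵐ⁰ := Valued.v
  -- the first level
  obtain ⟨n0, hn0⟩ : ∃ n0 : ℕ, w d * exp (-(n0 : ℤ)) < 1 := by
    obtain ⟨n, hn⟩ := exp_neg_lt ((w d)⁻¹) (inv_ne_zero ((Valuation.ne_zero_iff _).2 hd))
    refine ⟨n, ?_⟩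
    have h0 : 0 < w d := zero_lt_iff.2 ((Valuation.ne_zero_iff _).2 hd)
    calc w d * exp (-(n : ℤ)) < w d * (w d)⁻¹ := by gcongr
      _ = 1 := mul_inv_cancel₀ h0.ne'
  let c : ℕ → ℤᵐ⁰ := fun n => exp (-((n0 + n : ℕ) : ℤ))
  have hc0 : ∀ n, c n ≠ 0 := fun n => exp_ne_zero
  have hc : ∀ n, w d * c n ^ 3 < 1 := by
    intro n
    refine lt_of_le_of_lt ?_ hn0
    gcongr
    show exp (-((n0 + n : ℕ) : ℤ)) ^ 3 ≤ _
    rw [← exp_nsmul, exp_le_exp]
    push_cast
    rw [nsmul_eq_mul]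
    push_cast
    linarith
  have hcs : ∀ n, c (n + 1) = exp (-1 : ℤ) * c n := by
    intro n
    show exp (-((n0 + (n + 1) : ℕ) : ℤ)) = exp (-1 : ℤ) * exp (-((n0 + n : ℕ) : ℤ))
    rw [← exp_add]
    congr 1
    push_cast
    ring
  have hcle : ∀ n, c (n + 1) ≤ c n := by
    intro n
    show exp _ ≤ exp _
    rw [exp_le_exp]
    push_cast
    linarith
  refine ⟨(c 0 ^ 2)⁻¹, fun n => FG hV hd w (hc n), ?_, ?_, ?_, ?_⟩
  · rintro R (rfl | ⟨x, y, h, rfl, hB⟩)
    · exact zero_mem _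
    · exact near_of_large hV w (hc0 0) (hc 0) h hB
  · intro n R hR
    rcases hR with hR | ⟨z, u, hh, e1, e2, e3, e4⟩
    · exact Or.inl hR
    · exact Or.inr ⟨z, u, hh, e1, e2, e3, e4.trans (hcle n)⟩
  · intro R hR
    have h1 : ∀ n, w (zc R) ≤ c n := fun n => (near_iff w (hR n)).1 (hR n)
    have h2 : w (zc R) = 0 := by
      by_contra hne
      obtain ⟨n, hn⟩ := exp_neg_lt _ hne
      have h3 := h1 n
      have h4 : c n ≤ exp (-(n : ℤ)) := by
        show exp _ ≤ exp _
        rw [exp_le_exp]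
        push_cast
        linarith
      exact absurd (h3.trans h4) (not_le.2 hn)
    rw [Valuation.zero_iff] at h2
    rcases hR 0 with hR0 | ⟨z, u, hh, e1, e2, e3, e4⟩
    · exact hR0
    · exfalso
      rw [e1, zc_zw e2 hh] at h2
      have h5 := val_w hV w e2 hh e3
      rw [h2, map_zero] at h5
      exact e2 ((Valuation.zero_iff _).1 (by rw [h5]; exact zero_pow three_ne_zero))
  · intro a b hab n R hR
    have hab' : w ((a : L) + (b : L) * I) < 1 := by
      have h1 : ((a : L) + (b : L) * I) = algebraMap K L ((a : K) + (b : K) * ω) := by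
        rw [map_add, map_mul, map_intCast, map_intCast]
      rw [h1]
      have h2 := HeightOneSpectrum.valuedAdicCompletion_eq_valuation' v ((a : K) + (b : K) * ω)
      exact lt_of_eq_of_lt h2 hab
    obtain ⟨k1, k2⟩ := comb hV hd w hI (hc n) hR a b
    refine (near_iff w k1).2 ?_
    have h4 : w d * c n ^ 4 ≤ c (n + 1) := by
      rw [hcs, pow_succ (c n) 3, ← mul_assoc]
      have := le_exp_neg_one (hc n)
      gcongr
    have h5 : w (((a : L) + (b : L) * I) * zc R) ≤ c (n + 1) := by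
      rw [map_mul, hcs]
      have := le_exp_neg_one hab'
      have h6 := (near_iff w hR).1 hR
      gcongr
    have key : ∀ t s : L, w (t - s) ≤ c (n + 1) → w s ≤ c (n + 1) → w t ≤ c (n + 1) := by
      intro t s h1 h2
      have h3 : t = (t - s) + s := by ring
      rw [h3]
      exact w.map_add_le h1 h2
    exact key _ _ (k2.trans h4) h5

end Pool.Agent.Helper68.C10
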