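import Pool.Agent.Helper68.C10.StPad
import Pool.Graph.R_pool_sql_team_seeded_3997aac3.Q286.EQ.MW

/-!
# Module PADA: the `p`-adic closure for rank at most one over `ℤ[ω]`, algebra
-/

set_option autoImplicit false

open scoped Classical

namespace Pool.Agent.Helper68.C10

open NumberField IsDedekindDomain WeierstrassCurve
open Pool.Agent.TH841.SH.D (Pt act)
open Pool.Agent.Q7.CE (ED)
open Pool.Agent.Q285.CE (imP imP_imP imP_act)

namespace PA

section rep

variable {K : Type} [Field K] [NumberField K]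

theorem prim {ω : K} (hω : ω ^ 2 + ω + 1 = 0) : IsPrimitiveRoot ω 3 := by
  rw [← Polynomial.isRoot_cyclotomic_iff (n := 3) (R := K)]
  rw [Polynomial.cyclotomic_three, Polynomial.IsRoot.def]
  simpa using hω

theorem rep [IsCyclotomicExtension {3} ℚ K] {ω : K} (hω : ω ^ 2 + ω + 1 = 0) (z : 𝓞 K) :
    ∃ a b : ℤ, algebraMap (𝓞 K) K z = (a : K) + (b : K) * ω := by
  have hζ := prim hω
  obtain ⟨f, hf, hz⟩ := hζ.integralPowerBasis.exists_eq_aeval z
  rw [hζ.integralPowerBasis_dim] at hf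
  have h2 : f.natDegree ≤ 1 := by
    have : Nat.totient 3 = 2 := by decide
    omega
  obtain ⟨a, b, h3⟩ : ∃ a b : ℤ, f = Polynomial.C a * Polynomial.X + Polynomial.C b :=
    ⟨_, _, Polynomial.eq_X_add_C_of_natDegree_le_one h2⟩
  refine ⟨b, a, ?_⟩
  have h4 : (algebraMap (𝓞 K) K) hζ.toInteger = ω := rfl
  rw [hz, hζ.integralPowerBasis_gen, h3, map_add, map_mul, Polynomial.aeval_C, Polynomial.aeval_C,
    Polynomial.aeval_X, map_add, map_mul, h4]
  simp only [eq_intCast, map_intCast]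
  ring

theorem uniq0 {ω : K} (hω : ω ^ 2 + ω + 1 = 0) {x y : ℤ} (h : (x : K) + (y : K) * ω = 0) :
    x = 0 ∧ y = 0 := by
  have h1 : ((x ^ 2 - x * y + y ^ 2 : ℤ) : K) = 0 := by
    push_cast
    linear_combination ((x : K) - y - y * ω) * h + (y : K) ^ 2 * hω
  have h2 : x ^ 2 - x * y + y ^ 2 = 0 := by exact_mod_cast h1
  have hy : y = 0 := by
    have : y ^ 2 ≤ 0 := by nlinarith [sq_nonneg (2 * x - y)]
    exact pow_eq_zero_iff (two_ne_zero) |>.1 (le_antisymm this (sq_nonneg y))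
  subst hy
  have : x ^ 2 = 0 := by linarith
  exact ⟨pow_eq_zero_iff (two_ne_zero) |>.1 this, rfl⟩

theorem uniq {ω : K} (hω : ω ^ 2 + ω + 1 = 0) {x y x' y' : ℤ}
    (h : (x : K) + (y : K) * ω = (x' : K) + (y' : K) * ω) : x = x' ∧ y = y' := by
  have h1 := uniq0 hω (x := x - x') (y := y - y') (by push_cast; linear_combination h)
  omega

variable [IsCyclotomicExtension {3} ℚ K]

noncomputable def c0 {ω : K} (hω : ω ^ 2 + ω + 1 = 0) (z : 𝓞 K) : ℤ := (rep hω z).choose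

noncomputable def c1 {ω : K} (hω : ω ^ 2 + ω + 1 = 0) (z : 𝓞 K) : ℤ :=
  (rep hω z).choose_spec.choose

theorem c_spec {ω : K} (hω : ω ^ 2 + ω + 1 = 0) (z : 𝓞 K) :
    algebraMap (𝓞 K) K z = (c0 hω z : K) + (c1 hω z : K) * ω := (rep hω z).choose_spec.choose_spec

theorem c_eq {ω : K} (hω : ω ^ 2 + ω + 1 = 0) {z : 𝓞 K} {a b : ℤ}
    (h : algebraMap (𝓞 K) K z = (a : K) + (b : K) * ω) : c0 hω z = a ∧ c1 hω z = b :=
  uniq hω ((c_spec hω z).symm.trans h)

/-- the action of `𝓞 K = ℤ[ω]` -/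
noncomputable def Phi {ω : K} (hω : ω ^ 2 + ω + 1 = 0) {B : Type} [AddCommGroup B] (j : B →+ B)
    (hj : ∀ R, j (j R) = -R - j R) : 𝓞 K →+* AddMonoid.End B where
  toFun z := c0 hω z • AddMonoidHom.id B + c1 hω z • j
  map_one' := by
    have h := c_eq hω (z := 1) (a := 1) (b := 0) (by simp)
    rw [h.1, h.2]
    ext R
    show (1 : ℤ) • R + (0 : ℤ) • j R = R
    rw [one_smul, zero_smul, add_zero]
  map_zero' := by
    have h := c_eq hω (z := 0) (a := 0) (b := 0) (by simp)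
    rw [h.1, h.2]
    ext R
    show (0 : ℤ) • R + (0 : ℤ) • j R = 0
    rw [zero_smul, zero_smul, add_zero]
  map_add' x y := by
    have h := c_eq hω (z := x + y) (a := c0 hω x + c0 hω y) (b := c1 hω x + c1 hω y) (by
      rw [map_add]
      push_cast
      linear_combination c_spec hω x + c_spec hω y)
    rw [h.1, h.2]
    ext R
    show (c0 hω x + c0 hω y) • R + (c1 hω x + c1 hω y) • j R =
      (c0 hω x • R + c1 hω x • j R) + (c0 hω y • R + c1 hω y • j R)
    rw [add_smul, add_smul]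
    abel
  map_mul' x y := by
    have h := c_eq hω (z := x * y) (a := c0 hω x * c0 hω y - c1 hω x * c1 hω y)
      (b := c0 hω x * c1 hω y + c1 hω x * c0 hω y - c1 hω x * c1 hω y) (by
      rw [map_mul, c_spec hω x, c_spec hω y]
      push_cast
      linear_combination (c1 hω x : K) * (c1 hω y : K) * hω)
    rw [h.1, h.2]
    ext R
    show (c0 hω x * c0 hω y - c1 hω x * c1 hω y) • R +
      (c0 hω x * c1 hω y + c1 hω x * c0 hω y - c1 hω x * c1 hω y) • j R =
      c0 hω x • (c0 hω y • R + c1 hω y • j R) + c1 hω x • j (c0 hω y • R + c1 hω y • j R)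
    rw [map_add, map_zsmul, map_zsmul, hj]
    module

theorem Phi_apply {ω : K} (hω : ω ^ 2 + ω + 1 = 0) {B : Type} [AddCommGroup B] (j : B →+ B)
    (hj : ∀ R, j (j R) = -R - j R) (z : 𝓞 K) (R : B) :
    Phi hω j hj z R = c0 hω z • R + c1 hω z • j R := rfl

end rep

section filt

variable {O : Type} [CommRing O] {B : Type} [AddCommGroup B] (Φ : O →+* AddMonoid.End B)
  (I : Ideal O) (F : ℕ → AddSubgroup B)

theorem pow_mem (hI : ∀ x ∈ I, ∀ n, ∀ R ∈ F n, Φ x R ∈ F (n + 1)) (n : ℕ) :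
    ∀ σ ∈ I ^ (n + 1), ∀ m, ∀ R ∈ F m, Φ σ R ∈ F (m + (n + 1)) := by
  induction n with
  | zero =>
    intro σ hσ m R hR
    rw [zero_add, pow_one] at hσ
    exact hI σ hσ m R hR
  | succ n ih =>
    intro σ hσ m R hR
    rw [pow_succ] at hσ
    refine Submodule.mul_induction_on hσ (fun x hx y hy => ?_) (fun x y hx hy => ?_)
    · rw [map_mul]
      have h := ih x hx (m + 1) (Φ y R) (hI y hy m R hR)
      rw [show m + (n + 1 + 1) = m + 1 + (n + 1) by ring]
      exact h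
    · rw [map_add]
      exact add_mem hx hy

theorem anti (hF : ∀ n, F (n + 1) ≤ F n) {m n : ℕ} (h : m ≤ n) : F n ≤ F m :=
  antitone_nat_of_succ_le hF h

theorem step (hI : ∀ x ∈ I, ∀ n, ∀ R ∈ F n, Φ x R ∈ F (n + 1)) {Q : B} (hQ : Q ∈ F 0) {c t y μ : O}
    (hc : c ∈ I) {n : ℕ} (hy : t - y * μ ∈ I ^ (n + 1)) (hμ : Φ μ Q ∈ F n) :
    Φ (c * t) Q ∈ F (n + 1) := by
  have e : c * t = (c * y) * μ + c * (t - y * μ) := by ring
  rw [e, map_add]
  refine add_mem ?_ ?_
  · rw [map_mul]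
    exact hI _ (I.mul_mem_right _ hc) n _ hμ
  · have h := pow_mem Φ I F hI n (c * (t - y * μ)) (Ideal.mul_mem_left _ _ hy) 0 Q hQ
    rw [zero_add] at h
    exact h

end filt

section main

variable {K : Type} [Field K] [NumberField K] {ω D : K}

theorem toC_inj (D : K) (v : HeightOneSpectrum (𝓞 K)) : Function.Injective (toC D v) :=
  @Affine.Point.map_injective K K K (v.adicCompletion K) _ _ _ _ (ED D) (Classical.decEq K)
    (Classical.decEq _) _ _ _ _ _ _ _ (Algebra.ofId K (v.adicCompletion K))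

theorem dvd_all (p : ℕ) [Fact p.Prime] (b : ℤ_[p]) (h : ∀ k : ℕ, (p : ℤ_[p]) ^ k ∣ b) : b = 0 := by
  by_contra hb
  obtain ⟨n, hn⟩ := FiniteMultiplicity.of_not_isUnit (PadicInt.prime_p (p := p)).not_isUnit hb
  exact hn (h _)

theorem app (p : ℕ) [Fact p.Prime] (b : ℤ_[p]) (n : ℕ) :
    ∃ c : ℤ, (p : ℤ_[p]) ^ n ∣ (c : ℤ_[p]) - b := by
  refine ⟨b.appr n, ?_⟩
  have h := PadicInt.appr_spec n b
  rw [Ideal.mem_span_singleton] at h
  rw [← neg_sub, dvd_neg]
  simpa using h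

theorem p_pow {B : Type} [AddCommGroup B] (F : ℕ → AddSubgroup B) (p : ℕ)
    (hp : ∀ n, ∀ R ∈ F n, p • R ∈ F (n + 1)) (n : ℕ) : ∀ R ∈ F 0, (p ^ n) • R ∈ F n := by
  induction n with
  | zero =>
    intro R hR
    rw [pow_zero, one_smul]
    exact hR
  | succ n ih =>
    intro R hR
    rw [pow_succ', mul_smul]
    exact hp n _ (ih R hR)

variable [IsCyclotomicExtension {3} ℚ K]

theorem core (h1 : S_FIL1) (h2 : S_FIL2) (hω : ω ^ 2 + ω + 1 = 0) (hD : D ≠ 0) (p : ℕ)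
    [hp : Fact p.Prime] {r : ℕ} (P : Fin r → Pt (ED D) K) (a : Fin r → ℤ_[p]) (Q : Pt (ED D) K)
    (hQ : ∀ c : ℕ, 0 < c → c • Q ≠ 0) (N0 : ℤ) (x y : Fin r → ℤ)
    (hx : ∀ i, N0 • P i = x i • Q + y i • imP hD hω K Q)
    (hyp : ∀ v : HeightOneSpectrum (𝓞 K), (p : 𝓞 K) ∈ v.asIdeal → ∀ n : ℕ,
        ∃ m : Fin r → ℤ, (∀ i, (p : ℤ_[p]) ^ n ∣ (m i : ℤ_[p]) - a i) ∧
        ∃ R : Pt (ED D) (v.adicCompletion K), ∑ i, m i • toC D v (P i) = (p ^ n : ℕ) • R) :
    ∑ i, a i * (x i : ℤ_[p]) = 0 ∧ ∑ i, a i * (y i : ℤ_[p]) = 0 := by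
  by_contra hne
  set b0 : ℤ_[p] := ∑ i, a i * (x i : ℤ_[p]) with hb0
  set b1 : ℤ_[p] := ∑ i, a i * (y i : ℤ_[p]) with hb1
  obtain ⟨k, hk⟩ : ∃ k : ℕ, ¬ ((p : ℤ_[p]) ^ k ∣ b0 ∧ (p : ℤ_[p]) ^ k ∣ b1) := by
    by_contra hall
    push Not at hall
    exact hne ⟨dvd_all p b0 fun k => (hall k).1, dvd_all p b1 fun k => (hall k).2⟩
  choose e0 he0 using app p b0
  choose e1 he1 using app p b1
  have hdv : ∀ {e : ℕ → ℤ} {b : ℤ_[p]}, (∀ n, (p : ℤ_[p]) ^ n ∣ (e n : ℤ_[p]) - b) → ∀ n, k ≤ n →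
      ∃ u : ℤ, e k - e n = (p : ℤ) ^ k * u := by
    intro e b he n hn
    have h3 : (p : ℤ_[p]) ^ k ∣ ((e k - e n : ℤ) : ℤ_[p]) := by
      have h4 := dvd_sub (he k) ((pow_dvd_pow _ hn).trans (he n))
      push_cast
      convert h4 using 1
      ring
    exact (PadicInt.pow_p_dvd_int_iff k _).1 h3
  let wO : 𝓞 K := (prim hω).toInteger
  have hwO : algebraMap (𝓞 K) K wO = ω := rfl
  let μ : ℕ → 𝓞 K := fun n => (e0 n : 𝓞 K) + (e1 n : 𝓞 K) * wO
  have hμ : ∀ n, algebraMap (𝓞 K) K (μ n) = (e0 n : K) + (e1 n : K) * ω := by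
    intro n
    show algebraMap (𝓞 K) K ((e0 n : 𝓞 K) + (e1 n : 𝓞 K) * wO) = _
    rw [map_add, map_mul, hwO, map_intCast, map_intCast]
  have hA : ¬ ((p : 𝓞 K) ^ k ∣ μ k) := by
    rintro ⟨z, hz⟩
    have h3 := congrArg (algebraMap (𝓞 K) K) hz
    rw [hμ, map_mul, c_spec hω z, map_pow, map_natCast] at h3
    have h4 := uniq hω (x := e0 k) (y := e1 k) (x' := (p : ℤ) ^ k * c0 hω z)
      (y' := (p : ℤ) ^ k * c1 hω z) (by push_cast; linear_combination h3)
    apply hk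
    constructor
    · have h5 : (p : ℤ_[p]) ^ k ∣ (e0 k : ℤ_[p]) := ⟨c0 hω z, by rw [h4.1]; push_cast; ring⟩
      exact (dvd_sub_right h5).1 (he0 k)
    · have h5 : (p : ℤ_[p]) ^ k ∣ (e1 k : ℤ_[p]) := ⟨c1 hω z, by rw [h4.2]; push_cast; ring⟩
      exact (dvd_sub_right h5).1 (he1 k)
  have hinj : Function.Injective (algebraMap (𝓞 K) K) := FaithfulSMul.algebraMap_injective (𝓞 K) K
  have hp0 : ((p : 𝓞 K) ^ k) ≠ 0 := pow_ne_zero _ (Nat.cast_ne_zero.2 hp.out.ne_zero)
  obtain ⟨v, hv⟩ : ∃ v : HeightOneSpectrum (𝓞 K),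
      v.intValuation ((p : 𝓞 K) ^ k) < v.intValuation (μ k) := by
    by_contra hall
    push Not at hall
    apply hA
    have h3 : algebraMap (𝓞 K) K (μ k) / algebraMap (𝓞 K) K ((p : 𝓞 K) ^ k) ∈
        (algebraMap (𝓞 K) K).range := by
      apply HeightOneSpectrum.mem_integers_of_valuation_le_one
      intro v
      rw [map_div₀, HeightOneSpectrum.valuation_of_algebraMap,
        HeightOneSpectrum.valuation_of_algebraMap]
      exact div_le_one_of_le₀ (hall v) zero_le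
    obtain ⟨z, hz⟩ := h3
    refine ⟨z, hinj ?_⟩
    rw [map_mul, hz, mul_div_cancel₀ _ ((map_ne_zero_iff _ hinj).2 hp0)]
  have hpv : (p : 𝓞 K) ∈ v.asIdeal := by
    have h3 : v.intValuation ((p : 𝓞 K) ^ k) < 1 := lt_of_lt_of_le hv (v.intValuation_le_one _)
    exact v.isPrime.mem_of_pow_mem k ((v.intValuation_lt_one_iff_mem _).1 h3)
  have hle : ∀ n, k ≤ n → v.intValuation ((p : 𝓞 K) ^ k) ≤ v.intValuation (μ n) := by
    intro n hn
    by_contra hlt
    push Not at hlt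
    obtain ⟨u0, hu0⟩ := hdv he0 n hn
    obtain ⟨u1, hu1⟩ := hdv he1 n hn
    have h3 : μ k = μ n + (p : 𝓞 K) ^ k * ((u0 : 𝓞 K) + (u1 : 𝓞 K) * wO) := by
      have h4 : (e0 k : 𝓞 K) - (e0 n : 𝓞 K) = (p : 𝓞 K) ^ k * (u0 : 𝓞 K) := by exact_mod_cast hu0
      have h5 : (e1 k : 𝓞 K) - (e1 n : 𝓞 K) = (p : 𝓞 K) ^ k * (u1 : 𝓞 K) := by exact_mod_cast hu1
      show (e0 k : 𝓞 K) + (e1 k : 𝓞 K) * wO = (e0 n : 𝓞 K) + (e1 n : 𝓞 K) * wO + _
      linear_combination h4 + wO * h5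
    have h4 : v.intValuation (μ k) ≤ v.intValuation ((p : 𝓞 K) ^ k) := by
      rw [h3]
      refine (v.intValuation.map_add _ _).trans (max_le hlt.le ?_)
      rw [map_mul]
      exact mul_le_of_le_one_right zero_le (v.intValuation_le_one _)
    exact absurd h4 (not_le.2 hv)
  obtain ⟨B, F, hF0, hFa, hFz, hFm⟩ := h2 K ω D hω hD v
  obtain ⟨N, hN⟩ := h1 K D hD v B
  let j := imP hD hω (v.adicCompletion K)
  let Φ := Phi hω j (imP_imP hD hω (v.adicCompletion K))
  have hI : ∀ z ∈ v.asIdeal, ∀ n, ∀ R ∈ F n, Φ z R ∈ F (n + 1) := by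
    intro z hz n R hR
    refine hFm _ _ ?_ n R hR
    rw [← c_spec hω z]
    exact (v.valuation_lt_one_iff_mem z).2 hz
  have hpF : ∀ n, ∀ R ∈ F n, p • R ∈ F (n + 1) := by
    intro n R hR
    have h3 := hFm p 0 (by
      have h4 : v.valuation K (algebraMap (𝓞 K) K (p : 𝓞 K)) < 1 :=
        (v.valuation_lt_one_iff_mem (K := K) (p : 𝓞 K)).2 hpv
      rw [map_natCast] at h4
      simpa using h4) n R hR
    rw [zero_smul, add_zero, natCast_zsmul] at h3
    exact h3
  have hM : ∀ R, N.factorial • R ∈ F 0 := by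
    intro R
    obtain ⟨n, hn1, hn2, hn3⟩ := hN R
    obtain ⟨q, hq⟩ := Nat.dvd_factorial hn1 hn2
    rw [hq, mul_comm, mul_smul]
    exact (F 0).nsmul_mem (hF0 _ hn3) q
  set T := toC D v Q with hT
  have hjT : toC D v (imP hD hω K Q) = j T := imP_act hD hω _ Q
  have hμF : ∀ n, Φ (μ n) (N.factorial • T) ∈ F n := by
    intro n
    obtain ⟨m, hm, R, hR⟩ := hyp v hpv n
    have hs : ∀ (z : Fin r → ℤ) (e : ℕ → ℤ) (b : ℤ_[p]), b = ∑ i, a i * (z i : ℤ_[p]) →
        (∀ n, (p : ℤ_[p]) ^ n ∣ (e n : ℤ_[p]) - b) →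
        ∃ u : ℤ, e n - ∑ i, m i * z i = (p : ℤ) ^ n * u := by
      intro z e b hb he
      have h3 : (p : ℤ_[p]) ^ n ∣ ((e n - ∑ i, m i * z i : ℤ) : ℤ_[p]) := by
        have h4 : ((e n - ∑ i, m i * z i : ℤ) : ℤ_[p]) =
            ((e n : ℤ_[p]) - b) - ∑ i, ((m i : ℤ_[p]) - a i) * (z i : ℤ_[p]) := by
          push_cast
          rw [hb]
          simp only [sub_mul, Finset.sum_sub_distrib]
          ring
        rw [h4]
        exact dvd_sub (he n) (Finset.dvd_sum fun i _ => (hm i).mul_right _)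
      exact (PadicInt.pow_p_dvd_int_iff n _).1 h3
    obtain ⟨u0, hu0⟩ := hs x e0 b0 hb0 he0
    obtain ⟨u1, hu1⟩ := hs y e1 b1 hb1 he1
    have h3 : (∑ i, m i * x i) • T + (∑ i, m i * y i) • j T = (p ^ n : ℕ) • (N0 • R) := by
      have h4 : N0 • (∑ i, m i • toC D v (P i)) =
          (∑ i, m i * x i) • T + (∑ i, m i * y i) • j T := by
        rw [Finset.smul_sum, Finset.sum_smul, Finset.sum_smul, ← Finset.sum_add_distrib]
        refine Finset.sum_congr rfl fun i _ => ?_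
        rw [smul_comm, ← map_zsmul (toC D v), hx i, map_add, map_zsmul, map_zsmul, hjT, smul_add,
          mul_smul, mul_smul]
      rw [← h4, hR, smul_comm]
    have h5 : e0 n • T + e1 n • j T = (p ^ n : ℕ) • (N0 • R + u0 • T + u1 • j T) := by
      have h6 : e0 n = (p : ℤ) ^ n * u0 + ∑ i, m i * x i := by linarith
      have h7 : e1 n = (p : ℤ) ^ n * u1 + ∑ i, m i * y i := by linarith
      rw [h6, h7, add_smul, add_smul, smul_add, smul_add, ← h3, mul_smul, mul_smul,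
        ← natCast_zsmul (u0 • T), ← natCast_zsmul (u1 • j T)]
      push_cast
      abel
    have h6 : c0 hω (μ n) = e0 n ∧ c1 hω (μ n) = e1 n := c_eq hω (hμ n)
    have h7 : Φ (μ n) (N.factorial • T) =
        (p ^ n) • (N.factorial • (N0 • R + u0 • T + u1 • j T)) := by
      rw [show Φ (μ n) (N.factorial • T) = c0 hω (μ n) • (N.factorial • T) +
        c1 hω (μ n) • j (N.factorial • T) from rfl, h6.1, h6.2, map_nsmul, smul_comm (e0 n),
        smul_comm (e1 n), ← smul_add, h5, smul_comm]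
    rw [h7]
    exact p_pow F p hpF n _ (hM _)
  have hz : ((p * p ^ k : ℕ)) • (N.factorial • T) = 0 := by
    apply hFz
    intro n
    have h3 : Φ ((p : 𝓞 K) * (p : 𝓞 K) ^ k) (N.factorial • T) ∈ F (max n k + 1) := by
      obtain ⟨y, hy⟩ := v.exists_intValuation_mul_sub_lt (hle (max n k) (le_max_right _ _))
        (Multiplicative.ofAdd (-((max n k + 1 : ℕ) : ℤ)))
      exact step Φ v.asIdeal F hI (hM T) hpv ((v.intValuation_le_pow_iff_mem _ _).1 hy.le)
        (hμF _)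
    have h4 : Φ ((p : 𝓞 K) * (p : 𝓞 K) ^ k) (N.factorial • T) =
        ((p * p ^ k : ℕ)) • (N.factorial • T) := by
      rw [show (p : 𝓞 K) * (p : 𝓞 K) ^ k = ((p * p ^ k : ℕ) : 𝓞 K) by push_cast; ring, map_natCast]
      rfl
    rw [← h4]
    exact anti F hFa ((le_max_left n k).trans (Nat.le_succ _)) h3
  have hz2 : toC D v ((p * p ^ k * N.factorial) • Q) = 0 := by
    rw [map_nsmul, mul_smul]
    exact hz
  have hz3 : (p * p ^ k * N.factorial) • Q = 0 := by
    apply toC_inj D v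
    rw [hz2, map_zero]
  exact hQ _ (Nat.mul_pos (Nat.mul_pos hp.out.pos (pow_pos hp.out.pos k)) N.factorial_pos) hz3

end main

end PA

open PA in
theorem s_PADA : S_PADA := by
  intro h1 h2 K _ _ _ D hD hrk p _ r P hind a hyp
  have hζ := IsCyclotomicExtension.zeta_spec 3 ℚ K
  set ω := IsCyclotomicExtension.zeta 3 ℚ K with hω0
  have hω : ω ^ 2 + ω + 1 = 0 := by
    have h := (Polynomial.isRoot_cyclotomic_iff (n := 3) (R := K)).2 hζ
    rw [Polynomial.cyclotomic_three, Polynomial.IsRoot.def] at h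
    simpa using h
  have hΔ : ((ED D).baseChange K).Δ ≠ 0 := by
    have h3 : ((ED D).baseChange K).Δ = -27 * D ^ 4 := by
      simp [WeierstrassCurve.baseChange, WeierstrassCurve.Δ, WeierstrassCurve.b₂,
        WeierstrassCurve.b₄, WeierstrassCurve.b₆, WeierstrassCurve.b₈, ED]
      ring
    rw [h3]
    exact mul_ne_zero (by norm_num) (pow_ne_zero _ hD)
  have hfin : Module.Finite ℤ (Pt (ED D) K) := by
    rw [Module.Finite.iff_addGroup_fg]
    exact @Pool.Agent.Q286.EQ.mordell_weil K _ _ (Classical.decEq K) ((ED D).baseChange K) hΔ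
  have hLI : LinearIndependent ℤ P := by
    rw [Fintype.linearIndependent_iff]
    intro g hg i
    have h3 := hind g (by rw [hg]; exact IsOfFinAddOrder.zero)
    rw [h3]
    rfl
  have hr : r ≤ 2 := by
    have h3 := hLI.fintype_card_le_finrank
    rw [Fintype.card_fin] at h3
    exact h3.trans hrk
  have hQ : ∀ i : Fin r, ∀ c : ℕ, 0 < c → c • P i ≠ 0 := by
    intro i c hc h0
    have h3 := hind (Pi.single i 1) (by
      rw [Finset.sum_eq_single i (fun b _ hb => by rw [Pi.single_eq_of_ne hb, zero_smul])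
        (fun h => absurd (Finset.mem_univ i) h), Pi.single_eq_same, one_smul]
      exact isOfFinAddOrder_iff_nsmul_eq_zero.2 ⟨c, hc, h0⟩)
    have h4 := congrFun h3 i
    rw [Pi.single_eq_same] at h4
    exact one_ne_zero h4
  interval_cases r
  · exact Subsingleton.elim _ _
  · have h3 := core h1 h2 hω hD p P a (P 0) (hQ 0) 1 (fun _ => 1) (fun _ => 0) (fun i => by
      rw [Subsingleton.elim i 0, zero_smul, add_zero]) hyp
    funext i
    rw [Subsingleton.elim i 0]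
    simpa using h3.1
  · set j := imP hD hω K with hj
    have hn3 : ¬ LinearIndependent ℤ ![P 1, P 0, j (P 0)] := by
      intro h
      have h3 := h.fintype_card_le_finrank
      rw [Fintype.card_fin] at h3
      omega
    rw [Fintype.not_linearIndependent_iff] at hn3
    obtain ⟨g, hg, hg0⟩ := hn3
    rw [Fin.sum_univ_three] at hg
    change g 0 • P 1 + g 1 • P 0 + g 2 • j (P 0) = 0 at hg
    have hpr : ∀ s t : ℤ, s • P 0 + t • j (P 0) = 0 → s = 0 ∧ t = 0 := by
      intro s t hst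
      have h3 : (s ^ 2 - s * t + t ^ 2) • P 0 = 0 := by
        have h4 : j (s • P 0 + t • j (P 0)) = 0 := by rw [hst, map_zero]
        rw [map_add, map_zsmul, map_zsmul, imP_imP hD hω K] at h4
        have h5 : (s ^ 2 - s * t + t ^ 2) • P 0 = (s - t) • (s • P 0 + t • j (P 0)) -
            t • (s • j (P 0) + t • (-P 0 - j (P 0))) := by module
        rw [h5, hst, h4, smul_zero, smul_zero, sub_zero]
      have h4 : s ^ 2 - s * t + t ^ 2 = 0 := by
        by_contra hne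
        have h6 : 0 ≤ s ^ 2 - s * t + t ^ 2 := by
          nlinarith [sq_nonneg (2 * s - t), sq_nonneg t]
        have h5 : 0 < s ^ 2 - s * t + t ^ 2 := lt_of_le_of_ne h6 (Ne.symm hne)
        apply hQ 0 (s ^ 2 - s * t + t ^ 2).toNat (by omega)
        rw [← natCast_zsmul, Int.toNat_of_nonneg h5.le]
        exact h3
      have ht : t = 0 := by
        have : t ^ 2 ≤ 0 := by nlinarith [sq_nonneg (2 * s - t)]
        exact pow_eq_zero_iff (two_ne_zero) |>.1 (le_antisymm this (sq_nonneg t))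
      subst ht
      have : s ^ 2 = 0 := by linarith
      exact ⟨pow_eq_zero_iff (two_ne_zero) |>.1 this, rfl⟩
    have hg00 : g 0 ≠ 0 := by
      intro h0
      rw [h0, zero_smul, zero_add] at hg
      obtain ⟨h3, h4⟩ := hpr _ _ hg
      obtain ⟨i, hi⟩ := hg0
      fin_cases i
      · exact hi h0
      · exact hi h3
      · exact hi h4
    have hg20 : g 2 ≠ 0 := by
      intro h0
      rw [h0, zero_smul, add_zero] at hg
      have h3 := Fintype.linearIndependent_iff.1 hLI ![g 1, g 0] (by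
        rw [Fin.sum_univ_two]
        change g 1 • P 0 + g 0 • P 1 = 0
        rw [add_comm]
        exact hg) 1
      exact hg00 h3
    have h3 := core h1 h2 hω hD p P a (P 0) (hQ 0) (g 0) ![g 0, -g 1] ![0, -g 2] (fun i => by
      fin_cases i
      · change g 0 • P 0 = g 0 • P 0 + (0 : ℤ) • j (P 0)
        rw [zero_smul, add_zero]
      · change g 0 • P 1 = (-g 1) • P 0 + (-g 2) • j (P 0)
        have h4 : g 0 • P 1 = (g 0 • P 1 + g 1 • P 0 + g 2 • j (P 0)) +
          ((-g 1) • P 0 + (-g 2) • j (P 0)) := by module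
        rw [h4, hg, zero_add]) hyp
    obtain ⟨h4, h5⟩ := h3
    rw [Fin.sum_univ_two] at h4 h5
    change a 0 * ((g 0 : ℤ) : ℤ_[p]) + a 1 * ((-g 1 : ℤ) : ℤ_[p]) = 0 at h4
    change a 0 * ((0 : ℤ) : ℤ_[p]) + a 1 * ((-g 2 : ℤ) : ℤ_[p]) = 0 at h5
    have ha1 : a 1 = 0 := by
      rw [Int.cast_zero, mul_zero, zero_add] at h5
      refine (mul_eq_zero.1 h5).resolve_right ?_
      exact Int.cast_ne_zero.2 (neg_ne_zero.2 hg20)
    have ha0 : a 0 = 0 := by
      rw [ha1, zero_mul, add_zero] at h4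
      exact (mul_eq_zero.1 h4).resolve_right (Int.cast_ne_zero.2 hg00)
    funext i
    fin_cases i
    · exact ha0
    · exact ha1

end Pool.Agent.Helper68.C10
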