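import Pool.Agent.Helper68.C10.LRf
import Pool.Agent.Helper68.C10.PADA

/-!
# The `p`-adic closure of the Mordell-Weil groups of the cubic twists: the proportion
-/

set_option autoImplicit false
set_option linter.unusedVariables false

open scoped Classical

namespace Pool.Agent.Helper68.C10.LR

open NumberField IsDedekindDomain WeierstrassCurve Filter Finset
open Pool.Agent.TH841.SH.D (Pt)
open Pool.Agent.Y692.QS (Ei nr)
open Pool.Agent.Y715.T.Gi (CF)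
open Pool.Agent.Y703.XL (cr)
open Pool.Agent.Helper68.C3 (SS)
open Pool.Agent.Helper68.C8.CF (mem_SS)
open Pool.Agent.Helper68.C8.AllCf (NN count SS_zero count_K)
open Pool.Agent.XL6 (SelK)

/-! ### Finiteness and growth -/

theorem nr_fin (X : ℕ) : {z : Ei | nr z ≤ X}.Finite := by
  have h1 : {z : Ei | nr z ≤ X} ⊆
      (fun p : ℤ × ℤ => (⟨p.1, p.2⟩ : Ei)) ''
        ((Set.Icc (-(4 * X : ℤ)) (4 * X)) ×ˢ (Set.Icc (-(4 * X : ℤ)) (4 * X))) := by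
    rintro ⟨x, y⟩ h
    have h2 : x ^ 2 - x * y + y ^ 2 ≤ (X : ℤ) := by
      have h3 : nr ⟨x, y⟩ ≤ (X : ℤ) := h
      have h4 : nr ⟨x, y⟩ = x ^ 2 - x * y + y ^ 2 := by
        unfold nr
        ring
      rw [← h4]
      exact h3
    have hx : x ^ 2 ≤ 4 * X := by nlinarith [sq_nonneg (x - 2 * y), sq_nonneg x]
    have hy : y ^ 2 ≤ 4 * X := by nlinarith [sq_nonneg (2 * x - y), sq_nonneg y]
    have hX : (0 : ℤ) ≤ X := Int.natCast_nonneg _
    refine ⟨(x, y), ⟨⟨?_, ?_⟩, ?_, ?_⟩, rfl⟩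
    · show -(4 * X : ℤ) ≤ x
      nlinarith [sq_nonneg (x + 1), sq_nonneg x]
    · show x ≤ (4 * X : ℤ)
      nlinarith [sq_nonneg (x - 1), sq_nonneg x]
    · show -(4 * X : ℤ) ≤ y
      nlinarith [sq_nonneg (y + 1), sq_nonneg y]
    · show y ≤ (4 * X : ℤ)
      nlinarith [sq_nonneg (y - 1), sq_nonneg y]
  exact (((Set.finite_Icc _ _).prod (Set.finite_Icc _ _)).image _).subset h1

theorem low_t : ∃ (c : ℝ) (X₀ : ℕ), 0 < c ∧ ∀ X : ℕ, X₀ ≤ X →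
    c * X ≤ ({z : Ei | nr z ≤ X ∧ CF z}.ncard : ℝ) := by
  obtain ⟨c, X₀, hc, hlow⟩ := Pool.Agent.Helper68.C3.Asy3.t_LOW
  refine ⟨c, X₀, hc, fun X hX => (hlow X hX).trans ?_⟩
  have ht : {z : Ei | nr z ≤ X ∧ CF z}.ncard = ∑ s : Bool, ∑ a ∈ range 3, ∑ κ : ZMod 3,
      ∑ T ∈ SS X, AA T (X / (3 ^ a * NN T ^ 2)) := by
    have h2 := count X (fun _ => True)
    simp only [and_true] at h2
    exact h2
  have h1 : (SS X).card ≤ {z : Ei | nr z ≤ X ∧ CF z}.ncard := by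
    rcases Nat.eq_zero_or_pos X with h | h
    · rw [h, SS_zero]
      exact Nat.zero_le _
    have hmem : (∅ : Finset Ei) ∈ SS X := by
      rw [mem_SS]
      refine ⟨fun π hπ => absurd hπ (Finset.notMem_empty _), ?_⟩
      rw [Finset.prod_empty]
      exact h
    have e : (SS X).card = AA ∅ (X / (3 ^ 0 * NN ∅ ^ 2)) := by
      unfold AA NN
      rw [Finset.prod_empty, one_pow, pow_zero, one_mul, Nat.div_one]
      congr 1
      refine (Finset.filter_true_of_mem fun S _ => ?_).symm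
      exact Finset.disjoint_empty_right _
    rw [ht, e]
    refine le_trans ?_ (Finset.single_le_sum (f := fun s : Bool => ∑ a ∈ range 3,
      ∑ κ : ZMod 3, ∑ T ∈ SS X, AA T (X / (3 ^ a * NN T ^ 2)))
      (fun _ _ => Nat.zero_le _) (Finset.mem_univ true))
    refine le_trans ?_ (Finset.single_le_sum (f := fun a : ℕ =>
      ∑ κ : ZMod 3, ∑ T ∈ SS X, AA T (X / (3 ^ a * NN T ^ 2)))
      (fun _ _ => Nat.zero_le _) (Finset.mem_range.2 (show 0 < 3 by norm_num)))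
    refine le_trans ?_ (Finset.single_le_sum (f := fun κ : ZMod 3 =>
      ∑ T ∈ SS X, AA T (X / (3 ^ 0 * NN T ^ 2)))
      (fun _ _ => Nat.zero_le _) (Finset.mem_univ 0))
    exact Finset.single_le_sum (f := fun T => AA T (X / (3 ^ 0 * NN T ^ 2)))
      (fun _ _ => Nat.zero_le _) hmem
  exact_mod_cast h1


variable (K : Type) [Field K] [NumberField K] [IsCyclotomicExtension {3} ℚ K]

/-- a property which holds if the order of the Selmer group is at most `9` -/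
theorem share_K (Q : 𝓞 K → Prop)
    (hQ : ∀ D : 𝓞 K, (∀ x : 𝓞 K, x ^ 3 ∣ D → IsUnit x) → D ≠ 1 → D ≠ -1 →
      (SelK (D : K)).ncard = 3 ^ (0 + 1) ∨ (SelK (D : K)).ncard = 3 ^ (1 + 1) → Q D)
    {c : ℝ} (hc : c < cr 0 + cr 1) :
    ∃ X₀ : ℕ, ∀ X : ℕ, X₀ ≤ X →
      c * ({D : 𝓞 K | Algebra.norm ℤ D ≤ X ∧ ∀ x : 𝓞 K, x ^ 3 ∣ D → IsUnit x}.ncard : ℝ) ≤
        ({D : 𝓞 K | Algebra.norm ℤ D ≤ X ∧ (∀ x : 𝓞 K, x ^ 3 ∣ D → IsUnit x) ∧ Q D}.ncard : ℝ) := by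
  obtain ⟨⟨j, hj⟩, hdisc⟩ := Pool.Agent.Y455.CTK.jex K
  let t : ℕ → ℕ := fun X =>
    {D : 𝓞 K | Algebra.norm ℤ D ≤ X ∧ ∀ x : 𝓞 K, x ^ 3 ∣ D → IsUnit x}.ncard
  let g : ℕ → ℕ := fun X =>
    {D : 𝓞 K | Algebra.norm ℤ D ≤ X ∧ (∀ x : 𝓞 K, x ^ 3 ∣ D → IsUnit x) ∧ Q D}.ncard
  let n : ℕ → ℕ → ℕ := fun r X =>
    {D : 𝓞 K | Algebra.norm ℤ D ≤ X ∧ (∀ x : 𝓞 K, x ^ 3 ∣ D → IsUnit x) ∧
      (SelK (D : K)).ncard = 3 ^ (r + 1)}.ncard
  have hfinE : ∀ X : ℕ, {z : Ei | nr z ≤ X}.Finite := nr_fin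
  have hfin : ∀ (X : ℕ) (P : 𝓞 K → Prop),
      {D : 𝓞 K | Algebra.norm ℤ D ≤ X ∧ (∀ x : 𝓞 K, x ^ 3 ∣ D → IsUnit x) ∧ P D}.Finite := by
    intro X P
    refine ((hfinE X).image j).subset ?_
    rintro D ⟨h1, -⟩
    obtain ⟨z, rfl⟩ := j.surjective D
    refine ⟨z, ?_, rfl⟩
    show Pool.Agent.Y692.QS.nr z ≤ X
    rw [← hj]
    exact h1
  have hle : ∀ X, n 0 X + n 1 X ≤ g X + 2 := by
    intro X
    have hdis : Disjoint {D : 𝓞 K | Algebra.norm ℤ D ≤ X ∧ (∀ x : 𝓞 K, x ^ 3 ∣ D → IsUnit x) ∧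
        (SelK (D : K)).ncard = 3 ^ (0 + 1)} {D : 𝓞 K | Algebra.norm ℤ D ≤ X ∧
        (∀ x : 𝓞 K, x ^ 3 ∣ D → IsUnit x) ∧ (SelK (D : K)).ncard = 3 ^ (1 + 1)} := by
      rw [Set.disjoint_left]
      rintro D ⟨-, -, h1⟩ ⟨-, -, h2⟩
      rw [h1] at h2
      norm_num at h2
    have h1 : n 0 X + n 1 X = ({D : 𝓞 K | Algebra.norm ℤ D ≤ X ∧
        (∀ x : 𝓞 K, x ^ 3 ∣ D → IsUnit x) ∧ (SelK (D : K)).ncard = 3 ^ (0 + 1)} ∪
        {D : 𝓞 K | Algebra.norm ℤ D ≤ X ∧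
        (∀ x : 𝓞 K, x ^ 3 ∣ D → IsUnit x) ∧ (SelK (D : K)).ncard = 3 ^ (1 + 1)}).ncard :=
      (Set.ncard_union_eq hdis (hfin X _) (hfin X _)).symm
    rw [h1]
    have h2 : ({D : 𝓞 K | Algebra.norm ℤ D ≤ X ∧
        (∀ x : 𝓞 K, x ^ 3 ∣ D → IsUnit x) ∧ (SelK (D : K)).ncard = 3 ^ (0 + 1)} ∪
        {D : 𝓞 K | Algebra.norm ℤ D ≤ X ∧
        (∀ x : 𝓞 K, x ^ 3 ∣ D → IsUnit x) ∧ (SelK (D : K)).ncard = 3 ^ (1 + 1)}) ⊆
        {D : 𝓞 K | Algebra.norm ℤ D ≤ X ∧ (∀ x : 𝓞 K, x ^ 3 ∣ D → IsUnit x) ∧ Q D} ∪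
          {1, -1} := by
      rintro D hD
      by_cases h1 : D = 1 ∨ D = -1
      · right
        exact h1
      · push Not at h1
        left
        rcases hD with ⟨a, b, c⟩ | ⟨a, b, c⟩
        · exact ⟨a, b, hQ D b h1.1 h1.2 (Or.inl c)⟩
        · exact ⟨a, b, hQ D b h1.1 h1.2 (Or.inr c)⟩
    refine (Set.ncard_le_ncard h2 ((hfin X _).union (Set.toFinite _))).trans ?_
    refine (Set.ncard_union_le _ _).trans ?_
    refine Nat.add_le_add_left ?_ _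
    exact (Set.ncard_insert_le _ _).trans (by rw [Set.ncard_singleton])
  have hl : Tendsto (fun X : ℕ => (n 0 X : ℝ) / (t X : ℝ) + (n 1 X : ℝ) / (t X : ℝ)) atTop
      (nhds (cr 0 + cr 1)) := (law_K K 0).add (law_K K 1)
  obtain ⟨ε, hε, hcε⟩ : ∃ ε : ℝ, 0 < ε ∧ c + ε < cr 0 + cr 1 := ⟨(cr 0 + cr 1 - c) / 2, by
    linarith, by linarith⟩
  have h3 := hl.eventually (lt_mem_nhds hcε)
  -- the number of all of them tends to infinity
  have htop : Tendsto (fun X : ℕ => (t X : ℝ)) atTop atTop := by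
    obtain ⟨c', X₁, hc', hlow⟩ := low_t
    have h6 : Tendsto (fun X : ℕ => c' * (X : ℝ)) atTop atTop :=
      tendsto_natCast_atTop_atTop.const_mul_atTop hc'
    refine tendsto_atTop_mono' _ ?_ h6
    filter_upwards [eventually_ge_atTop X₁] with X hX
    have h7 := hlow X hX
    have h8 := count_K j hj X (fun _ => True)
    simp only [and_true] at h8
    show c' * (X : ℝ) ≤ (t X : ℝ)
    rw [show t X = {z : Ei | nr z ≤ X ∧ CF z}.ncard from h8]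
    exact h7
  have h4 := htop.eventually (eventually_ge_atTop (2 / ε))
  have h5 := htop.eventually (eventually_gt_atTop 0)
  obtain ⟨X₀, hX₀⟩ := eventually_atTop.1 (h3.and (h4.and h5))
  refine ⟨X₀, fun X hX => ?_⟩
  obtain ⟨a1, a2, a3⟩ := hX₀ X hX
  rw [← add_div, lt_div_iff₀ a3] at a1
  have a4 : (n 0 X : ℝ) + n 1 X ≤ g X + 2 := by exact_mod_cast hle X
  have a5 : 2 ≤ ε * t X := by
    rw [div_le_iff₀ hε] at a2
    linarith
  show c * (t X : ℝ) ≤ (g X : ℝ)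
  nlinarith

/-- the statement of MP_52423f_nt -/
theorem share_pad (hP : S_PAD) : ∃ X₀ : ℕ, ∀ X : ℕ, X₀ ≤ X →
      0.958 * ({D : 𝓞 K | Algebra.norm ℤ D ≤ X ∧ ∀ x : 𝓞 K, x ^ 3 ∣ D → IsUnit x}.ncard : ℝ) ≤
        ({D : 𝓞 K | Algebra.norm ℤ D ≤ X ∧ (∀ x : 𝓞 K, x ^ 3 ∣ D → IsUnit x) ∧
          Module.finrank ℤ (Pool.Agent.Y696.CTK.ED (D : K)).toAffine.Point ≤ 2 ∧
          ∀ (p : ℕ) [Fact p.Prime], Indep p (D : K)}.ncard : ℝ) := by
  refine share_K K (fun D : 𝓞 K =>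
    Module.finrank ℤ (Pool.Agent.Y696.CTK.ED (D : K)).toAffine.Point ≤ 2 ∧
      ∀ (p : ℕ) [Fact p.Prime], Indep p (D : K)) ?_ ?_
  · intro D hcf h1 h2 hS
    have hD0 : D ≠ 0 := by
      rintro rfl
      have h3 := hcf 0 (dvd_zero _)
      exact not_isUnit_zero h3
    obtain ⟨⟨r, hr, hrk⟩, -⟩ := one_K K D hcf h1 h2
    have h4 : Module.finrank ℤ (Pool.Agent.Y696.CTK.ED (D : K)).toAffine.Point ≤ 2 := by
      have h5 : r ≤ 1 := by
        rcases hS with h | h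
        · rw [hr] at h
          have h6 := Nat.pow_right_injective (le_refl 2 |>.trans (by norm_num)) h
          omega
        · rw [hr] at h
          have h6 := Nat.pow_right_injective (le_refl 2 |>.trans (by norm_num)) h
          omega
      omega
    refine ⟨h4, fun p _ => hP K (D : K) ?_ ?_ p⟩
    · exact fun h => hD0 (by exact_mod_cast h)
    · refine le_trans (le_of_eq ?_) h4
      have e : (Pool.Agent.Q7.CE.ED (D : K)).baseChange K = Pool.Agent.Y696.CTK.ED (D : K) := by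
        unfold Pool.Agent.Q7.CE.ED Pool.Agent.Y696.CTK.ED
        rw [WeierstrassCurve.baseChange]
        simp
      show Module.finrank ℤ ((Pool.Agent.Q7.CE.ED (D : K)).baseChange K).toAffine.Point = _
      rw [e]
  · have h0 : cr 0 = Pool.Agent.Y703.XK.c9 := by
      unfold cr
      rw [Finset.prod_range_zero, div_one]
    have h1 : cr 1 = cr 0 / 2 := by
      unfold cr
      rw [Finset.prod_range_one, Finset.prod_range_zero, div_one]
      norm_num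
    have h2 := Pool.Agent.Y703.XL.t_C9.2.2.2.1
    rw [← h0] at h2
    rw [h1]
    linarith

end Pool.Agent.Helper68.C10.LR
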