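import Pool.Agent.Helper68.C10.St10
import Pool.Agent.Helper68.C5.Sel5
import Pool.Graph.R_seed8.Y363.CT.SELC

/-!
# The order of a Selmer group with a system of generators
-/

set_option autoImplicit false
set_option linter.unusedSectionVars false
set_option linter.unusedVariables false

open scoped Classical

namespace Pool.Agent.Helper68.C10.Gen10

open Pool.Agent.Y692.QS (Ei w nr)
open Pool.Agent.Y715.T.Gi Pool.Agent.Y715.T.Nr Pool.Agent.Y715.T.Df
open Pool.Agent.Y715.T.Sel (kc_mul kc_one kc_congr kc_pow kc_uniq kc_exp ex_root root_ne)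
open Pool.Agent.Y155.CT (a_mul a_cont)
open Pool.Agent.Y703.CT
open Pool.Agent.XL6 (SelH)

variable {i₀ : QB} {hi : i₀ ^ 2 + i₀ + 1 = 0}

/-- the product of two families of exponents -/
lemma kc_add {O : Type} [Fintype O] {P : O → Ei} (hP : ∀ o, P o ≠ 0) {y y' : O → ZMod 3}
    {h h' : GK i₀ → ZMod 3} (h1 : Kc hi (∏ o, P o ^ (y o).val) h)
    (h2 : Kc hi (∏ o, P o ^ (y' o).val) h') :
    Kc hi (∏ o, P o ^ (y o + y' o).val) (fun σ => h σ + h' σ) := by
  have hne : ∀ f : O → ℕ, ∏ o, P o ^ f o ≠ 0 := fun f =>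
    Finset.prod_ne_zero_iff.2 fun o _ => pow_ne_zero _ (hP o)
  have h3 := kc_mul (hne _) (hne _) h1 h2
  rw [← Finset.prod_mul_distrib] at h3
  have e1 : ∏ o, P o ^ (y o).val * P o ^ (y' o).val = ∏ o, P o ^ ((y o).val + (y' o).val) :=
    Finset.prod_congr rfl fun o _ => (pow_add _ _ _).symm
  rw [e1] at h3
  refine kc_exp hP (fun o => ?_) h3
  push_cast
  rw [ZMod.natCast_zmod_val, ZMod.natCast_zmod_val, ZMod.natCast_zmod_val]

/-- multiples -/
lemma kc_smul {O : Type} [Fintype O] {P : O → Ei} (hP : ∀ o, P o ≠ 0) {y : O → ZMod 3}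
    {h : GK i₀ → ZMod 3} (h1 : Kc hi (∏ o, P o ^ (y o).val) h) (c : ZMod 3) :
    Kc hi (∏ o, P o ^ (c * y o).val) (fun σ => c * h σ) := by
  have hne : ∀ f : O → ℕ, ∏ o, P o ^ f o ≠ 0 := fun f =>
    Finset.prod_ne_zero_iff.2 fun o _ => pow_ne_zero _ (hP o)
  have h3 := kc_pow (hne _) h1 c.val
  rw [← Finset.prod_pow] at h3
  have e1 : ∏ o, (P o ^ (y o).val) ^ c.val = ∏ o, P o ^ ((y o).val * c.val) :=
    Finset.prod_congr rfl fun o _ => (pow_mul _ _ _).symm
  rw [e1] at h3
  have h4 : Kc hi (∏ o, P o ^ (c * y o).val) (fun σ => (c.val : ZMod 3) * h σ) := by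
    refine kc_exp hP (fun o => ?_) h3
    push_cast
    rw [ZMod.natCast_zmod_val, ZMod.natCast_zmod_val, ZMod.natCast_zmod_val]
    ring
  refine kc_congr h4 fun σ => ?_
  rw [ZMod.natCast_zmod_val]

/-- **the order of a Selmer group with a system of generators** -/
theorem sel_card_gen {O : Type} [Fintype O] {P : O → Ei} (hP : ∀ o, P o ≠ 0)
    (C : Set (O → ZMod 3)) {a : GK i₀ → ZMod 3}
    (indep : ∀ (y : O → ZMod 3) (h : GK i₀ → ZMod 3), Kc hi (∏ o, P o ^ (y o).val) h →
      (∀ σ, h σ = 0) → ∀ o, y o = 0)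
    (gen : ∀ h ∈ SelH hi a, ∃ y ∈ C, Kc hi (∏ o, P o ^ (y o).val) h)
    (suff : ∀ y ∈ C, ∀ h : GK i₀ → ZMod 3, Kc hi (∏ o, P o ^ (y o).val) h →
      ∀ (p : ℕ) [Fact p.Prime] (ι : QB →ₐ[ℚ] PadicAlgCl p), ∃ R, St1 hi ι a h R) :
    (SelH hi a).ncard = C.ncard := by
  have hne : ∀ f : O → ℕ, ∏ o, P o ^ f o ≠ 0 := fun f =>
    Finset.prod_ne_zero_iff.2 fun o _ => pow_ne_zero _ (hP o)
  have h2 : ∀ y : O → ZMod 3, y ∈ C → ∃ h ∈ SelH hi a, Kc hi (∏ o, P o ^ (y o).val) h := by
    intro y hy
    have hB0 := hne fun o => (y o).val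
    obtain ⟨β, a', hTw'⟩ := Pool.Agent.Y363.CT.SELC.exists_tw (hi := hi) (∏ o, P o ^ (y o).val)
    have hm : ∀ σ τ : GK i₀, -a' (σ * τ) = -a' σ + -a' τ := by
      intro σ τ
      rw [a_mul hB0 hTw' σ τ]
      ring
    have hc : IsLocallyConstant (fun σ : GK i₀ => -a' σ) :=
      (a_cont hB0 hTw').comp (fun c : ZMod 3 => -c)
    have hKc : Kc hi (∏ o, P o ^ (y o).val) (fun σ => -a' σ) :=
      kc_of hi (root_ne (hi := hi) hB0 hTw'.cube) hTw'.cube hTw'.act
    exact ⟨_, ⟨hc, hm, fun p _ ι => suff y hy _ hKc p ι⟩, hKc⟩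
  choose! f hf1 hf2 using h2
  symm
  refine Set.ncard_congr (fun y _ => f y) (fun y hy => hf1 y hy) (fun y y' hy hy' h => ?_)
    fun h hs => ?_
  · have h3 := hf2 y hy
    have h4 := hf2 y' hy'
    have h : f y = f y' := h
    rw [← h] at h4
    have h5 := kc_add hP h3 (kc_smul hP h4 2)
    have h6 := indep _ _ h5 fun σ => by
      have e3 : (3 : ZMod 3) = 0 := by decide
      linear_combination (f y σ) * e3
    funext o
    have h7 : y o + 2 * y' o = 0 := h6 o
    have e3 : (3 : ZMod 3) = 0 := by decide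
    linear_combination h7 - y' o * e3
  · obtain ⟨y, hy, hk⟩ := gen h hs
    exact ⟨y, hy, funext fun σ => kc_uniq (hne _) (hf2 y hy) hk σ⟩

/-- the Selmer condition is closed under the addition of multiples of `a` -/
lemma st1_shift {p : ℕ} [Fact p.Prime] {ι : QB →ₐ[ℚ] PadicAlgCl p} {a h : GK i₀ → ZMod 3}
    (hS : ∃ R, St1 hi ι a h R) (c : ZMod 3) : ∃ R', St1 hi ι a (fun σ => h σ + c * a σ) R' := by
  obtain ⟨R, hR⟩ := hS
  obtain ⟨R', hR'⟩ := Pool.Agent.Helper68.C5.Sel5.st1_add hR (-c).val
  refine ⟨R', ?_⟩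
  have e : (fun σ => h σ + ((-c).val : ZMod 3) * -a σ) = fun σ => h σ + c * a σ := by
    funext σ
    rw [ZMod.natCast_zmod_val]
    ring
  rw [← e]
  exact hR'

/-- the number of the families `x` on `Option J` for which the differences are in `V` -/
lemma card_opt {J : Type} [Fintype J] (V : Set (J → ZMod 3)) (E : Option J → ZMod 3)
    (hE : ∀ o, E o ≠ 0) :
    {y : Option J → ZMod 3 | (fun j => E (some j) * y (some j) - E none * y none) ∈ V}.ncard =
      3 * V.ncard := by
  have hE2 : ∀ o, E o * E o = 1 := fun o => by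
    have := hE o
    revert this
    generalize E o = c
    revert c
    decide
  have h1 : (Set.univ ×ˢ V : Set (ZMod 3 × (J → ZMod 3))).ncard = 3 * V.ncard := by
    rw [Set.ncard_prod, Set.ncard_univ, Nat.card_zmod]
  rw [← h1]
  refine Set.ncard_congr (fun y _ => (E none * y none,
    fun j => E (some j) * y (some j) - E none * y none)) (fun y hy => ⟨Set.mem_univ _, hy⟩)
    (fun y y' _ _ h => ?_) fun q hq => ?_
  · have h2 := (Prod.mk.inj h).1
    have h3 := congrFun (Prod.mk.inj h).2
    funext o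
    rcases o with _ | j
    · linear_combination E none * h2 - (y none - y' none) * hE2 none
    · have h4 : E (some j) * y (some j) - E none * y none =
          E (some j) * y' (some j) - E none * y' none := h3 j
      linear_combination E (some j) * h4 + E (some j) * h2 - (y (some j) - y' (some j)) * hE2 (some j)
  · refine ⟨fun o => o.elim (E none * q.1) fun j => E (some j) * (q.2 j + q.1), ?_, ?_⟩
    · show (fun j => E (some j) * (E (some j) * (q.2 j + q.1)) - E none * (E none * q.1)) ∈ V
      have e : (fun j => E (some j) * (E (some j) * (q.2 j + q.1)) - E none * (E none * q.1)) =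
          q.2 := by
        funext j
        linear_combination (q.2 j + q.1) * hE2 (some j) - q.1 * hE2 none
      rw [e]
      exact hq.2
    · refine Prod.ext ?_ (funext fun j => ?_)
      · show E none * (E none * q.1) = q.1
        linear_combination q.1 * hE2 none
      · show E (some j) * (E (some j) * (q.2 j + q.1)) - E none * (E none * q.1) = q.2 j
        linear_combination (q.2 j + q.1) * hE2 (some j) - q.1 * hE2 none

/-- the number of the families `x` on `Option J` with `(e x, x none)` in `V` -/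
lemma card_opt' {J : Type} [Fintype J] (V : Set ((J → ZMod 3) × ZMod 3)) (e : J → ZMod 3)
    (he : ∀ j, e j ≠ 0) (c : ZMod 3) (hc : c ≠ 0) :
    {y : Option J → ZMod 3 | ((fun j => e j * y (some j)), c * y none) ∈ V}.ncard = V.ncard := by
  have hE2 : ∀ z : ZMod 3, z ≠ 0 → z * z = 1 := by decide
  refine Set.ncard_congr (fun y _ => ((fun j => e j * y (some j)), c * y none)) (fun y hy => hy)
    (fun y y' _ _ h => ?_) fun q hq => ?_
  · have h2 := (Prod.mk.inj h).2
    have h3 := congrFun (Prod.mk.inj h).1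
    funext o
    rcases o with _ | j
    · linear_combination c * h2 - (y none - y' none) * hE2 c hc
    · have h4 : e j * y (some j) = e j * y' (some j) := h3 j
      linear_combination e j * h4 - (y (some j) - y' (some j)) * hE2 _ (he j)
  · have e1 : ((fun j => e j * (e j * q.1 j)), c * (c * q.2)) = q := by
      refine Prod.ext (funext fun j => ?_) ?_
      · show e j * (e j * q.1 j) = q.1 j
        linear_combination q.1 j * hE2 _ (he j)
      · show c * (c * q.2) = q.2
        linear_combination q.2 * hE2 c hc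
    refine ⟨fun o => o.elim (c * q.2) fun j => e j * q.1 j, ?_, e1⟩
    show ((fun j => e j * (e j * q.1 j)), c * (c * q.2)) ∈ V
    rw [e1]
    exact hq

/-- the number of the families `x` on `Option (Option J)` with the differences in `V` -/
lemma card_opt2 {J : Type} [Fintype J] (V : Set ((J → ZMod 3) × ZMod 3)) (e : J → ZMod 3)
    (he : ∀ j, e j ≠ 0) :
    {y : Option (Option J) → ZMod 3 |
      ((fun j => e j * y (some (some j)) - y (some none)), -(y none)) ∈ V}.ncard =
      3 * V.ncard := by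
  have hE2 : ∀ z : ZMod 3, z ≠ 0 → z * z = 1 := by decide
  have h1 : (Set.univ ×ˢ V : Set (ZMod 3 × ((J → ZMod 3) × ZMod 3))).ncard = 3 * V.ncard := by
    rw [Set.ncard_prod, Set.ncard_univ, Nat.card_zmod]
  rw [← h1]
  refine Set.ncard_congr (fun y _ => (y (some none),
    ((fun j => e j * y (some (some j)) - y (some none)), -(y none))))
    (fun y hy => ⟨Set.mem_univ _, hy⟩) (fun y y' _ _ h => ?_) fun q hq => ?_
  · have h2 : y (some none) = y' (some none) := (Prod.mk.inj h).1
    have h3 := (Prod.mk.inj (Prod.mk.inj h).2).1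
    have h4 : -(y none) = -(y' none) := (Prod.mk.inj (Prod.mk.inj h).2).2
    funext o
    rcases o with _ | _ | j
    · exact neg_injective h4
    · exact h2
    · have h5 : e j * y (some (some j)) - y (some none) =
          e j * y' (some (some j)) - y' (some none) := congrFun h3 j
      linear_combination e j * h5 + e j * h2 -
        (y (some (some j)) - y' (some (some j))) * hE2 _ (he j)
  · have e1 : ((fun j => e j * (e j * (q.2.1 j + q.1)) - q.1), -(-q.2.2)) = q.2 := by
      refine Prod.ext (funext fun j => ?_) ?_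
      · show e j * (e j * (q.2.1 j + q.1)) - q.1 = q.2.1 j
        linear_combination (q.2.1 j + q.1) * hE2 _ (he j)
      · exact neg_neg _
    refine ⟨fun o => o.elim (-q.2.2) fun o => o.elim q.1 fun j => e j * (q.2.1 j + q.1), ?_,
      Prod.ext rfl e1⟩
    show ((fun j => e j * (e j * (q.2.1 j + q.1)) - q.1), -(-q.2.2)) ∈ V
    rw [e1]
    exact hq.2

end Pool.Agent.Helper68.C10.Gen10
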