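import Pool.Agent.Helper68.C7.Defs7
import Pool.Graph.R_seed8.Y696.XL.Fin

/-!
# The order of the Selmer group of `√-3` for all the cubic twists: statements

`SelH hi a` (library, `Pool.Agent.XL6.SelH`): the characters `h : Gal → Z/3` such that `σ ↦ h(σ) T`
is locally trivial at all places, for the curve twisted by `a` (`Tw hi D u a`).
-/

set_option autoImplicit false
set_option linter.unusedVariables false

open scoped Classical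

namespace Pool.Agent.Helper68.C10

open Pool.Agent.Y692.QS (Ei w)
open Pool.Agent.Y703.CT
open Pool.Agent.Y715.T.Rec (cs)
open Pool.Agent.Y715.T.Gi Pool.Agent.Y715.T.Nr Pool.Agent.Y715.T.Df Pool.Agent.Y715.T.Ell
open Pool.Agent.Helper68.C5.Chr5 (ts)
open Pool.Agent.Helper68.C2 (pD2)
open Pool.Agent.Helper68.C5 (pD5)
open Pool.Agent.Helper68.C6 (pD6)
open Pool.Agent.XL6 (SelH)

/-- the solutions, `D = w^κ ∏ π_j^(e_j)`, `κ ≠ 0` -/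
def V2 {J : Type} [Fintype J] (π : J → Ei) (e : J → ZMod 3) (κ : ZMod 3) : Set (J → ZMod 3) :=
  {v | ∀ j, ∑ i, e i * cs (π j) (π i) * (v i - v j) = -(κ * rq (π j)) * v j}

/-- the solutions, `D = 3 w^κ ∏ π_j^(e_j)` -/
def V5 {J : Type} [Fintype J] (π : J → Ei) (e : J → ZMod 3) (κ : ZMod 3) : Set (J → ZMod 3) :=
  {v | ∀ j, ∑ i, e i * cs (π j) (π i) * (v i - v j) = ts κ (π j) * v j}

/-- the solutions, `D = √-3 w^κ ∏ π_j^(e_j)` -/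
def V6 {J : Type} [Fintype J] (π : J → Ei) (e : J → ZMod 3) (κ : ZMod 3) :
    Set ((J → ZMod 3) × ZMod 3) :=
  {q | (∀ j, ∑ i, e i * cs (π j) (π i) * (q.1 i - q.1 j) =
      -ts (-κ) (π j) * q.1 j - rq (π j) * q.2) ∧ κ * q.2 = ∑ i, e i * rq (π i) * q.1 i}

/-- the solutions, `D = ∏ π_j^(e_j)` congruent to `1` modulo `3 √-3` -/
def V7 {J : Type} [Fintype J] (π : J → Ei) (e : J → ZMod 3) : Set ((J → ZMod 3) × ZMod 3) :=
  {q | (∀ j, ∑ i, e i * cs (π j) (π i) * (q.1 i - q.1 j) = q.2 * rq (π j)) ∧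
    ∑ i, e i * rq (π i) * q.1 i = q.2 * ∑ i, e i * ts 0 (π i)}

/-- **SN2** (from `C2.Sel2.sel2`, `C2.Selc2.selc2`) -/
def S_SN2 : Prop := ∀ (J : Type) [Fintype J] (π : J → Ei) (e : J → ZMod 3) (κ : ZMod 3), Dt π e →
  κ ≠ 0 → ∀ (i₀ : QB) (hi : i₀ ^ 2 + i₀ + 1 = 0) (u : QB) (a : GK i₀ → ZMod 3),
    Tw hi (pD2 π e κ) u a → (SelH hi a).ncard = 3 * (V2 π e κ).ncard

/-- **SN5** (from `C5.Sel5`, `C5.Selc5`) -/
def S_SN5 : Prop := ∀ (J : Type) [Fintype J] (π : J → Ei) (e : J → ZMod 3) (κ : ZMod 3), Dt π e →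
  ∀ (i₀ : QB) (hi : i₀ ^ 2 + i₀ + 1 = 0) (u : QB) (a : GK i₀ → ZMod 3),
    Tw hi (pD5 π e κ) u a → (SelH hi a).ncard = 3 * (V5 π e κ).ncard

/-- **SN6** (from `C6.Sel6`, `C6.Selc6`) -/
def S_SN6 : Prop := ∀ (J : Type) [Fintype J] (π : J → Ei) (e : J → ZMod 3) (κ : ZMod 3), Dt π e →
  ∀ (i₀ : QB) (hi : i₀ ^ 2 + i₀ + 1 = 0) (u : QB) (a : GK i₀ → ZMod 3),
    Tw hi (pD6 π e κ) u a → (SelH hi a).ncard = 3 * (V6 π e κ).ncard

/-- **SN7** (from `C7.Sel7`, `C7.Selc7`) -/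
def S_SN7 : Prop := ∀ (J : Type) [Fintype J] [Nonempty J] (π : J → Ei) (e : J → ZMod 3), Dt π e →
  ∑ j, e j * rq (π j) = 0 → ∀ (i₀ : QB) (hi : i₀ ^ 2 + i₀ + 1 = 0) (u : QB)
  (a : GK i₀ → ZMod 3), Tw hi (pD π e) u a → (SelH hi a).ncard = (V7 π e).ncard

end Pool.Agent.Helper68.C10
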