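import Pool.Agent.Helper68.C8.CFa
import Pool.Agent.Helper68.C10.St10

/-!
# The law for all ranks, part 1: numbers of solutions as numbers of solutions of Laplacian systems
-/

set_option autoImplicit false

open scoped Classical

namespace Pool.Agent.Helper68.C10.LR

open Finset
open Pool.Agent.Y692.QS (Ei)
open Pool.Agent.Y715.T.Rec (cs)
open Pool.Agent.Y703.CT (rq)
open Pool.Agent.Y703.XL (nA)
open Pool.Agent.Helper68.C5.Chr5 (ts)
open Pool.Agent.Helper68.C7.D7 (Lap ww Sys sys_iff chg card_sys)
open Pool.Agent.Helper68.C8.CF (lap_const lap_of_ne card_blk wC wC_symm wD wD_symm cW mul_cW)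
open Pool.Agent.XL6 (KerV)

/-- the number of solutions of a Laplacian system -/
noncomputable def nL {T : Type} [Fintype T] (w : T → T → ZMod 3) : ℕ :=
  Nat.card {x : T → ZMod 3 // Lap w x}

theorem nL_reindex {T T' : Type} [Fintype T] [Fintype T'] (σ : T' ≃ T) (w : T → T → ZMod 3) :
    nL w = nL (fun a b => w (σ a) (σ b)) := by
  unfold nL
  refine Nat.card_congr (Equiv.subtypeEquiv (Equiv.arrowCongr σ.symm (Equiv.refl _)) fun x => ?_)
  unfold Lap
  constructor
  · intro h a
    have h1 := h (σ a)
    rw [← σ.sum_comp] at h1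
    exact h1
  · intro h a
    have h1 := h (σ.symm a)
    rw [← σ.sum_comp]
    have h2 : ∑ b, w (σ (σ.symm a)) (σ b) * (x (σ b) - x (σ (σ.symm a))) = 0 := h1
    rw [σ.apply_symm_apply] at h2
    exact h2

theorem nL_blk {Y J : Type} [Fintype Y] [Fintype J] {w : Y ⊕ J → Y ⊕ J → ZMod 3}
    (hw : ∀ a b, w a b = w b a) :
    nL w = nA (fun u v => w (Sum.inl u) (Sum.inl v)) (fun u l => w (Sum.inl u) (Sum.inr l))
        (fun k l => w (Sum.inr k) (Sum.inr l)) := card_blk hw

section
variable {V : Type} [Fintype V] {c : V → V → ZMod 3}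

/-- the difference to a special vertex -/
def eO : (Option V → ZMod 3) ≃ ZMod 3 × (V → ZMod 3) where
  toFun x := (x none, fun j => x (some j) - x none)
  invFun q := fun a => a.elim q.1 fun j => q.2 j + q.1
  left_inv x := by
    funext a
    rcases a with _ | j
    · rfl
    · show x (some j) - x none + x none = x (some j)
      ring
  right_inv q := by
    refine Prod.ext rfl (funext fun j => ?_)
    show q.2 j + q.1 - q.1 = q.2 j
    ring

omit [Fintype V] in
theorem card3 {β : Type} [Finite β] (P : β → Prop) :
    Nat.card {q : ZMod 3 × β // P q.2} = 3 * Nat.card {v : β // P v} := by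
  have e : {q : ZMod 3 × β // P q.2} ≃ ZMod 3 × {v : β // P v} :=
    { toFun := fun q => (q.1.1, ⟨q.1.2, q.2⟩)
      invFun := fun q => ⟨(q.1, q.2.1), q.2.2⟩
      left_inv := fun q => rfl
      right_inv := fun q => rfl }
  rw [Nat.card_congr e, Nat.card_prod, Nat.card_zmod]

theorem per_card (hc : ∀ a b, c a b = c b a) (γ : V → ZMod 3) :
    nL (wC c γ) = 3 * {v : V → ZMod 3 | ∀ j, ∑ i, c j i * (v i - v j) = γ j * v j}.ncard := by
  have h1 : {v : V → ZMod 3 | ∀ j, ∑ i, c j i * (v i - v j) = γ j * v j}.ncard =
      Nat.card {v : V → ZMod 3 // ∀ j, ∑ i, c j i * (v i - v j) = γ j * v j} := rfl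
  rw [h1, ← card3]
  unfold nL
  refine Nat.card_congr (Equiv.subtypeEquiv eO fun x => ?_)
  constructor
  · intro hx j
    have h2 := hx (some j)
    rw [Fintype.sum_option] at h2
    have h3 : γ j * (x none - x (some j)) + ∑ i, c j i * (x (some i) - x (some j)) = 0 := h2
    show ∑ i, c j i * (x (some i) - x none - (x (some j) - x none)) = γ j * (x (some j) - x none)
    have h4 : ∑ i, c j i * (x (some i) - x none - (x (some j) - x none)) =
        ∑ i, c j i * (x (some i) - x (some j)) :=
      Finset.sum_congr rfl fun i _ => by ring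
    rw [h4]
    linear_combination h3
  · intro hx
    refine lap_of_ne (wC_symm hc γ) none fun a ha => ?_
    rcases a with _ | j
    · exact absurd rfl ha
    · rw [Fintype.sum_option]
      show γ j * (x none - x (some j)) + ∑ i, c j i * (x (some i) - x (some j)) = 0
      have h2 : ∑ i, c j i * (x (some i) - x none - (x (some j) - x none)) =
        γ j * (x (some j) - x none) := hx j
      have h4 : ∑ i, c j i * (x (some i) - x none - (x (some j) - x none)) =
          ∑ i, c j i * (x (some i) - x (some j)) :=
        Finset.sum_congr rfl fun i _ => by ring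
      rw [h4] at h2
      linear_combination h2

/-- the differences to a special vertex, two vertices -/
def eO2 : (Option (Option V) → ZMod 3) ≃ ZMod 3 × ((V → ZMod 3) × ZMod 3) where
  toFun x := (x none, (fun j => x (some (some j)) - x none, x (some none) - x none))
  invFun q := fun a => a.elim q.1 fun a => a.elim (q.2.2 + q.1) fun j => q.2.1 j + q.1
  left_inv x := by
    funext a
    rcases a with _ | _ | j
    · rfl
    · show x (some none) - x none + x none = x (some none)
      ring
    · show x (some (some j)) - x none + x none = x (some (some j))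
      ring
  right_inv q := by
    refine Prod.ext rfl (Prod.ext (funext fun j => ?_) ?_)
    · show q.2.1 j + q.1 - q.1 = q.2.1 j
      ring
    · show q.2.2 + q.1 - q.1 = q.2.2
      ring

theorem bord_card (hc : ∀ a b, c a b = c b a) (g β : V → ZMod 3) (κ : ZMod 3) :
    nL (wD c (fun j => g j - β j) β (κ - ∑ j, β j)) =
      3 * {q : (V → ZMod 3) × ZMod 3 |
        (∀ j, ∑ i, c j i * (q.1 i - q.1 j) = g j * q.1 j - β j * q.2) ∧
          κ * q.2 = ∑ i, β i * q.1 i}.ncard := by
  have h1 : {q : (V → ZMod 3) × ZMod 3 |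
        (∀ j, ∑ i, c j i * (q.1 i - q.1 j) = g j * q.1 j - β j * q.2) ∧
          κ * q.2 = ∑ i, β i * q.1 i}.ncard =
      Nat.card {q : (V → ZMod 3) × ZMod 3 //
        (∀ j, ∑ i, c j i * (q.1 i - q.1 j) = g j * q.1 j - β j * q.2) ∧
          κ * q.2 = ∑ i, β i * q.1 i} := rfl
  rw [h1, ← card3]
  unfold nL
  refine Nat.card_congr (Equiv.subtypeEquiv eO2 fun x => ?_)
  have h4 : ∀ j, ∑ i, c j i * (x (some (some i)) - x none - (x (some (some j)) - x none)) =
      ∑ i, c j i * (x (some (some i)) - x (some (some j))) := fun j =>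
    Finset.sum_congr rfl fun i _ => by ring
  have h5 : ∑ i, β i * (x (some (some i)) - x (some none)) =
      ∑ i, β i * (x (some (some i)) - x none) -
        (∑ j, β j) * (x (some none) - x none) := by
    rw [Finset.sum_mul, ← Finset.sum_sub_distrib]
    exact Finset.sum_congr rfl fun i _ => by ring
  constructor
  · intro hx
    constructor
    · intro j
      have h2 := hx (some (some j))
      rw [Fintype.sum_option, Fintype.sum_option] at h2
      have h3 : (g j - β j) * (x none - x (some (some j))) +
          (β j * (x (some none) - x (some (some j))) +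
            ∑ i, c j i * (x (some (some i)) - x (some (some j)))) = 0 := h2
      show ∑ i, c j i * (x (some (some i)) - x none - (x (some (some j)) - x none)) =
        g j * (x (some (some j)) - x none) - β j * (x (some none) - x none)
      rw [h4]
      linear_combination h3
    · have h2 := hx (some none)
      rw [Fintype.sum_option, Fintype.sum_option] at h2
      have h3 : (κ - ∑ j, β j) * (x none - x (some none)) +
          (0 * (x (some none) - x (some none)) +
            ∑ i, β i * (x (some (some i)) - x (some none))) = 0 := h2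
      show κ * (x (some none) - x none) = ∑ i, β i * (x (some (some i)) - x none)
      rw [h5] at h3
      linear_combination -h3
  · rintro ⟨hx1, hx2⟩
    refine lap_of_ne (wD_symm hc _ _ _) none fun a ha => ?_
    rcases a with _ | _ | j
    · exact absurd rfl ha
    · rw [Fintype.sum_option, Fintype.sum_option]
      show (κ - ∑ j, β j) * (x none - x (some none)) +
          (0 * (x (some none) - x (some none)) +
            ∑ i, β i * (x (some (some i)) - x (some none))) = 0
      have h2 : κ * (x (some none) - x none) = ∑ i, β i * (x (some (some i)) - x none) := hx2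
      rw [h5]
      linear_combination -h2
    · rw [Fintype.sum_option, Fintype.sum_option]
      show (g j - β j) * (x none - x (some (some j))) +
          (β j * (x (some none) - x (some (some j))) +
            ∑ i, c j i * (x (some (some i)) - x (some (some j)))) = 0
      have h2 : ∑ i, c j i * (x (some (some i)) - x none - (x (some (some j)) - x none)) =
        g j * (x (some (some j)) - x none) - β j * (x (some none) - x none) := hx1 j
      rw [h4] at h2
      linear_combination h2

end

/-! ### The five systems -/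

section
variable {J : Type} [Fintype J] {π : J → Ei} {e : J → ZMod 3}

theorem kv_card (he : ∀ j, e j ≠ 0) : nL (cW π e) = (KerV π e).ncard := by
  unfold nL
  refine Nat.card_congr (Equiv.subtypeEquiv (Equiv.refl _) fun v => ?_)
  show Lap (cW π e) v ↔ ∀ j, ∑ i, e i * cs (π j) (π i) * (v i - v j) = 0
  unfold Lap
  refine forall_congr' fun j => ?_
  rw [mul_cW he, mul_zero]

theorem v2_card (he : ∀ j, e j ≠ 0) (hc : ∀ a b, cW π e a b = cW π e b a) (κ : ZMod 3) :
    nL (wC (cW π e) fun j => -κ * (e j * rq (π j))) = 3 * (V2 π e κ).ncard := by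
  rw [per_card hc]
  congr 2
  ext v
  show (∀ j, _) ↔ ∀ j, _
  refine forall_congr' fun j => ?_
  rw [mul_cW he]
  refine Eq.congr rfl ?_
  ring

theorem v5_card (he : ∀ j, e j ≠ 0) (hc : ∀ a b, cW π e a b = cW π e b a) (κ : ZMod 3) :
    nL (wC (cW π e) fun j => e j * ts κ (π j)) = 3 * (V5 π e κ).ncard := by
  rw [per_card hc]
  congr 2
  ext v
  show (∀ j, _) ↔ ∀ j, _
  refine forall_congr' fun j => ?_
  rw [mul_cW he]
  refine Eq.congr rfl ?_
  ring

theorem v6_card (he : ∀ j, e j ≠ 0) (hc : ∀ a b, cW π e a b = cW π e b a) (κ : ZMod 3) :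
    nL (wD (cW π e) (fun j => -(e j * ts (-κ) (π j)) - e j * rq (π j))
        (fun j => e j * rq (π j)) (κ - ∑ j, e j * rq (π j))) = 3 * (V6 π e κ).ncard := by
  rw [bord_card hc (fun j => -(e j * ts (-κ) (π j))) (fun j => e j * rq (π j)) κ]
  congr 2
  ext q
  show ((∀ j, _) ∧ _) ↔ ((∀ j, _) ∧ _)
  refine and_congr (forall_congr' fun j => ?_) Iff.rfl
  rw [mul_cW he]
  refine Eq.congr rfl ?_
  ring

theorem v7_card (he : ∀ j, e j ≠ 0) (z₀ : J) (hs : ∑ j, e j * rq (π j) = 0) :
    nL (ww (cW π e) (fun j => e j * rq (π j)) (-∑ j, e j * ts 0 (π j)) z₀) =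
      (V7 π e).ncard := by
  unfold nL
  rw [← card_sys _ _ _ _ hs]
  refine Nat.card_congr (Equiv.subtypeEquiv (Equiv.refl _) fun q => ?_)
  show Sys (cW π e) (fun j => e j * rq (π j)) (-∑ j, e j * ts 0 (π j)) q ↔
    (∀ j, ∑ i, e i * cs (π j) (π i) * (q.1 i - q.1 j) = q.2 * rq (π j)) ∧
    ∑ i, e i * rq (π i) * q.1 i = q.2 * ∑ i, e i * ts 0 (π i)
  unfold Sys
  refine and_congr (forall_congr' fun j => ?_) ?_
  · rw [mul_cW he]
    refine Eq.congr rfl ?_
    ring
  · rw [mul_neg, neg_neg]

end

end Pool.Agent.Helper68.C10.LR
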