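import Pool.Agent.Helper68.C8.CFc
import Pool.Agent.Helper68.C10.LRa

/-!
# The law for all ranks, part 2: the data of the five block systems
-/

set_option autoImplicit false
set_option linter.unusedSectionVars false

open scoped Classical

namespace Pool.Agent.Helper68.C10.LR

open Finset
open Pool.Agent.Y692.QS (Ei)
open Pool.Agent.Y715.T.Rec (cs)
open Pool.Agent.Y715.T.RecG (Pq)
open Pool.Agent.Y703.CT (rq ex_q)
open Pool.Agent.Y703.XL (nA)
open Pool.Agent.Y688.XK (cs_symm)
open Pool.Agent.Helper68.C5.Chr5 (ts)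
open Pool.Agent.Helper68.C6.SV (LN)
open Pool.Agent.Helper68.C7.D7 (lb ww ww_symm dl dl_pos dl_neg exists_ch)
open Pool.Agent.Helper68.C8 (eT)
open Pool.Agent.Helper68.C8.CF
open Pool.Agent.XL6 (KerV)

theorem dat_of {r : ℕ} {ι : Type} [Fintype ι] [LinearOrder ι] [Nonempty ι] {S₀ : Finset Ei}
    {P : Finset Ei → Prop} {b : ι → Option (Option S₀) → ZMod 3} {Y : Type} [Fintype Y]
    (hY : Fintype.card Y ≤ S₀.card + 2)
    (wt : (ι → ι → ZMod 3) → Y ⊕ ι → Y ⊕ ι → ZMod 3) (sh : ι → ι → ZMod 3)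
    (hsh : ∀ k l, sh k l = sh l k)
    (hsym : ∀ R : ι → ι → ZMod 3, (∀ k l, R k l = R l k) → ∀ a a', wt R a a' = wt R a' a)
    (h1 : ∀ R u v, wt R (Sum.inl u) (Sum.inl v) = wt (fun _ _ => 0) (Sum.inl u) (Sum.inl v))
    (h2 : ∀ R u l, wt R (Sum.inl u) (Sum.inr l) = wt (fun _ _ => 0) (Sum.inl u) (Sum.inr l))
    (h3 : ∀ R k l, wt R (Sum.inr k) (Sum.inr l) = R k l + sh k l)
    (hB : ∀ w : Y → ZMod 3, (∃ u, w u ≠ 0) →
      ∃ k, ∑ u, w u * wt (fun _ _ => 0) (Sum.inl u) (Sum.inr k) ≠ 0)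
    (hP : ∀ p : ι → Ei, Function.Injective p → (∀ i, Pq (p i)) → (∀ i, p i ∉ S₀) →
      (fun i => lb S₀ (p i)) = b →
      (P (S₀ ∪ univ.image p) ↔ nL (wt fun k l => cs (p k) (p l)) = 3 ^ (r + 1))) : Dat ι S₀ P r b := by
  refine ⟨Y, inferInstance, fun u v => wt (fun _ _ => 0) (Sum.inl u) (Sum.inl v),
    fun u l => wt (fun _ _ => 0) (Sum.inl u) (Sum.inr l), sh, hY,
    fun u v => hsym _ (fun _ _ => rfl) _ _, hB, hsh, fun p hi hp hd hl => ?_⟩
  rw [hP p hi hp hd hl, nL_blk (hsym _ fun k l => cs_symm (hp k) (hp l))]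
  have e1 : (fun u v : Y => wt (fun k l => cs (p k) (p l)) (Sum.inl u) (Sum.inl v)) =
      fun u v => wt (fun _ _ => 0) (Sum.inl u) (Sum.inl v) := by
    funext u v
    exact h1 _ u v
  have e2 : (fun (u : Y) (l : ι) => wt (fun k l => cs (p k) (p l)) (Sum.inl u) (Sum.inr l)) =
      fun u l => wt (fun _ _ => 0) (Sum.inl u) (Sum.inr l) := by
    funext u l
    exact h2 _ u l
  have e3 : (fun k l : ι => wt (fun k l => cs (p k) (p l)) (Sum.inr k) (Sum.inr l)) =
      fun k l => cs (p k) (p l) + sh k l := by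
    funext k l
    exact h3 _ k l
  rw [e1, e2, e3]

/-! ### The five systems -/

section
variable {ι : Type} [Fintype ι] [LinearOrder ι] [Nonempty ι] {T S₀ : Finset Ei} {r : ℕ}
  {b : ι → Option (Option S₀) → ZMod 3}

/-- no additional vertex -/
theorem datA (hT : T ⊆ S₀) (hS₀ : ∀ u ∈ S₀, Pq u) (hL : LN S₀ b) :
    Dat ι S₀ (fun U => (KerV (fun ρ : {ρ // ρ ∈ U} => (ρ : Ei)) (eT T)).ncard = 3 ^ (r + 1)) r b := by
  refine dat_of (Y := S₀) (by rw [Fintype.card_coe]; omega) (fun R => ccT T S₀ b R)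
    (fun _ _ => 0) (fun _ _ => rfl) (fun R hR => ccT_symm hS₀ hR) (fun _ _ _ => rfl)
    (fun _ _ _ => rfl) (fun R k l => (add_zero _).symm) ?_ ?_
  · intro w hw
    obtain ⟨k, hk⟩ := LN_get hL 0 0 (fun u => w u * ee T u) (by
      right
      right
      obtain ⟨u, hu⟩ := hw
      exact ⟨u, mul_ne_zero hu (ee_ne _ _)⟩)
    refine ⟨k, fun h0 => hk ?_⟩
    rw [zero_mul, zero_mul, zero_add, zero_add, ← h0]
    refine Finset.sum_congr rfl fun u _ => ?_
    show w u * ee T u * b k (some (some u)) = w u * (ee T u * b k (some (some u)))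
    ring
  · intro p hi hp hd hl
    subst hl
    rw [← kv_card (fun j => eT_ne j), nL_reindex (emE hi hd)]
    have e : (fun z z' : S₀ ⊕ ι => cW (fun ρ : {ρ // ρ ∈ S₀ ∪ univ.image p} => (ρ : Ei)) (eT T)
        (emE hi hd z) (emE hi hd z')) =
        ccT T S₀ (fun i => lb S₀ (p i)) (fun k l => cs (p k) (p l)) := by
      funext z z'
      exact cW_em hT hi hp hS₀ hd z z'
    rw [e]

/-- one additional vertex -/
theorem datC {P : Finset Ei → Prop} (γ : S₀ ⊕ ι → ZMod 3) (hS₀ : ∀ u ∈ S₀, Pq u) (t s : ZMod 3)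
    (hts : t ≠ 0 ∨ s ≠ 0) (hγ : ∀ l, γ (Sum.inr l) = t * b l none + s * b l (some none))
    (hL : LN S₀ b) (hP : ∀ p : ι → Ei, Function.Injective p → (∀ i, Pq (p i)) →
      (∀ i, p i ∉ S₀) → (fun i => lb S₀ (p i)) = b →
      (P (S₀ ∪ univ.image p) ↔ nL (wC (ccT T S₀ b fun k l => cs (p k) (p l)) γ) = 3 ^ (r + 1))) :
    Dat ι S₀ P r b := by
  refine dat_of (Y := Option S₀) (by rw [Fintype.card_option, Fintype.card_coe]; omega)
    (fun R a a' => wC (ccT T S₀ b R) γ (os a) (os a'))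
    (fun _ _ => 0) (fun _ _ => rfl) (fun R hR a a' => wC_symm (ccT_symm hS₀ hR) γ _ _) ?_
    ?_ (fun R k l => (add_zero _).symm) ?_ ?_
  · rintro R (_ | u) (_ | v) <;> rfl
  · rintro R (_ | u) l <;> rfl
  · intro w hw
    obtain ⟨k, hk⟩ := LN_get hL (w none * t) (w none * s) (fun u => w (some u) * ee T u) (by
      obtain ⟨u, hu⟩ := hw
      rcases u with _ | u
      · rcases hts with h | h
        · exact Or.inl (mul_ne_zero hu h)
        · exact Or.inr (Or.inl (mul_ne_zero hu h))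
      · exact Or.inr (Or.inr ⟨u, mul_ne_zero hu (ee_ne _ _)⟩))
    refine ⟨k, fun h0 => hk ?_⟩
    rw [Fintype.sum_option] at h0
    have h1 : w none * γ (Sum.inr k) +
        ∑ u : S₀, w (some u) * (ee T u * b k (some (some u))) = 0 := h0
    rw [hγ] at h1
    rw [← h1]
    have h2 : ∑ u : S₀, w (some u) * ee T u * b k (some (some u)) =
        ∑ u : S₀, w (some u) * (ee T u * b k (some (some u))) :=
      Finset.sum_congr rfl fun u _ => by ring
    rw [h2]
    ring
  · intro p hi hp hd hl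
    rw [hP p hi hp hd hl, nL_reindex os]

theorem dat2 (hT : T ⊆ S₀) (hS₀ : ∀ u ∈ S₀, Pq u) (hL : LN S₀ b) {κ : ZMod 3} (hκ : κ ≠ 0) :
    Dat ι S₀ (fun U => 3 * (V2 (fun ρ : {ρ // ρ ∈ U} => (ρ : Ei)) (eT T) κ).ncard = 3 ^ (r + 1))
      r b := by
  refine datC (fun z => -κ * bet T S₀ b z) hS₀ (-κ) 0 (Or.inl (neg_ne_zero.2 hκ))
    (fun l => ?_) hL (T := T) ?_
  · rw [zero_mul, add_zero]
    rfl
  · intro p hi hp hd hl
    subst hl
    rw [← v2_card (fun j => eT_ne j) (cW_symm (pq_un hp hS₀)),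
      nL_reindex (emE hi hd).optionCongr]
    have e : (fun a a' : Option (S₀ ⊕ ι) => wC (cW (fun ρ : {ρ // ρ ∈ S₀ ∪ univ.image p} =>
        (ρ : Ei)) (eT T)) (fun j => -κ * (eT T j * rq (j : Ei))) ((emE hi hd).optionCongr a)
          ((emE hi hd).optionCongr a')) =
        wC (ccT T S₀ (fun i => lb S₀ (p i)) (fun k l => cs (p k) (p l)))
          (fun z => -κ * bet T S₀ (fun i => lb S₀ (p i)) z) := by
      funext a a'
      rcases a with _ | z <;> rcases a' with _ | z'
      · rfl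
      · show -κ * (eT T (emE hi hd z') * rq (emE hi hd z' : Ei)) = -κ * bet T S₀ _ z'
        rw [rq_em hT hi hd]
      · show -κ * (eT T (emE hi hd z) * rq (emE hi hd z : Ei)) = -κ * bet T S₀ _ z
        rw [rq_em hT hi hd]
      · exact cW_em hT hi hp hS₀ hd z z'
    rw [e]

theorem dat5 (hT : T ⊆ S₀) (hS₀ : ∀ u ∈ S₀, Pq u) (hL : LN S₀ b) (κ : ZMod 3) :
    Dat ι S₀ (fun U => 3 * (V5 (fun ρ : {ρ // ρ ∈ U} => (ρ : Ei)) (eT T) κ).ncard = 3 ^ (r + 1))
      r b := by
  refine datC (fun z => tau T S₀ b z - κ * bet T S₀ b z) hS₀ (-κ) 1 (Or.inr one_ne_zero)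
    (fun l => ?_) hL (T := T) ?_
  · show b l (some none) - κ * b l none = _
    ring
  · intro p hi hp hd hl
    subst hl
    have hts : ∀ z, eT T (emE hi hd z) * ts κ (emE hi hd z : Ei) =
        tau T S₀ (fun i => lb S₀ (p i)) z - κ * bet T S₀ (fun i => lb S₀ (p i)) z := by
      intro z
      rw [ts_eq κ (pq_un hp hS₀ _ (emE hi hd z).2).three, ← rq_em hT hi hd, ← ts_em hT hi hd]
      ring
    rw [← v5_card (fun j => eT_ne j) (cW_symm (pq_un hp hS₀)),
      nL_reindex (emE hi hd).optionCongr]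
    have e : (fun a a' : Option (S₀ ⊕ ι) => wC (cW (fun ρ : {ρ // ρ ∈ S₀ ∪ univ.image p} =>
        (ρ : Ei)) (eT T)) (fun j => eT T j * ts κ (j : Ei)) ((emE hi hd).optionCongr a)
          ((emE hi hd).optionCongr a')) =
        wC (ccT T S₀ (fun i => lb S₀ (p i)) (fun k l => cs (p k) (p l)))
          (fun z => tau T S₀ (fun i => lb S₀ (p i)) z -
            κ * bet T S₀ (fun i => lb S₀ (p i)) z) := by
      funext a a'
      rcases a with _ | z <;> rcases a' with _ | z'
      · rfl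
      · exact hts z'
      · exact hts z
      · exact cW_em hT hi hp hS₀ hd z z'
    rw [e]

/-- two additional vertices -/
theorem dat6 (hT : T ⊆ S₀) (hS₀ : ∀ u ∈ S₀, Pq u) (hL : LN S₀ b) (κ : ZMod 3) :
    Dat ι S₀ (fun U => 3 * (V6 (fun ρ : {ρ // ρ ∈ U} => (ρ : Ei)) (eT T) κ).ncard = 3 ^ (r + 1))
      r b := by
  refine dat_of (Y := Option (Option S₀))
    (by rw [Fintype.card_option, Fintype.card_option, Fintype.card_coe])
    (fun R a a' => wD (ccT T S₀ b R)
      (fun z => -(tau T S₀ b z + κ * bet T S₀ b z) - bet T S₀ b z) (bet T S₀ b)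
      (κ - ∑ z, bet T S₀ b z) ((os.trans os.optionCongr) a) ((os.trans os.optionCongr) a'))
    (fun _ _ => 0) (fun _ _ => rfl) (fun R hR a a' => wD_symm (ccT_symm hS₀ hR) _ _ _ _ _) ?_
    ?_ (fun R k l => (add_zero _).symm) ?_ ?_
  · rintro R (_ | _ | u) (_ | _ | v) <;> rfl
  · rintro R (_ | _ | u) l <;> rfl
  · intro w hw
    obtain ⟨k, hk⟩ := LN_get hL (w (some none) - (κ + 1) * w none) (-w none)
      (fun u => w (some (some u)) * ee T u) (by
      by_cases h0 : w none = 0
      · obtain ⟨u, hu⟩ := hw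
        rcases u with _ | _ | u
        · exact absurd h0 hu
        · left
          rw [h0, mul_zero, sub_zero]
          exact hu
        · exact Or.inr (Or.inr ⟨u, mul_ne_zero hu (ee_ne _ _)⟩)
      · exact Or.inr (Or.inl (neg_ne_zero.2 h0)))
    refine ⟨k, fun h0 => hk ?_⟩
    rw [Fintype.sum_option, Fintype.sum_option] at h0
    have h1 : w none * (-(b k (some none) + κ * b k none) - b k none) +
        (w (some none) * b k none +
        ∑ u : S₀, w (some (some u)) * (ee T u * b k (some (some u)))) = 0 := h0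
    rw [← h1]
    have h2 : ∑ u : S₀, w (some (some u)) * ee T u * b k (some (some u)) =
        ∑ u : S₀, w (some (some u)) * (ee T u * b k (some (some u))) :=
      Finset.sum_congr rfl fun u _ => by ring
    rw [h2]
    ring
  · intro p hi hp hd hl
    subst hl
    rw [← nL_reindex (os.trans os.optionCongr)]
    have hts : ∀ z, -(eT T (emE hi hd z) * ts (-κ) (emE hi hd z : Ei)) -
        eT T (emE hi hd z) * rq (emE hi hd z : Ei) =
        -(tau T S₀ (fun i => lb S₀ (p i)) z + κ * bet T S₀ (fun i => lb S₀ (p i)) z) -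
          bet T S₀ (fun i => lb S₀ (p i)) z := by
      intro z
      rw [ts_eq (-κ) (pq_un hp hS₀ _ (emE hi hd z).2).three, ← rq_em hT hi hd, ← ts_em hT hi hd]
      ring
    rw [← v6_card (fun j => eT_ne j) (cW_symm (pq_un hp hS₀)),
      nL_reindex (emE hi hd).optionCongr.optionCongr, sum_rq hT hi hd]
    have e : (fun a a' : Option (Option (S₀ ⊕ ι)) =>
        wD (cW (fun ρ : {ρ // ρ ∈ S₀ ∪ univ.image p} => (ρ : Ei)) (eT T))
          (fun j => -(eT T j * ts (-κ) (j : Ei)) - eT T j * rq (j : Ei))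
          (fun j => eT T j * rq (j : Ei)) (κ - ∑ z, bet T S₀ (fun i => lb S₀ (p i)) z)
          ((emE hi hd).optionCongr.optionCongr a) ((emE hi hd).optionCongr.optionCongr a')) =
        wD (ccT T S₀ (fun i => lb S₀ (p i)) (fun k l => cs (p k) (p l)))
          (fun z => -(tau T S₀ (fun i => lb S₀ (p i)) z + κ * bet T S₀ (fun i => lb S₀ (p i)) z) -
            bet T S₀ (fun i => lb S₀ (p i)) z) (bet T S₀ (fun i => lb S₀ (p i)))
          (κ - ∑ z, bet T S₀ (fun i => lb S₀ (p i)) z) := by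
      funext a a'
      rcases a with _ | _ | z <;> rcases a' with _ | _ | z'
      · rfl
      · rfl
      · exact hts z'
      · rfl
      · rfl
      · exact rq_em hT hi hd z'
      · exact hts z
      · exact rq_em hT hi hd z
      · exact cW_em hT hi hp hS₀ hd z z'
    rw [e]

/-- the class with the special vertex -/
theorem dat7 (hT : T ⊆ S₀) (hS₀ : ∀ u ∈ S₀, Pq u) (hL : LN S₀ b)
    (hs : ∑ z, bet T S₀ b z = 0) :
    Dat ι S₀ (fun U => (V7 (fun ρ : {ρ // ρ ∈ U} => (ρ : Ei)) (eT T)).ncard = 3 ^ (r + 1)) r b := by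
  obtain ⟨z₀, hz₀⟩ := exists_ch (ι := ι) S₀
  refine dat_of (Y := Option S₀)
    (by rw [Fintype.card_option, Fintype.card_coe]; omega)
    (fun R a a' => ww (ccT T S₀ b R) (bet T S₀ b) (-∑ z, tau T S₀ b z) z₀ (os a) (os a'))
    (fun k l => dl (Sum.inr l : S₀ ⊕ ι) z₀ (b k none) + dl (Sum.inr k : S₀ ⊕ ι) z₀ (b l none))
    (fun k l => add_comm _ _) (fun R hR a a' => ww_symm (ccT_symm hS₀ hR) _ _ _ _ _) ?_
    ?_ (fun R k l => rfl) ?_ ?_
  · rintro R (_ | u) (_ | v) <;> rfl
  · rintro R (_ | u) l <;> rfl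
  · intro w hw
    obtain ⟨m, hm⟩ : ∃ m : ZMod 3, m = -∑ z, tau T S₀ b z := ⟨_, rfl⟩
    have hn : ∀ k, ∑ u, w u * ww (ccT T S₀ b fun _ _ => 0) (bet T S₀ b) (-∑ z, tau T S₀ b z) z₀
        (os (Sum.inl u)) (os (Sum.inr k)) =
        w none * (-b k none + dl (Sum.inr k : S₀ ⊕ ι) z₀ m) +
        ∑ u : S₀, w (some u) * (ee T u * b k (some (some u)) +
          (dl (Sum.inr k : S₀ ⊕ ι) z₀ (ee T u * rq (u : Ei)) +
            dl (Sum.inl u : S₀ ⊕ ι) z₀ (b k none))) := by
      intro k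
      rw [Fintype.sum_option, hm]
      rfl
    simp only [hn]
    rcases hz₀ with ⟨u₀, rfl⟩ | hE
    · -- a small prime
      obtain ⟨i, hi⟩ := LN_get hL (w (some u₀) - w none) 0 (fun u => w (some u) * ee T u) (by
        by_cases h : ∃ u : S₀, w (some u) ≠ 0
        · obtain ⟨u, hu⟩ := h
          exact Or.inr (Or.inr ⟨u, mul_ne_zero hu (ee_ne _ _)⟩)
        · left
          push Not at h
          obtain ⟨u, hu⟩ := hw
          rcases u with _ | u
          · rw [h u₀, zero_sub]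
            exact neg_ne_zero.2 hu
          · exact absurd (h u) hu)
      refine ⟨i, fun h0 => hi ?_⟩
      rw [dl_neg (by simp)] at h0
      have e : ∀ u : S₀, w (some u) * (ee T u * b i (some (some u)) +
          (dl (Sum.inr i : S₀ ⊕ ι) (Sum.inl u₀) (ee T u * rq (u : Ei)) +
            dl (Sum.inl u : S₀ ⊕ ι) (Sum.inl u₀) (b i none))) =
          w (some u) * ee T u * b i (some (some u)) +
            (if u = u₀ then w (some u) * b i none else 0) := by
        intro u
        rw [dl_neg (by simp : (Sum.inr i : S₀ ⊕ ι) ≠ Sum.inl u₀)]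
        by_cases h : u = u₀
        · rw [dl_pos (by rw [h]), if_pos h]
          ring
        · rw [dl_neg (fun h' => h (Sum.inl_injective h')), if_neg h]
          ring
      rw [sum_congr rfl fun u _ => e u, sum_add_distrib, Finset.sum_ite_eq' univ u₀,
        if_pos (mem_univ u₀)] at h0
      linear_combination h0
    · -- no small prime
      subst hE
      have hwn : w none ≠ 0 := by
        obtain ⟨u, hu⟩ := hw
        rcases u with _ | u
        · exact hu
        · exact absurd u.2 (Finset.notMem_empty _)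
      have hs' : ∑ l, b l none = 0 := by
        rw [Fintype.sum_sum_type] at hs
        have h0 : ∑ u : (∅ : Finset Ei), bet T ∅ b (Sum.inl u) = 0 := by simp
        rw [h0, zero_add] at hs
        exact hs
      obtain ⟨i, hi⟩ := LN_get hL 1 0 (fun _ => 0) (Or.inl one_ne_zero)
      have hi' : b i none ≠ 0 := by
        intro h
        apply hi
        rw [h]
        simp
      have hk : ∃ k, (Sum.inr k : (∅ : Finset Ei) ⊕ ι) ≠ z₀ ∧ b k none ≠ 0 := by
        by_contra hc
        push Not at hc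
        have h1 : (Sum.inr i : (∅ : Finset Ei) ⊕ ι) = z₀ := by
          by_contra h
          exact hi' (hc i h)
        apply hi'
        rw [← hs']
        symm
        refine Finset.sum_eq_single i (fun k _ hki => ?_) (fun h => absurd (mem_univ i) h)
        refine hc k fun h2 => hki ?_
        rw [← h1] at h2
        exact Sum.inr_injective h2
      obtain ⟨k, hk1, hk2⟩ := hk
      refine ⟨k, fun h0 => ?_⟩
      rw [dl_neg hk1] at h0
      have h3 : ∑ u : (∅ : Finset Ei), w (some u) * (ee T u * b k (some (some u)) +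
          (dl (Sum.inr k : (∅ : Finset Ei) ⊕ ι) z₀ (ee T u * rq (u : Ei)) +
            dl (Sum.inl u : (∅ : Finset Ei) ⊕ ι) z₀ (b k none))) = 0 := by simp
      rw [h3, add_zero, add_zero, mul_neg, neg_eq_zero, mul_eq_zero] at h0
      rcases h0 with h0 | h0
      · exact hwn h0
      · exact hk2 h0
  · intro p hi hp hd hl
    subst hl
    rw [← nL_reindex os]
    rw [← v7_card (fun j => eT_ne j) (emE hi hd z₀) (by rw [sum_rq hT hi hd]; exact hs),
      nL_reindex (emE hi hd).optionCongr, sum_ts hT hi hd]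
    have hdl : ∀ z x, dl (emE hi hd z) (emE hi hd z₀) x = dl z z₀ x := by
      intro z x
      unfold dl
      by_cases h : z = z₀
      · rw [if_pos h, if_pos (by rw [h])]
      · rw [if_neg h, if_neg fun h' => h ((emE hi hd).injective h')]
    have e : (fun a a' : Option (S₀ ⊕ ι) =>
        ww (cW (fun ρ : {ρ // ρ ∈ S₀ ∪ univ.image p} => (ρ : Ei)) (eT T))
          (fun j => eT T j * rq (j : Ei)) (-∑ z, tau T S₀ (fun i => lb S₀ (p i)) z)
          (emE hi hd z₀) ((emE hi hd).optionCongr a) ((emE hi hd).optionCongr a')) =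
        ww (ccT T S₀ (fun i => lb S₀ (p i)) (fun k l => cs (p k) (p l)))
          (bet T S₀ (fun i => lb S₀ (p i))) (-∑ z, tau T S₀ (fun i => lb S₀ (p i)) z) z₀ := by
      funext a a'
      rcases a with _ | z <;> rcases a' with _ | z'
      · rfl
      · show -(eT T (emE hi hd z') * rq (emE hi hd z' : Ei)) +
          dl (emE hi hd z') (emE hi hd z₀) _ = -bet T S₀ _ z' + dl z' z₀ _
        rw [rq_em hT hi hd, hdl]
      · show -(eT T (emE hi hd z) * rq (emE hi hd z : Ei)) +
          dl (emE hi hd z) (emE hi hd z₀) _ = -bet T S₀ _ z + dl z z₀ _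
        rw [rq_em hT hi hd, hdl]
      · show cW _ (eT T) (emE hi hd z) (emE hi hd z') +
          (dl (emE hi hd z') (emE hi hd z₀) (eT T (emE hi hd z) * rq (emE hi hd z : Ei)) +
            dl (emE hi hd z) (emE hi hd z₀) (eT T (emE hi hd z') * rq (emE hi hd z' : Ei))) =
          ccT T S₀ _ _ z z' + (dl z' z₀ (bet T S₀ _ z) + dl z z₀ (bet T S₀ _ z'))
        rw [rq_em hT hi hd, rq_em hT hi hd, hdl, hdl, cW_em hT hi hp hS₀ hd z z']
    rw [e]

end

end Pool.Agent.Helper68.C10.LR
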