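import Pool.Agent.Helper68.C10.LRb
import Pool.Agent.Helper68.C8.CF

/-!
# The law for all ranks, part 3: the asymptotics for the sets containing `T`
-/

set_option autoImplicit false
set_option linter.unusedSectionVars false

open scoped Classical
open Finset Filter

namespace Pool.Agent.Helper68.C10.LR

open Pool.Agent.Y692.QS (Ei w nr toC)
open Pool.Agent.Y715.T.Rec (cs)
open Pool.Agent.Y715.T.RecG (Pq)
open Pool.Agent.Y703.CT (rq rq_mul ex_q)
open Pool.Agent.Y699.E (nrm QB PD prm)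
open Pool.Agent.Y703.CX (jj XX eL zz kk eL_tendsto logX_eq rpow_eL HH NN ev_eL one_le_exp
  HH_ge HH_le HH_pos kk_ge kk_le X_pos one_add_log lin_le zz_ge zz_pos)
open Pool.Agent.Y703.CQ (Sml sml_of sml_add)
open Pool.Agent.Y703.XK (HB prs ext c9 sm la bl S_BIL S_EQ S_C9
  sml_eps kk_pos sml_main kap kap_nonneg kap_pow cmp)
open Pool.Agent.Y703.XL (cr cr_pos cr_le S_LA)
open Pool.Agent.Helper68.C3 (Bt SS RR Nd S_CNT S_FEW S_LOW)
open Pool.Agent.Helper68.C3.Asy3 (sml_many sml_cut sml_coll t_LOW)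
open Pool.Agent.XLK (sm_union)
open Pool.Agent.Helper68.C5.Chr5 (ts ts_mul ts_per cp_prim ts_prim lt)
open Pool.Agent.Helper68.C6.SV (BoxN t_KEY Nd2 LN S_BAD2 t_BAD2)
open Pool.Agent.Helper68.C6 (Bt2)
open Pool.Agent.Helper68.C7.D7 (lb bt_rq)
open Pool.Agent.Helper68.C8 (eT)
open Pool.Agent.Helper68.C8.CF
open Pool.Agent.XL6 (KerV)

variable {r : ℕ}

theorem datB_of {T : Finset Ei} {Q P : Finset Ei → Prop}
    (QL : ∀ (ι : Type) [Fintype ι] (S₀ : Finset Ei), (ι → Option (Option S₀) → ZMod 3) → Prop)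
    (hQ : ∀ (ι : Type) [Fintype ι] [LinearOrder ι] (S₀ : Finset Ei), (∀ u ∈ S₀, Pq u) → T ⊆ S₀ →
      ∀ p : ι → Ei, Function.Injective p → (∀ i, Pq (p i)) → (∀ i, p i ∉ S₀) →
        (Q (S₀ ∪ univ.image p) ↔ QL ι S₀ fun i => lb S₀ (p i)))
    (hD : ∀ (ι : Type) [Fintype ι] [LinearOrder ι] [Nonempty ι] (S₀ : Finset Ei),
      (∀ u ∈ S₀, Pq u) → T ⊆ S₀ → ∀ b, LN S₀ b → QL ι S₀ b → Dat ι S₀ P r b) :
    DatB (WT T Q) P r := by
  intro ι _ _ S₀ hS₀ hc
  have hne : Nonempty ι := Fintype.card_pos_iff.1 (by omega)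
  refine ⟨univ.filter fun b => T ⊆ S₀ ∧ LN S₀ b ∧ QL ι S₀ b, fun p hi hp hd => ?_,
    fun b hb => ?_⟩
  · unfold WT
    rw [mem_filter, nd_iff]
    constructor
    · rintro ⟨⟨h1, h2⟩, h3⟩
      exact ⟨mem_univ _, h1, h2, (hQ ι S₀ hS₀ h1 p hi hp hd).1 h3⟩
    · rintro ⟨-, h1, h2, h3⟩
      exact ⟨⟨h1, h2⟩, (hQ ι S₀ hS₀ h1 p hi hp hd).2 h3⟩
  · rw [mem_filter] at hb
    exact hD ι S₀ hS₀ hb.2.1 b hb.2.2.1 hb.2.2.2

theorem datB_A (T : Finset Ei) : DatB (WT T fun U => ¬ cls T U)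
    (fun U => (KerV (fun ρ : {ρ // ρ ∈ U} => (ρ : Ei)) (eT T)).ncard = 3 ^ (r + 1)) r := by
  refine datB_of (fun ι _ S₀ b => ¬ ∑ z, bet T S₀ b z = 0) ?_ ?_
  · intro ι _ _ S₀ hS₀ hT p hi hp hd
    unfold cls
    rw [sum_rq hT hi hd]
  · intro ι _ _ _ S₀ hS₀ hT b hL _
    exact datA hT hS₀ hL

theorem datB_7 (T : Finset Ei) : DatB (WT T (cls T))
    (fun U => (V7 (fun ρ : {ρ // ρ ∈ U} => (ρ : Ei)) (eT T)).ncard = 3 ^ (r + 1)) r := by
  refine datB_of (fun ι _ S₀ b => ∑ z, bet T S₀ b z = 0) ?_ ?_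
  · intro ι _ _ S₀ hS₀ hT p hi hp hd
    unfold cls
    rw [sum_rq hT hi hd]
  · intro ι _ _ _ S₀ hS₀ hT b hL hs
    exact dat7 hT hS₀ hL hs

theorem datB_2 (T : Finset Ei) {κ : ZMod 3} (hκ : κ ≠ 0) : DatB (WT T fun _ => True)
    (fun U => 3 * (V2 (fun ρ : {ρ // ρ ∈ U} => (ρ : Ei)) (eT T) κ).ncard = 3 ^ (r + 1)) r := by
  refine datB_of (fun ι _ S₀ b => True) ?_ ?_
  · intro ι _ _ S₀ hS₀ hT p hi hp hd
    exact Iff.rfl
  · intro ι _ _ _ S₀ hS₀ hT b hL _
    exact dat2 hT hS₀ hL hκ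

theorem datB_5 (T : Finset Ei) (κ : ZMod 3) : DatB (WT T fun _ => True)
    (fun U => 3 * (V5 (fun ρ : {ρ // ρ ∈ U} => (ρ : Ei)) (eT T) κ).ncard = 3 ^ (r + 1)) r := by
  refine datB_of (fun ι _ S₀ b => True) ?_ ?_
  · intro ι _ _ S₀ hS₀ hT p hi hp hd
    exact Iff.rfl
  · intro ι _ _ _ S₀ hS₀ hT b hL _
    exact dat5 hT hS₀ hL κ

theorem datB_6 (T : Finset Ei) (κ : ZMod 3) : DatB (WT T fun _ => True)
    (fun U => 3 * (V6 (fun ρ : {ρ // ρ ∈ U} => (ρ : Ei)) (eT T) κ).ncard = 3 ^ (r + 1)) r := by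
  refine datB_of (fun ι _ S₀ b => True) ?_ ?_
  · intro ι _ _ S₀ hS₀ hT p hi hp hd
    exact Iff.rfl
  · intro ι _ _ _ S₀ hS₀ hT b hL _
    exact dat6 hT hS₀ hL κ

theorem t_AS {T : Finset Ei} {Q P : Finset Ei → Prop} (h1 : S_BIL)
    (hBx : BoxN (WT T Q) P (cr r) (3 ^ (r + 1)))
    (hC : S_CNT) (hB : S_BAD2 bq bt) (hF : S_FEW) (hc9 : S_C9) {ε : ℝ} (hε : 0 < ε) :
    ∀ᶠ X : ℕ in atTop,
      |(((SQ T Q X).filter P).card : ℝ) - cr r * ((SQ T Q X).card : ℝ)| ≤ ε * X := by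
  obtain ⟨C, hC1, hkey⟩ := t_KEY h1 (by positivity) hBx
  obtain ⟨D, hD⟩ := hC
  obtain ⟨K, hKd⟩ : ∃ K : ℝ, K = 3 ^ (r + 1) := ⟨_, rfl⟩
  have hKp : 0 < K := by rw [hKd]; positivity
  have hD1 : (1 : ℝ) ≤ D := hD.one
  have hD0 : (0 : ℝ) < D := by linarith
  obtain ⟨V, hV⟩ := exists_pow_lt_of_lt_one (show (0 : ℝ) < ε / (2 * (K * D)) by positivity)
    (show (1 / 3 : ℝ) < 1 by norm_num)
  have s1 := sml_many hD
  have s2 := sml_cut hD
  have s3 := sml_coll hD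
  have s4 := sml_eps (hF (V + 2))
  have s5 := sml_eps hB
  have s6 := sml_main hC1
  have s := sml_add (sml_add (sml_add (sml_add (sml_add s1 s2) s3) s4) s5) s6
  have hδ : (0 : ℝ) < ε / 4 := by positivity
  filter_upwards [s (ε / 4) hδ, ev_eL 1, ev_zz (T.sup nrm)] with X hX hl hzz
  rw [neg_zero, zero_mul, Real.exp_zero, mul_one] at hX
  have hl0 : 0 < eL X := by linarith
  have hXp := X_pos hl0
  have hXp' : (0 : ℝ) < X := by exact_mod_cast hXp
  have hN : (HH X : ℝ) * Real.log X < NN X := by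
    unfold NN
    push_cast
    exact Nat.lt_floor_add_one _
  have hmain := hkey X (zz X) (HH X) (kk X) V (NN X) (kap C X) hXp (HH_pos hl0) (zz_pos hl)
    (kap_nonneg hC1 X) (kap_pow hC1 hl) hN
  set T' := (RR X (zz X) (HH X) (kk X) (V + 1)).filter fun S => WT T Q (sm (zz X) S) (la (zz X) S)
    with hT'
  have hTG : (RR X (zz X) (HH X) (kk X) (V + 1)).filter
      (fun S => WT T Q (sm (zz X) S) (la (zz X) S) ∧ P S) = T'.filter P := by
    rw [hT', filter_filter]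
  rw [hTG] at hmain
  have hTS : T' ⊆ SQ T Q X := by
    intro S hS
    rw [hT', mem_filter] at hS
    obtain ⟨h2, ⟨h3, -⟩, h4⟩ := hS
    rw [sm_union] at h4
    unfold RR at h2
    rw [mem_filter] at h2
    unfold SQ
    rw [mem_filter]
    exact ⟨h2.1, h3.trans (filter_subset _ _), h4⟩
  have hRS : ((RR X (zz X) (HH X) (kk X) (V + 1)).card : ℝ) ≤ D * X := by
    refine le_trans ?_ (hD.all X hXp)
    exact_mod_cast card_le_card (filter_subset _ _)
  have hcmp := cmp P T' (SQ T Q X) hTS (cr r) (cr_pos hc9 r).le (cr_le hc9 r)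
  have hout : ((SQ T Q X \ T').card : ℝ) ≤
      ((((SS X).filter fun S => kk X < S.card).card : ℝ) +
      (((SS X).filter fun S => S.card ≤ kk X ∧
        X < (∏ π ∈ sm (zz X) S, nrm π) * ∏ π ∈ la (zz X) S, XX (HH X) (bl (HH X) π)).card : ℝ) +
      (((SS X).filter fun S => ¬ Set.InjOn (bl (HH X)) (la (zz X) S : Set Ei)).card : ℝ) +
      (((SS X).filter fun S => S.card ≤ kk X ∧
        (la (zz X) S).card ≤ (sm (zz X) S).card + (V + 2)).card : ℝ)) +
      (((SS X).filter fun S => S.card ≤ kk X ∧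
        ¬ Nd2 bq bt (sm (zz X) S) (la (zz X) S)).card : ℝ) := by
    have g := card_le_card (out_subT T Q X (zz X) (HH X) (kk X) V
      (fun π hπ => (le_sup (f := nrm) hπ).trans hzz))
    rw [← hT'] at g
    have g2 := (g.trans (card_union_le _ _)).trans (Nat.add_le_add_right ((card_union_le _ _).trans
      (Nat.add_le_add_right ((card_union_le _ _).trans
      (Nat.add_le_add_right (card_union_le _ _) _)) _)) _)
    exact_mod_cast g2
  rw [← hKd] at hmain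
  have g1 : K * (1 / 3 : ℝ) ^ V * ((RR X (zz X) (HH X) (kk X) (V + 1)).card : ℝ) ≤
      K * (1 / 3 : ℝ) ^ V * (D * X) := mul_le_mul_of_nonneg_left hRS (by positivity)
  have g3 : K * (1 / 3 : ℝ) ^ V * (D * X) ≤ K * (ε / (2 * (K * D))) * (D * X) := by
    gcongr
  have g5 : K * (ε / (2 * (K * D))) * (D * X) = ε / 2 * X := by
    field_simp
  rw [g5] at g3
  have g4 : 0 < ε * X := by positivity
  linarith

/-- the asymptotics with all the inputs -/
theorem t_AS' {T : Finset Ei} {Q P : Finset Ei → Prop} (hD : DatB (WT T Q) P r) {ε : ℝ}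
    (hε : 0 < ε) : ∀ᶠ X : ℕ in atTop,
      |(((SQ T Q X).filter P).card : ℝ) - cr r * ((SQ T Q X).card : ℝ)| ≤ ε * X :=
  t_AS Pool.Agent.Y363.XK.t_BIL
    (t_GBOX Pool.Agent.Y710.XK.t_EQ Pool.Agent.Y703.XL.t_LA r hD)
    Pool.Agent.Helper68.C3.Cnt3.t_CNT (t_BAD2 bt2) Pool.Agent.Helper68.C3.Few3.t_FEW
    Pool.Agent.Y703.XL.t_C9 hε


/-- the order of the Selmer group of `√-3` for `√-3 ^ a ω ^ κ ∏_S π ∏_T π²`, as a function of
`U = S ∪ T` and `T` -/
noncomputable def nG (a : ℕ) (κ : ZMod 3) (T U : Finset Ei) : ℕ :=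
  if a = 0 ∧ κ = 0 then
    (if ∑ ρ : {ρ // ρ ∈ U}, eT T ρ * rq (ρ : Ei) = 0 then
      (V7 (fun ρ : {ρ // ρ ∈ U} => (ρ : Ei)) (eT T)).ncard
    else (KerV (fun ρ : {ρ // ρ ∈ U} => (ρ : Ei)) (eT T)).ncard)
  else if a = 0 then 3 * (V2 (fun ρ : {ρ // ρ ∈ U} => (ρ : Ei)) (eT T) κ).ncard
  else if a = 1 then 3 * (V6 (fun ρ : {ρ // ρ ∈ U} => (ρ : Ei)) (eT T) κ).ncard
  else 3 * (V5 (fun ρ : {ρ // ρ ∈ U} => (ρ : Ei)) (eT T) κ).ncard

/-- the order is `3 ^ (r + 1)` -/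
def GR (r a : ℕ) (κ : ZMod 3) (T U : Finset Ei) : Prop := nG a κ T U = 3 ^ (r + 1)

/-- the order is `3 ^ (r + 1)`, class with the special vertex -/
def P7 (r : ℕ) (T U : Finset Ei) : Prop :=
  (V7 (fun ρ : {ρ // ρ ∈ U} => (ρ : Ei)) (eT T)).ncard = 3 ^ (r + 1)

/-- the order is `3 ^ (r + 1)`, class without special vertex -/
def PK (r : ℕ) (T U : Finset Ei) : Prop :=
  (KerV (fun ρ : {ρ // ρ ∈ U} => (ρ : Ei)) (eT T)).ncard = 3 ^ (r + 1)

/-- the law for the sets containing `T` -/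
theorem law_T (r : ℕ) (T : Finset Ei) (a : ℕ) (κ : ZMod 3) {ε : ℝ} (hε : 0 < ε) :
    ∀ᶠ X : ℕ in atTop,
      |(((SS X).filter fun U => T ⊆ U ∧ GR r a κ T U).card : ℝ) -
        cr r * (((SS X).filter fun U => T ⊆ U).card : ℝ)| ≤ ε * X := by
  have hmem : ∀ (Q : Finset Ei → Prop) (X : ℕ) (U : Finset Ei),
      U ∈ SQ T Q X ↔ U ∈ SS X ∧ T ⊆ U ∧ Q U := by
    intro Q X U
    unfold SQ
    rw [mem_filter]
  have hone : ∀ P : Finset Ei → Prop, DatB (WT T fun _ => True) P r →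
      (∀ U, (GR r a κ T U) ↔ P U) → ∀ᶠ X : ℕ in atTop,
      |(((SS X).filter fun U => T ⊆ U ∧ GR r a κ T U).card : ℝ) -
        cr r * (((SS X).filter fun U => T ⊆ U).card : ℝ)| ≤ ε * X := by
    intro P hP hG
    filter_upwards [t_AS' hP hε] with X hX
    have e1 : ((SS X).filter fun U => T ⊆ U ∧ GR r a κ T U) =
        (SQ T (fun _ => True) X).filter P := by
      ext U
      rw [mem_filter, mem_filter, hmem, hG U]
      exact ⟨fun h => ⟨⟨h.1, h.2.1, trivial⟩, h.2.2⟩, fun h => ⟨h.1.1, h.1.2.1, h.2⟩⟩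
    have e2 : ((SS X).filter fun U => T ⊆ U) = SQ T (fun _ => True) X := by
      ext U
      rw [mem_filter, hmem]
      exact ⟨fun h => ⟨h.1, h.2, trivial⟩, fun h => ⟨h.1, h.2.1⟩⟩
    rw [e1, e2]
    exact hX
  by_cases h0 : a = 0 ∧ κ = 0
  · filter_upwards [t_AS' (P := P7 r T) (datB_7 T) (half_pos hε), t_AS' (P := PK r T) (datB_A T) (half_pos hε)] with X h1 h2
    have e1 : (((SS X).filter fun U => T ⊆ U ∧ GR r a κ T U).card : ℝ) =
        (((SQ T (cls T) X).filter fun U =>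
          P7 r T U).card : ℝ) +
        (((SQ T (fun U => ¬ cls T U) X).filter fun U =>
          PK r T U).card : ℝ) := by
      rw [← Nat.cast_add, ← card_union_of_disjoint]
      · congr 2
        ext U
        rw [mem_union, mem_filter, mem_filter, mem_filter, hmem, hmem]
        have hG : GR r a κ T U ↔ ((cls T U ∧ P7 r T U) ∨
            (¬ cls T U ∧ PK r T U)) := by
          unfold GR nG
          rw [if_pos h0]
          by_cases hs : cls T U
          · rw [if_pos (show ∑ ρ : {ρ // ρ ∈ U}, eT T ρ * rq (ρ : Ei) = 0 from hs)]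
            exact ⟨fun h => Or.inl ⟨hs, h⟩, fun h => h.elim (fun h => h.2) fun h => absurd hs h.1⟩
          · rw [if_neg (show ¬ ∑ ρ : {ρ // ρ ∈ U}, eT T ρ * rq (ρ : Ei) = 0 from hs)]
            exact ⟨fun h => Or.inr ⟨hs, h⟩, fun h => h.elim (fun h => absurd h.1 hs) fun h => h.2⟩
        rw [hG]
        exact pq_taut _ _ _ _ _
      · rw [Finset.disjoint_left]
        intro U h3 h4
        rw [mem_filter, hmem] at h3 h4
        exact h4.1.2.2 h3.1.2.2
    have e2 : (((SS X).filter fun U => T ⊆ U).card : ℝ) =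
        ((SQ T (cls T) X).card : ℝ) + ((SQ T (fun U => ¬ cls T U) X).card : ℝ) := by
      rw [← Nat.cast_add, ← card_union_of_disjoint]
      · congr 2
        ext U
        rw [mem_union, mem_filter, hmem, hmem]
        exact p_taut _ _ _
      · rw [Finset.disjoint_left]
        intro U h3 h4
        rw [hmem] at h3 h4
        exact h4.2.2 h3.2.2
    rw [e1, e2]
    have h5 := abs_le.1 h1
    have h6 := abs_le.1 h2
    rw [abs_le]
    constructor
    · linarith [h5.1, h6.1]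
    · linarith [h5.2, h6.2]
  · by_cases ha : a = 0
    · have hκ : κ ≠ 0 := fun h => h0 ⟨ha, h⟩
      refine hone _ (datB_2 T hκ) fun U => ?_
      unfold GR nG
      rw [if_neg h0, if_pos ha]
    · by_cases ha1 : a = 1
      · refine hone _ (datB_6 T κ) fun U => ?_
        unfold GR nG
        rw [if_neg h0, if_neg ha, if_pos ha1]
      · refine hone _ (datB_5 T κ) fun U => ?_
        unfold GR nG
        rw [if_neg h0, if_neg ha, if_neg ha1]

/-- **the law for a fixed finite set of primes with exponent two** -/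
theorem s_CFr (r : ℕ) (T : Finset Ei) (hT : ∀ ρ ∈ T, Pq ρ) (a : ℕ) (κ : ZMod 3) :
    Filter.Tendsto (fun X : ℕ =>
    (((SS X).filter fun S => Disjoint S T ∧ GR r a κ T (S ∪ T)).card : ℝ) /
      (((SS X).filter fun S => Disjoint S T).card : ℝ)) Filter.atTop (nhds (cr r)) := by
  obtain ⟨c, X₀, hc, hlow⟩ := low_dis T
  have hN0 : 0 < ∏ π ∈ T, nrm π := Pool.Agent.Helper68.C3.Cnt3.pr_pos hT
  obtain ⟨N, hN⟩ : ∃ N : ℕ, N = ∏ π ∈ T, nrm π := ⟨_, rfl⟩
  rw [← hN] at hN0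
  have hNr : (0 : ℝ) < N := by exact_mod_cast hN0
  rw [Metric.tendsto_nhds]
  intro ε hε
  have h1 := law_T r T a κ (show (0 : ℝ) < ε * c / (2 * N) by positivity)
  have h2 : Tendsto (fun X : ℕ => X * N) atTop atTop :=
    tendsto_id.atTop_mul_const' hN0
  filter_upwards [h2.eventually h1, eventually_ge_atTop (max X₀ 1)] with X hX hX0
  have hX1 : (0 : ℝ) < X := by
    have : 0 < X := by
      have := (le_max_right X₀ 1).trans hX0
      omega
    exact_mod_cast this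
  have hlo := hlow X ((le_max_left _ _).trans hX0)
  have hSpos : (0 : ℝ) < (((SS X).filter fun S => Disjoint S T).card : ℝ) :=
    lt_of_lt_of_le (by positivity) hlo
  have e1 := card_dis hT (fun U => GR r a κ T U) X
  have e2 : ((SS X).filter fun S => Disjoint S T).card =
      ((SS (X * ∏ π ∈ T, nrm π)).filter fun U => T ⊆ U).card := by
    have h := card_dis hT (fun _ => True) X
    simpa only [and_true] using h
  rw [← hN] at e1 e2
  rw [← e1, ← e2] at hX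
  rw [Real.dist_eq]
  obtain ⟨n, hn⟩ : ∃ n : ℝ, n = (((SS X).filter fun S =>
    Disjoint S T ∧ GR r a κ T (S ∪ T)).card : ℝ) := ⟨_, rfl⟩
  obtain ⟨m, hm⟩ : ∃ m : ℝ, m = (((SS X).filter fun S => Disjoint S T).card : ℝ) := ⟨_, rfl⟩
  rw [← hn, ← hm]
  rw [← hn, ← hm] at hX
  rw [← hm] at hSpos hlo
  have e3 : n / m - cr r = (n - cr r * m) / m := by
    field_simp
  rw [e3, abs_div, abs_of_pos hSpos, div_lt_iff₀ hSpos]
  refine lt_of_le_of_lt hX ?_
  push_cast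
  have e4 : ε * c / (2 * N) * (X * N) = ε / 2 * (c * X) := by
    field_simp
  rw [e4]
  have g2 : ε / 2 * (c * X) ≤ ε / 2 * m := mul_le_mul_of_nonneg_left hlo (by positivity)
  have g4 : 0 < ε * m := by positivity
  linarith

end Pool.Agent.Helper68.C10.LR

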