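import Pool.Agent.Helper68.C10.LRc
import Pool.Agent.Helper68.C8.AllCfc
import Pool.Agent.Helper68.C8.AllSq

/-!
# The law for all ranks, part 4: all cube-free elements
-/

set_option autoImplicit false
set_option linter.unusedSectionVars false

open scoped Classical

namespace Pool.Agent.Helper68.C10.LR

open Finset Filter
open Pool.Agent.Y692.QS (Ei w nr)
open Pool.Agent.Y715.T.Gi (lam CF)
open Pool.Agent.Y715.T.RecG (Pq)
open Pool.Agent.Y699.E (nrm)
open Pool.Agent.Y703.XL (cr cr_pos)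
open Pool.Agent.Helper68.C3 (SS Cl)
open Pool.Agent.Helper68.C8.CF (mem_SS)
open Pool.Agent.Helper68.C8.AllCf

/-- **domination** -/
theorem domr (r : ℕ) (G A : Finset Ei → ℕ → ℕ) (a : ℕ) (hA : ∀ T Y, A T Y ≤ (SS Y).card)
    (hG : ∀ T Y, G T Y ≤ A T Y)
    (hlim : ∀ T, (∀ π ∈ T, Pq π) →
      Tendsto (fun Y : ℕ => ((G T Y : ℝ) - cr r * (A T Y : ℝ)) / (Y : ℝ)) atTop (nhds 0)) :
    Tendsto (fun X : ℕ => (∑ T ∈ SS X, ((G T (X / (3 ^ a * NN T ^ 2)) : ℝ) -
      cr r * (A T (X / (3 ^ a * NN T ^ 2)) : ℝ))) / (X : ℝ)) atTop (nhds 0) := by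
  obtain ⟨C, hC, hup⟩ := SS_up
  have hcr : 0 < cr r := cr_pos Pool.Agent.Y703.XL.t_C9 r
  set f : ℕ → Finset Ei → ℝ := fun X T => if Cl T then
    ((G T (X / (3 ^ a * NN T ^ 2)) : ℝ) - cr r * (A T (X / (3 ^ a * NN T ^ 2)) : ℝ)) / (X : ℝ)
    else 0 with hf
  have hz : ∀ T, G T 0 = 0 ∧ A T 0 = 0 := by
    intro T
    have h1 := hA T 0
    rw [SS_zero, Finset.card_empty] at h1
    have h2 := hG T 0
    omega
  have hsum : ∀ X : ℕ, ∑' T, f X T = (∑ T ∈ SS X, ((G T (X / (3 ^ a * NN T ^ 2)) : ℝ) -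
      cr r * (A T (X / (3 ^ a * NN T ^ 2)) : ℝ))) / (X : ℝ) := by
    intro X
    rw [tsum_eq_sum (s := SS X), Finset.sum_div]
    · refine Finset.sum_congr rfl fun T hT => ?_
      rw [hf]
      exact if_pos (mem_SS.1 hT).1
    · intro T hT
      rw [hf]
      show (if Cl T then _ else _) = _
      split_ifs with h
      · have h1 : X < NN T := by
          by_contra h2
          exact hT (mem_SS.2 ⟨h, not_lt.1 h2⟩)
        have h2 : X / (3 ^ a * NN T ^ 2) = 0 := by
          rw [Nat.div_eq_zero_iff]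
          right
          refine lt_of_lt_of_le h1 ?_
          calc NN T ≤ NN T ^ 2 := Nat.le_self_pow two_ne_zero _
            _ ≤ _ := Nat.le_mul_of_pos_left _ (by positivity)
        rw [h2, (hz T).1, (hz T).2]
        simp
      · rfl
  have hbound : ∀ X T, ‖f X T‖ ≤ (1 + cr r) * C *
      (if Cl T then 1 / (NN T : ℝ) ^ 2 else 0) := by
    intro X T
    by_cases h : Cl T
    · have e : f X T = ((G T (X / (3 ^ a * NN T ^ 2)) : ℝ) -
          cr r * (A T (X / (3 ^ a * NN T ^ 2)) : ℝ)) / (X : ℝ) := if_pos h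
      rw [e, if_pos h]
      obtain ⟨Y, hY⟩ : ∃ Y, Y = X / (3 ^ a * NN T ^ 2) := ⟨_, rfl⟩
      rw [← hY]
      have hN := NN_pos h
      have hm : 0 < 3 ^ a * NN T ^ 2 := by positivity
      have h1 : (A T Y : ℝ) ≤ C * Y := (by exact_mod_cast hA T Y : (A T Y : ℝ) ≤ _).trans (hup Y)
      have h2 : (G T Y : ℝ) ≤ A T Y := by exact_mod_cast hG T Y
      have h3 : (0 : ℝ) ≤ G T Y := Nat.cast_nonneg _
      have h4 : |(G T Y : ℝ) - cr r * (A T Y : ℝ)| ≤ (1 + cr r) * (C * Y) := by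
        have h5 : 0 ≤ cr r * (A T Y : ℝ) := mul_nonneg hcr.le (Nat.cast_nonneg _)
        have h6 : cr r * (A T Y : ℝ) ≤ cr r * (C * Y) := mul_le_mul_of_nonneg_left h1 hcr.le
        rw [abs_le]
        constructor <;> nlinarith
      have h7 : (Y : ℝ) * (NN T : ℝ) ^ 2 ≤ X := by
        have h8 : Y * (3 ^ a * NN T ^ 2) ≤ X := by
          rw [hY]
          exact Nat.div_mul_le_self _ _
        have h9 : Y * NN T ^ 2 ≤ Y * (3 ^ a * NN T ^ 2) :=
          Nat.mul_le_mul_left _ (Nat.le_mul_of_pos_left _ (by positivity))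
        exact_mod_cast h9.trans h8
      rw [Real.norm_eq_abs, abs_div, abs_of_nonneg (Nat.cast_nonneg X : (0 : ℝ) ≤ (X : ℝ))]
      rcases Nat.eq_zero_or_pos X with h8 | h8
      · rw [h8]
        simp only [Nat.cast_zero, div_zero]
        positivity
      · have h9 : (0 : ℝ) < X := by exact_mod_cast h8
        have h10 : (0 : ℝ) < (NN T : ℝ) ^ 2 := by
          have : (0 : ℝ) < NN T := by exact_mod_cast hN
          positivity
        rw [div_le_iff₀ h9]
        refine h4.trans ?_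
        rw [mul_one_div, div_mul_eq_mul_div, le_div_iff₀ h10]
        have h11 : 0 ≤ (1 + cr r) * C := by positivity
        calc (1 + cr r) * (C * Y) * (NN T : ℝ) ^ 2 = (1 + cr r) * C * (Y * (NN T : ℝ) ^ 2) := by
              ring
          _ ≤ (1 + cr r) * C * X := mul_le_mul_of_nonneg_left h7 h11
    · have e : f X T = 0 := if_neg h
      rw [e, if_neg h]
      simp
  have hpt : ∀ T, Tendsto (fun X => f X T) atTop (nhds 0) := by
    intro T
    by_cases h : Cl T
    · have hN := NN_pos h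
      have hm : 3 ^ a * NN T ^ 2 ≠ 0 := by positivity
      have h1 := (hlim T h).comp (Nat.tendsto_div_const_atTop (n := 3 ^ a * NN T ^ 2) hm)
      have h2 := h1.norm
      rw [norm_zero] at h2
      refine squeeze_zero_norm (fun X => ?_) h2
      have e : f X T = ((G T (X / (3 ^ a * NN T ^ 2)) : ℝ) -
          cr r * (A T (X / (3 ^ a * NN T ^ 2)) : ℝ)) / (X : ℝ) := if_pos h
      rw [e]
      show _ ≤ ‖((G T (X / (3 ^ a * NN T ^ 2)) : ℝ) -
          cr r * (A T (X / (3 ^ a * NN T ^ 2)) : ℝ)) / ((X / (3 ^ a * NN T ^ 2) : ℕ) : ℝ)‖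
      obtain ⟨Y, hY⟩ : ∃ Y, Y = X / (3 ^ a * NN T ^ 2) := ⟨_, rfl⟩
      rw [← hY, norm_div, norm_div]
      rcases Nat.eq_zero_or_pos Y with h8 | h8
      · rw [h8, (hz T).1, (hz T).2]
        simp
      · have h9 : (0 : ℝ) < Y := by exact_mod_cast h8
        have h10 : Y ≤ X := by
          rw [hY]
          exact Nat.div_le_self _ _
        refine div_le_div_of_nonneg_left (norm_nonneg _) (norm_pos_iff.2 h9.ne') ?_
        rw [Real.norm_eq_abs, Real.norm_eq_abs, abs_of_pos h9, abs_of_nonneg (Nat.cast_nonneg X)]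
        exact_mod_cast h10
    · have e : ∀ X, f X T = 0 := fun X => if_neg h
      simp only [e]
      exact tendsto_const_nhds
  have hfin := tendsto_tsum_of_dominated_convergence (f := f) (g := fun _ => (0 : ℝ))
    (bound := fun T => (1 + cr r) * C * (if Cl T then 1 / (NN T : ℝ) ^ 2 else 0))
    (summ.mul_left _) hpt (Eventually.of_forall hbound)
  rw [tsum_zero] at hfin
  refine hfin.congr fun X => hsum X



/-- the number of all the sets -/
noncomputable def AA (T : Finset Ei) (Y : ℕ) : ℕ := ((SS Y).filter fun S => Disjoint S T).card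

lemma AA_le (T : Finset Ei) (Y : ℕ) : AA T Y ≤ (SS Y).card := Finset.card_filter_le _ _

lemma filter_and_le (Y : ℕ) (T : Finset Ei) (P : Finset Ei → Prop) :
    ((SS Y).filter fun S => Disjoint S T ∧ P S).card ≤ AA T Y := by
  refine Finset.card_le_card fun S hS => ?_
  rw [Finset.mem_filter] at hS ⊢
  exact ⟨hS.1, hS.2.1⟩

/-- the number of the good sets -/
noncomputable def GGr (Q : Ei → Prop) (s : Bool) (a : ℕ) (κ : ZMod 3) (T : Finset Ei) (Y : ℕ) : ℕ :=
  ((SS Y).filter fun S => Disjoint S T ∧ Q (el s a κ T (S ∪ T))).card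

/-- the number of the sets with the criterion -/
noncomputable def CCr (r a : ℕ) (κ : ZMod 3) (T : Finset Ei) (Y : ℕ) : ℕ :=
  ((SS Y).filter fun S => Disjoint S T ∧ GR r a κ T (S ∪ T)).card

/-- the property of the elements agrees with the number of solutions -/
def Agr (r : ℕ) (Q : Ei → Prop) : Prop :=
  ∀ (s : Bool) (a : ℕ) (κ : ZMod 3) (T S : Finset Ei), a < 3 → (∀ π ∈ S, Pq π) →
    (∀ π ∈ T, Pq π) → S.Nonempty → Disjoint S T → (Q (el s a κ T (S ∪ T)) ↔ GR r a κ T (S ∪ T))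

lemma GG_CCr {r : ℕ} {Q : Ei → Prop} (hQ : Agr r Q) (s : Bool) {a : ℕ} (ha : a < 3) (κ : ZMod 3)
    {T : Finset Ei} (hT : ∀ π ∈ T, Pq π) (Y : ℕ) :
    GGr Q s a κ T Y ≤ CCr r a κ T Y + 1 ∧ CCr r a κ T Y ≤ GGr Q s a κ T Y + 1 := by
  constructor
  · exact Pool.Agent.Helper68.C8.AllSq.card_near _ _ _ fun S hS hne h =>
      ⟨h.1, (hQ s a κ T S ha (mem_SS.1 hS).1 hT hne h.1).1 h.2⟩
  · exact Pool.Agent.Helper68.C8.AllSq.card_near _ _ _ fun S hS hne h =>
      ⟨h.1, (hQ s a κ T S ha (mem_SS.1 hS).1 hT hne h.1).2 h.2⟩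

lemma lim_CCr (r a : ℕ) (κ : ZMod 3) {T : Finset Ei} (hT : ∀ π ∈ T, Pq π) :
    Tendsto (fun Y : ℕ => ((CCr r a κ T Y : ℝ) - cr r * (AA T Y : ℝ)) / (Y : ℝ)) atTop
      (nhds 0) := by
  obtain ⟨C, hC, hup⟩ := SS_up
  have h1 : Tendsto (fun Y : ℕ => (CCr r a κ T Y : ℝ) / (AA T Y : ℝ) - cr r) atTop (nhds 0) := by
    have h := (s_CFr r T hT a κ).sub_const (cr r)
    rw [sub_self] at h
    exact h
  have h2 : Tendsto (fun Y : ℕ => C * |(CCr r a κ T Y : ℝ) / (AA T Y : ℝ) - cr r|) atTop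
      (nhds 0) := by
    have h := (h1.abs).const_mul C
    rwa [abs_zero, mul_zero] at h
  refine squeeze_zero_norm (fun Y => ?_) h2
  have hle : (AA T Y : ℝ) ≤ C * Y := (by exact_mod_cast AA_le T Y : (AA T Y : ℝ) ≤ _).trans (hup Y)
  rcases Nat.eq_zero_or_pos (AA T Y) with h | h
  · have h5 : CCr r a κ T Y = 0 := by
      have := filter_and_le Y T fun S => GR r a κ T (S ∪ T)
      unfold CCr
      omega
    rw [h, h5]
    simp only [Nat.cast_zero, mul_zero, sub_zero, zero_div, norm_zero]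
    positivity
  · have h6 : (0 : ℝ) < AA T Y := by exact_mod_cast h
    have hY : (0 : ℝ) < Y := by
      by_contra h7
      have h8 : (Y : ℝ) = 0 := le_antisymm (not_lt.1 h7) (Nat.cast_nonneg _)
      rw [h8, mul_zero] at hle
      linarith
    have e : ((CCr r a κ T Y : ℝ) - cr r * (AA T Y : ℝ)) / (Y : ℝ) =
        ((AA T Y : ℝ) / Y) * ((CCr r a κ T Y : ℝ) / (AA T Y : ℝ) - cr r) := by
      field_simp
    rw [e, norm_mul, Real.norm_eq_abs, Real.norm_eq_abs, abs_of_nonneg (by positivity)]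
    refine mul_le_mul_of_nonneg_right ?_ (abs_nonneg _)
    rw [div_le_iff₀ hY]
    exact hle

lemma lim_GGr {r : ℕ} {Q : Ei → Prop} (hQ : Agr r Q) (s : Bool) {a : ℕ} (ha : a < 3)
    (κ : ZMod 3) {T : Finset Ei} (hT : ∀ π ∈ T, Pq π) :
    Tendsto (fun Y : ℕ => ((GGr Q s a κ T Y : ℝ) - cr r * (AA T Y : ℝ)) / (Y : ℝ)) atTop
      (nhds 0) := by
  have h1 : Tendsto (fun Y : ℕ => ((GGr Q s a κ T Y : ℝ) - (CCr r a κ T Y : ℝ)) / (Y : ℝ)) atTop
      (nhds 0) := by
    refine squeeze_zero_norm (a := fun Y : ℕ => 1 / (Y : ℝ)) (fun Y => ?_)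
      tendsto_one_div_atTop_nhds_zero_nat
    obtain ⟨h5, h6⟩ := GG_CCr hQ s ha κ hT Y
    rw [Real.norm_eq_abs, abs_div, abs_of_nonneg (Nat.cast_nonneg Y : (0 : ℝ) ≤ (Y : ℝ))]
    apply div_le_div_of_nonneg_right _ (Nat.cast_nonneg Y)
    have h7 : (GGr Q s a κ T Y : ℝ) ≤ CCr r a κ T Y + 1 := by exact_mod_cast h5
    have h8 : (CCr r a κ T Y : ℝ) ≤ GGr Q s a κ T Y + 1 := by exact_mod_cast h6
    rw [abs_le]
    constructor <;> linarith
  have h2 := h1.add (lim_CCr r a κ hT)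
  rw [add_zero] at h2
  refine h2.congr fun Y => ?_
  ring

/-- **the proportion among all the cube-free elements** -/
theorem lim_all (r : ℕ) (Q : Ei → Prop) (hQ : Agr r Q) :
    Tendsto (fun X : ℕ => ({z : Ei | nr z ≤ X ∧ CF z ∧ Q z}.ncard : ℝ) /
      ({z : Ei | nr z ≤ X ∧ CF z}.ncard : ℝ)) atTop (nhds (cr r)) := by
  -- the counts
  let t : ℕ → ℕ := fun X => {z : Ei | nr z ≤ X ∧ CF z}.ncard
  let g : ℕ → ℕ := fun X => {z : Ei | nr z ≤ X ∧ CF z ∧ Q z}.ncard
  have ht : ∀ X, t X = ∑ s : Bool, ∑ a ∈ range 3, ∑ κ : ZMod 3, ∑ T ∈ SS X,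
      AA T (X / (3 ^ a * NN T ^ 2)) := by
    intro X
    have h2 := count X (fun _ => True)
    simp only [and_true] at h2
    exact h2
  have hg : ∀ X, g X = ∑ s : Bool, ∑ a ∈ range 3, ∑ κ : ZMod 3, ∑ T ∈ SS X,
      GGr Q s a κ T (X / (3 ^ a * NN T ^ 2)) := by
    intro X
    exact count X Q
  -- the difference
  have hdiff : Tendsto (fun X : ℕ => ((g X : ℝ) - cr r * (t X : ℝ)) / (X : ℝ)) atTop
      (nhds 0) := by
    have h1 : Tendsto (fun X : ℕ => ∑ s : Bool, ∑ a ∈ range 3, ∑ κ : ZMod 3,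
        (∑ T ∈ SS X, ((GGr Q s a κ T (X / (3 ^ a * NN T ^ 2)) : ℝ) -
          cr r * (AA T (X / (3 ^ a * NN T ^ 2)) : ℝ))) / (X : ℝ)) atTop
        (nhds (∑ _s : Bool, ∑ _a ∈ range 3, ∑ _κ : ZMod 3, (0 : ℝ))) := by
      refine tendsto_finsetSum _ fun s _ => tendsto_finsetSum _ fun a ha =>
        tendsto_finsetSum _ fun κ _ => ?_
      exact domr r (GGr Q s a κ) AA a AA_le (fun T Y => filter_and_le Y T _)
        fun T hT => lim_GGr hQ s (Finset.mem_range.1 ha) κ hT
    simp only [Finset.sum_const_zero] at h1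
    refine h1.congr fun X => ?_
    rw [ht, hg]
    push_cast
    simp only [Finset.mul_sum, ← Finset.sum_div, ← Finset.sum_sub_distrib]
  -- the lower bound
  obtain ⟨c, X₀, hc, hlow⟩ := Pool.Agent.Helper68.C3.Asy3.t_LOW
  have hlo : ∀ X : ℕ, X₀ ≤ X → c * X ≤ (t X : ℝ) := by
    intro X hX
    refine (hlow X hX).trans ?_
    have h1 : (SS X).card ≤ t X := by
      rcases Nat.eq_zero_or_pos X with h | h
      · rw [h, SS_zero]
        exact Nat.zero_le _
      have hmem : (∅ : Finset Ei) ∈ SS X := by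
        rw [mem_SS]
        refine ⟨fun π hπ => absurd hπ (Finset.notMem_empty _), ?_⟩
        rw [Finset.prod_empty]
        exact h
      have e : (SS X).card = AA ∅ (X / (3 ^ 0 * NN ∅ ^ 2)) := by
        unfold AA NN
        rw [Finset.prod_empty, one_pow, pow_zero, one_mul, Nat.div_one]
        congr 1
        refine (Finset.filter_true_of_mem fun S _ => ?_).symm
        exact Finset.disjoint_empty_right _
      rw [ht, e]
      refine le_trans ?_ (Finset.single_le_sum (f := fun s : Bool => ∑ a ∈ range 3,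
        ∑ κ : ZMod 3, ∑ T ∈ SS X, AA T (X / (3 ^ a * NN T ^ 2)))
        (fun _ _ => Nat.zero_le _) (Finset.mem_univ true))
      refine le_trans ?_ (Finset.single_le_sum (f := fun a : ℕ =>
        ∑ κ : ZMod 3, ∑ T ∈ SS X, AA T (X / (3 ^ a * NN T ^ 2)))
        (fun _ _ => Nat.zero_le _) (Finset.mem_range.2 (show 0 < 3 by norm_num)))
      refine le_trans ?_ (Finset.single_le_sum (f := fun κ : ZMod 3 =>
        ∑ T ∈ SS X, AA T (X / (3 ^ 0 * NN T ^ 2)))
        (fun _ _ => Nat.zero_le _) (Finset.mem_univ 0))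
      exact Finset.single_le_sum (f := fun T => AA T (X / (3 ^ 0 * NN T ^ 2)))
        (fun _ _ => Nat.zero_le _) hmem
    exact_mod_cast h1
  -- the limit
  have hlim : Tendsto (fun X : ℕ => (g X : ℝ) / (t X : ℝ) - cr r) atTop (nhds 0) := by
    have h1 : Tendsto (fun X : ℕ => |((g X : ℝ) - cr r * (t X : ℝ)) / (X : ℝ)| * (1 / c)) atTop
        (nhds 0) := by
      have h := (hdiff.abs).mul_const (1 / c)
      rwa [abs_zero, zero_mul] at h
    refine squeeze_zero_norm' ?_ h1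
    filter_upwards [eventually_ge_atTop (max X₀ 1)] with X hX
    have hX1 : (0 : ℝ) < X := by
      have : 0 < X := by
        have := (le_max_right X₀ 1).trans hX
        omega
      exact_mod_cast this
    have h2 := hlo X ((le_max_left _ _).trans hX)
    have h3 : (0 : ℝ) < t X := lt_of_lt_of_le (by positivity) h2
    have e : (g X : ℝ) / (t X : ℝ) - cr r =
        (((g X : ℝ) - cr r * (t X : ℝ)) / (X : ℝ)) * ((X : ℝ) / (t X : ℝ)) := by
      field_simp
    rw [e, norm_mul, Real.norm_eq_abs, Real.norm_eq_abs]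
    refine mul_le_mul_of_nonneg_left ?_ (abs_nonneg _)
    rw [abs_of_nonneg (by positivity), div_le_div_iff₀ h3 hc]
    linarith
  have h5 := hlim.add_const (cr r)
  rw [zero_add] at h5
  refine h5.congr fun X => ?_
  rw [sub_add_cancel]

end Pool.Agent.Helper68.C10.LR
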