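import Pool.Agent.Helper68.C10.SN7

/-!
# The order of the Selmer group for `D = w^κ ∏ π_j^(e_j)`
-/

set_option autoImplicit false
set_option linter.unusedSectionVars false
set_option linter.unusedVariables false

open scoped Classical

namespace Pool.Agent.Helper68.C10.SN2

open Pool.Agent.Y692.QS (Ei w nr)
open Pool.Agent.Y715.T.Gi Pool.Agent.Y715.T.Nr Pool.Agent.Y715.T.Df
open Pool.Agent.Y715.T.Rec (cs)
open Pool.Agent.Y715.T.RecG
open Pool.Agent.Y715.T.Sel (fac kc_mul kc_one kc_congr kc_pow kc_cube kc_uniq kc_cancel kc_unit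
  kc_exp ex_root root_ne iota_sq iota_ev odd_of not_dvd_of_unr resid_kc exists_emb3)
open Pool.Agent.Y703.CT
open Pool.Agent.Y48.CT.SEL
open Pool.Agent.Helper68.C2
open Pool.Agent.Helper68.C2.Chr (tq tq_prim)
open Pool.Agent.Helper68.C2.LK2 (cs_w w_unit not_dvd_w)
open Pool.Agent.Helper68.C2.Sel2
open Pool.Agent.Helper68.C2.Selc2
open Pool.Agent.Helper68.C7.Selc7 (exp_zero7)
open Pool.Agent.Helper68.C10 Pool.Agent.Helper68.C10.Gen10
open Pool.Agent.XL6 (SelH)

variable {J : Type} [Fintype J] {π : J → Ei} {e : J → ZMod 3} {κ : ZMod 3}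
variable {i₀ : QB} {hi : i₀ ^ 2 + i₀ + 1 = 0}

/-- a Selmer character satisfies the equations (from the proof of `sel2`) -/
theorem gen2 (hD : Dt π e) (hκ : κ ≠ 0) {u : QB} {a : GK i₀ → ZMod 3}
    (hTw : Tw hi (pD2 π e κ) u a) {h : GK i₀ → ZMod 3} (hs : h ∈ SelH hi a) :
    ∃ y : Option J → ZMod 3,
      (fun j => ew e κ (some j) * y (some j) - ew e κ none * y none) ∈ V2 π e κ ∧
      Kc hi (∏ o, pw π o ^ (y o).val) h := by
  obtain ⟨hc, hm, hloc⟩ := hs
  have hD0 : pD2 π e κ ≠ 0 := pD2_ne hD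
  -- the character `a`
  have hb : Kc hi (∏ o, pw π o ^ (ew e κ o).val) (fun σ => -a σ) := by
    rw [← pD2_eq]
    exact kc_of hi (root_ne (hi := hi) hD0 hTw.cube) hTw.cube hTw.act
  -- the Kummer generator
  obtain ⟨z, hz, hzh⟩ := kum hi h hc hm
  obtain ⟨v₀, g, x₀, hu, ez⟩ := fac (π := π) z hz.1 (support hD hz hzh
    (fun p _ ι hp3 hpj τ σ hcc hτ => by
      obtain ⟨R, hR⟩ := hloc p ι
      exact (Ram2.unr hp3 hD0 hTw (norm_pD2_one ι hpj) hR τ σ hcc hτ).2))
  rw [ez] at hzh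
  obtain ⟨ι₃⟩ := exists_emb3
  obtain ⟨q, hq⟩ := prod_form hD x₀
  have hq' : ∏ j, π j ^ x₀ j = 1 + 3 * q := by rw [← hq]; ring
  obtain ⟨ε, n, hε, hv₀⟩ := Pool.Agent.Y715.T.Thr.unit_cases hu
  have hx : ∃ x : Option J → ℕ, Kc hi (∏ o, pw π o ^ x o) h := by
    refine ⟨fun o => o.elim n.val x₀, ?_⟩
    rw [prod_pw]
    show Kc hi (w ^ n.val * ∏ j, π j ^ x₀ j) h
    obtain ⟨R, hR⟩ := hloc 3 ι₃
    have hzh' := hzh
    rw [hq'] at hzh'
    obtain ⟨g', hg'⟩ := Loc3b.core3b (not_lam_pD2 hD) hTw hu hzh' hR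
    refine kc_unit (mul_ne_zero (w_unit.pow _).ne_zero (pr0 hD _)) hε (kc_cancel (z' := lam ^ g') ?_
      (pow_ne_zero _ prime_lam.ne_zero) ?_)
    · refine mul_ne_zero ?_ (mul_ne_zero (w_unit.pow _).ne_zero (pr0 hD _))
      rcases hε with rfl | rfl
      · exact one_ne_zero
      · exact neg_ne_zero.2 one_ne_zero
    · have e1 : ε * (w ^ n.val * ∏ j, π j ^ x₀ j) * (lam ^ g') ^ 3 =
          v₀ * lam ^ g * ∏ j, π j ^ x₀ j := by
        rw [hg', hv₀, ← pow_mul, mul_comm g' 3]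
        ring
      rw [e1]
      exact hzh
  obtain ⟨x, hx⟩ := hx
  set v : Option J → ZMod 3 := fun o => x o * ew e κ o with hv
  have hxv : ∀ o, (x o : ZMod 3) = ew e κ o * v o := by
    intro o
    have := esqw (κ := κ) hD hκ o
    calc (x o : ZMod 3) = x o * (ew e κ o * ew e κ o) := by rw [this, mul_one]
      _ = _ := by rw [hv]; ring
  have heq : ∀ j : J, ∑ i, e i * cs (π j) (π i) * (v (some i) - v (some j)) =
      κ * rq (π j) * (v none - v (some j)) := by
    intro j
    obtain ⟨p, hp, ι, hl⟩ := exists_emb hi (hD.pq j).prime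
    have hp3 := odd_of hi ι (hD.pq j).prime hl (not_assoc_lam (hD.pq j))
    obtain ⟨R, hR⟩ := hloc p ι
    have hej : ¬ 3 ∣ (e j).val := by
      have h6 : (e j).val < 3 := ZMod.val_lt _
      have h7 : (e j).val ≠ 0 := by
        intro h8
        exact hD.e0 j ((ZMod.val_eq_zero _).1 h8)
      omega
    obtain ⟨ε, hε⟩ := Ram2.ram hp3 hD0 hTw hej (norm_pD2_j hD hp3 ι j hl) hR
    -- the character that is trivial at `π j`
    set n : ℕ := ε.val with hn
    have hn3 : (n : ZMod 3) = ε := ZMod.natCast_zmod_val _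
    have hy := kc_mul (pr0w hD x) (pow_ne_zero n (pr0w hD _)) hx (kc_pow (pr0w hD _) hb n)
    have hy1 : ∀ (τ : Au p) (σ : GK i₀), Cmp ι τ σ → h σ + n * -a σ = 0 := by
      intro τ σ hcc
      rw [hε τ σ hcc, hn3]
      ring
    have ey : (∏ o, pw π o ^ x o) * (∏ o, pw π o ^ (ew e κ o).val) ^ n =
        ∏ o, pw π o ^ (x o + (ew e κ o).val * n) := by
      rw [← Finset.prod_pow, ← Finset.prod_mul_distrib]
      refine Finset.prod_congr rfl fun i _ => ?_
      rw [← pow_mul, ← pow_add]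
    rw [ey] at hy
    set y : Option J → ZMod 3 := fun o => x o + ew e κ o * ε with hydef
    have hy2 : Kc hi (∏ o, pw π o ^ (y o).val) (fun σ => h σ + n * -a σ) := by
      refine kc_exp (pw_ne hD) (fun o => ?_) hy
      rw [ZMod.natCast_zmod_val, hydef]
      push_cast
      rw [hn3, ZMod.natCast_zmod_val]
    have hyj : y (some j) = 0 := by
      have h1 := not_dvd_of_unr (cf_prodw hD y) hy2 hp3 ι (hD.pq j).prime hl
        (fun τ σ hcc _ => hy1 τ σ hcc)
      by_contra hne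
      apply h1
      refine dvd_trans (dvd_pow_self (π j) ?_) (Finset.dvd_prod_of_mem
        (fun o => pw π o ^ (y o).val) (Finset.mem_univ (some j)))
      rwa [Ne, ZMod.val_eq_zero]
    have hεv : ε = -v (some j) := by
      have h1 : (x (some j) : ZMod 3) + ew e κ (some j) * ε = 0 := hyj
      have h2 := esqw (κ := κ) hD hκ (some j)
      rw [hxv (some j)] at h1
      calc ε = (ew e κ (some j) * ew e κ (some j)) * ε := by rw [h2, one_mul]
        _ = ew e κ (some j) * (ew e κ (some j) * v (some j) + ew e κ (some j) * ε) -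
            (ew e κ (some j) * ew e κ (some j)) * v (some j) := by ring
        _ = _ := by rw [h1, h2]; ring
    have hyi : ∀ o, y o = ew e κ o * (v o - v (some j)) := by
      intro i
      rw [hydef]
      change (x i : ZMod 3) + ew e κ i * ε = _
      rw [hxv i, hεv]
      ring
    have e2 : ∏ o, pw π o ^ (y o).val =
        ∏ o ∈ Finset.univ.erase (some j), pw π o ^ (y o).val := by
      rw [← Finset.mul_prod_erase Finset.univ (fun o => pw π o ^ (y o).val)
        (Finset.mem_univ (some j)), hyj, ZMod.val_zero, pow_zero, one_mul]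
    rw [e2] at hy2
    have hcube := resid_kc hy2 hp3 ι (hD.pq j).prime hl hy1
    have hnd := not_dvd_prodw hD j (fun o => (y o).val)
    have h9 := (hD.pq j).norm
    have hpj := (hD.pq j).prime
    have hcs := (cs_zero_iff hpj h9 hnd).2 hcube
    have hnd1 : ∀ i ∈ Finset.univ.erase (some j), ¬ π j ∣ pw π i := fun i hij =>
      ndw hD j i (Finset.ne_of_mem_erase hij)
    rw [cs_prod hpj h9 _ _ (fun i hij h1 => hnd1 i hij (hpj.dvd_of_dvd_pow h1))] at hcs
    have h10 : ∑ o : Option J, ew e κ o * cs (π j) (pw π o) * (v o - v (some j)) = 0 := by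
      rw [← Finset.add_sum_erase Finset.univ _ (Finset.mem_univ (some j)), sub_self, mul_zero,
        zero_add, ← hcs]
      refine Finset.sum_congr rfl fun i hij => ?_
      rw [cs_pow hpj h9 (hnd1 i hij), ZMod.natCast_zmod_val, hyi i]
      ring
    rw [Fintype.sum_option] at h10
    have h11 : cs (π j) (pw π none) = -rq (π j) := by
      rw [pw_none, cs_w (hD.pq j), tq_prim (hD.pq j).three]
    rw [h11] at h10
    have h12 : ∑ i, e i * cs (π j) (π i) * (v (some i) - v (some j)) =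
        -(κ * -rq (π j) * (v none - v (some j))) := by
      rw [← zero_sub, ← h10]
      simp only [ew_none, ew_some, pw_some]
      ring
    rw [h12]
    ring
  have hev : ∀ o, ew e κ o * (x o : ZMod 3) = v o := fun o => by
    rw [hv]
    ring
  refine ⟨fun o => (x o : ZMod 3), fun j => ?_, kc_exp (pw_ne hD) (fun o => ?_) hx⟩
  · simp only [hev]
    have h3 : ∀ i, v (some i) - v none - (v (some j) - v none) = v (some i) - v (some j) :=
      fun i => by ring
    simp only [h3]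
    rw [heq j]
    ring
  · rw [ZMod.natCast_zmod_val]

/-- `w^κ = 1` modulo `√-3` -/
lemma wpow (κ : ZMod 3) : ∃ m : Ei, w ^ κ.val = 1 + lam * m := by
  have h : ∀ c : ZMod 3, c = 0 ∨ c = 1 ∨ c = 2 := by decide
  rcases h κ with rfl | rfl | rfl
  · exact ⟨0, by decide⟩
  · exact ⟨1 + w, by decide⟩
  · exact ⟨w, by decide⟩

/-- kernel vectors give locally solvable characters (from the proof of `selc2`) -/
theorem kloc2 (hD : Dt π e) (hκ : κ ≠ 0) {u : QB} {a : GK i₀ → ZMod 3}
    (hTw : Tw hi (pD2 π e κ) u a) {v : J → ZMod 3} (hv : v ∈ V2 π e κ)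
    {h : GK i₀ → ZMod 3} (hKc : Kc hi (∏ j, π j ^ (e j * v j).val) h)
    (p : ℕ) [Fact p.Prime] (ι : QB →ₐ[ℚ] PadicAlgCl p) : ∃ R, St1 hi ι a h R := by
  obtain ⟨m, hDm⟩ : ∃ m, pD2 π e κ = 1 + lam * m := by
    obtain ⟨m, hm⟩ := wpow κ
    obtain ⟨q, hq⟩ := prod_form hD (fun j => (e j).val)
    have hq' : pD π e = 1 + 3 * q := by
      unfold pD
      rw [← hq]
      ring
    refine ⟨m + -(lam * q) * (1 + lam * m), ?_⟩
    unfold pD2
    rw [hm, hq']
    have := lam_sq
    linear_combination (q * (1 + lam * m)) * this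
  set v' : Option J → ZMod 3 := fun o => o.elim 0 v with hv'
  have hBo : ∏ o, pw π o ^ (ew e κ o * v' o).val = ∏ j, π j ^ (e j * v j).val := by
    rw [prod_pw]
    show w ^ (κ * 0).val * _ = _
    rw [mul_zero, ZMod.val_zero, pow_zero, one_mul]
    rfl
  rw [← hBo] at hKc
  have hB0 : (∏ o, pw π o ^ (ew e κ o * v' o).val) ≠ 0 := pr0w hD _
  have hD0 : pD2 π e κ ≠ 0 := pD2_ne hD
  obtain ⟨b, hb⟩ := form_B hD (sum_zero hD hκ hv)
  by_cases hp3 : p = 3
  · subst hp3
    refine Pool.Agent.Y674.CT.t_PT i₀ hi _ _ hB0 hD0 u a hTw _ hKc 3 ι ?_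
    exact cub3 (iota_sq' hi ι) (by rw [hBo]; exact hb) hDm
  · by_cases hj : ∃ j, ‖ι (ev i₀ hi (π j))‖ < 1
    · obtain ⟨j, hj⟩ := hj
      refine ramc hD hTw v' _ hKc j ?_ p ι hp3 hj
      rw [Fintype.sum_option]
      have h11 : cs (π j) (pw π none) = -rq (π j) := by
        rw [pw_none, cs_w (hD.pq j), tq_prim (hD.pq j).three]
      rw [h11]
      have h12 := hv j
      show κ * -rq (π j) * (0 - v j) + ∑ i, e i * cs (π j) (π i) * (v i - v j) = 0
      rw [h12]
      ring
    · have hj' : ∀ o, ¬ ‖ev (ι i₀) (iota_sq' hi ι) (pw π o)‖ < 1 := by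
        rintro (_ | j) h1
        · rw [pw_none, norm_unit _ w_unit] at h1
          exact lt_irrefl _ h1
        · apply hj
          refine ⟨j, ?_⟩
          rw [iota_ev]
          exact h1
      refine Pool.Agent.Y674.CT.t_PT i₀ hi _ _ hB0 hD0 u a hTw _ hKc p ι
        (Pool.Agent.Y379.CT.t_CUB Pool.Agent.Y319.CT.t_FF p hp3 (ι i₀) (iota_sq' hi ι) _ _
          (Pool.Agent.Y363.CT.SELC.not_lt_prod _ hj' _) ?_)
      rw [pD2_eq]
      exact Pool.Agent.Y363.CT.SELC.not_lt_prod _ hj' _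

/-- `D` is not a cube -/
theorem a_ne2 (hD : Dt π e) (hκ : κ ≠ 0) {u : QB} {a : GK i₀ → ZMod 3}
    (hT : Tw hi (pD2 π e κ) u a) : ∃ σ, a σ ≠ 0 := by
  by_contra hcon
  push Not at hcon
  have hD0 : pD2 π e κ ≠ 0 := pD2_ne hD
  have hb : Kc hi (∏ o, pw π o ^ (ew e κ o).val) (fun σ => -a σ) := by
    rw [← pD2_eq]
    exact kc_of hi (root_ne (hi := hi) hD0 hT.cube) hT.cube hT.act
  exact hκ (exp_zero7 hD _ hb (fun σ => by rw [hcon σ, neg_zero]) none)

/-- **SN2** -/
theorem s_SN2 : S_SN2 := by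
  intro J _ π e κ hD hκ i₀ hi u a hTw
  have hE : ∀ o, ew e κ o ≠ 0 := by
    rintro (_ | j)
    · exact hκ
    · exact hD.e0 j
  rw [← card_opt (V2 π e κ) (ew e κ) hE]
  refine sel_card_gen (P := pw π) (pw_ne hD) _ (fun y h hk h0 o => exp_zero7 hD y hk h0 o)
    (fun h hs => gen2 hD hκ hTw hs) fun y hy h hk p _ ι => ?_
  have hy : (fun j => ew e κ (some j) * y (some j) - ew e κ none * y none) ∈ V2 π e κ := hy
  set v : J → ZMod 3 := fun j => ew e κ (some j) * y (some j) - ew e κ none * y none with hv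
  have hD0 : pD2 π e κ ≠ 0 := pD2_ne hD
  have hb : Kc hi (∏ o, pw π o ^ (ew e κ o).val) (fun σ => -a σ) := by
    rw [← pD2_eq]
    exact kc_of hi (root_ne (hi := hi) hD0 hTw.cube) hTw.cube hTw.act
  have h1 := kc_add (pw_ne hD) hk (kc_smul (pw_ne hD) hb (-(κ * y none)))
  have e1 : ∏ o, pw π o ^ (y o + -(κ * y none) * ew e κ o).val = ∏ j, π j ^ (e j * v j).val := by
    rw [prod_pw]
    have e2 : y none + -(κ * y none) * ew e κ none = 0 := by
      have h3 : κ * κ = 1 := esqw hD hκ none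
      rw [ew_none]
      linear_combination -(y none) * h3
    rw [e2, ZMod.val_zero, pow_zero, one_mul]
    refine Finset.prod_congr rfl fun j _ => ?_
    congr 2
    have h3 : e j * e j = 1 := esq hD j
    rw [hv]
    show y (some j) + -(κ * y none) * e j = e j * (e j * y (some j) - κ * y none)
    linear_combination -(y (some j)) * h3
  rw [e1] at h1
  have h2 := kloc2 hD hκ hTw hy h1 p ι
  have h3 := st1_shift h2 (-(κ * y none))
  have e3 : (fun σ => h σ + -(κ * y none) * -a σ + -(κ * y none) * a σ) = h := by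
    funext σ
    ring
  rw [e3] at h3
  exact h3

end Pool.Agent.Helper68.C10.SN2
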