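import Pool.Agent.Helper68.C10.Gen10
import Pool.Agent.Helper68.C5.Selc5

/-!
# The order of the Selmer group for `D = 3 w^κ ∏ π_j^(e_j)`
-/

set_option autoImplicit false
set_option linter.unusedSectionVars false
set_option linter.unusedVariables false

open scoped Classical

namespace Pool.Agent.Helper68.C10.SN5

open WeierstrassCurve
open Pool.Agent.Y692.QS (Ei w nr)
open Pool.Agent.Y715.T.Gi Pool.Agent.Y715.T.Nr Pool.Agent.Y715.T.Df Pool.Agent.Y715.T.Ell
open Pool.Agent.Y715.T.Rec (cs)
open Pool.Agent.Y715.T.RecG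
open Pool.Agent.Y715.T.Sel (fac kc_mul kc_one kc_congr kc_pow kc_cube kc_uniq kc_cancel kc_unit
  kc_exp ex_root root_ne iota_sq iota_ev odd_of not_dvd_of_unr resid_kc exists_emb3)
open Pool.Agent.Y703.CT
open Pool.Agent.Y48.CT.SEL
open Pool.Agent.Helper68.C5 Pool.Agent.Helper68.C5.Sel5 Pool.Agent.Helper68.C5.Selc5
open Pool.Agent.Helper68.C5.Chr5 (ts)
open Pool.Agent.Helper68.C5.Sup5 (cs_pD)
open Pool.Agent.Helper68.C2.LK2 (w_unit not_dvd_w)
open Pool.Agent.Helper68.C2.Sel2 (norm_unit)
open Pool.Agent.Helper68.C10 Pool.Agent.Helper68.C10.Gen10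
open Pool.Agent.XL6 (SelH)

variable {J : Type} [Fintype J] {π : J → Ei} {e : J → ZMod 3} {κ : ZMod 3}
variable {i₀ : QB} {hi : i₀ ^ 2 + i₀ + 1 = 0}

/-- a Selmer character satisfies the equations (from the proof of `sel5`) -/
theorem gen5 (hD : Dt π e) {u : QB} {a : GK i₀ → ZMod 3}
    (hTw : Tw hi (pD5 π e κ) u a) {h : GK i₀ → ZMod 3} (hs : h ∈ SelH hi a) :
    ∃ y : Option J → ZMod 3, (∀ j : J, ∑ i, e i * cs (π j) (π i) *
      (ew e (some i) * y (some i) - ew e (some j) * y (some j)) =
      -(ts κ (π j) * (ew e none * y none - ew e (some j) * y (some j)))) ∧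
      Kc hi (∏ o, pw π κ o ^ (y o).val) h := by
  obtain ⟨hc, hm, hloc⟩ := hs
  have hD0 : pD5 π e κ ≠ 0 := pD5_ne hD
  -- the character `a`
  have hb : Kc hi (∏ o, pw π κ o ^ (ew e o).val) (fun σ => -a σ) := by
    rw [← pD5_eq]
    exact kc_of hi (root_ne (hi := hi) hD0 hTw.cube) hTw.cube hTw.act
  -- the Kummer generator
  obtain ⟨z, hz, hzh⟩ := kum hi h hc hm
  obtain ⟨v₀, g, x₀, hu, ez⟩ := fac (π := π) z hz.1 (support hD hz hzh
    (fun p _ ι hp3 hpj τ σ hcc hτ => by
      obtain ⟨R, hR⟩ := hloc p ι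
      exact (Pool.Agent.Helper68.C2.Ram2.unr hp3 hD0 hTw (norm_pD5_one hp3 ι hpj) hR τ σ
        hcc hτ).2))
  rw [ez] at hzh
  obtain ⟨x, hx⟩ := exp_of_loc hD hTw hu hzh (fun p _ ι => hloc p ι)
  set v : Option J → ZMod 3 := fun o => x o * ew e o with hv
  have hxv : ∀ o, (x o : ZMod 3) = ew e o * v o := by
    intro o
    have := esqw hD o
    calc (x o : ZMod 3) = x o * (ew e o * ew e o) := by rw [this, mul_one]
      _ = _ := by rw [hv]; ring
  have heq : ∀ j : J, ∑ i, e i * cs (π j) (π i) * (v (some i) - v (some j)) =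
      -(ts κ (π j) * (v none - v (some j))) := by
    intro j
    obtain ⟨p, hp, ι, hl⟩ := exists_emb hi (hD.pq j).prime
    have hp3 := odd_of hi ι (hD.pq j).prime hl (not_assoc_lam (hD.pq j))
    obtain ⟨R, hR⟩ := hloc p ι
    have hej : ¬ 3 ∣ (e j).val := by
      have h6 : (e j).val < 3 := ZMod.val_lt _
      have h7 : (e j).val ≠ 0 := by
        intro h8
        exact hD.e0 j ((ZMod.val_eq_zero _).1 h8)
      omega
    obtain ⟨ε, hε⟩ := Pool.Agent.Helper68.C2.Ram2.ram hp3 hD0 hTw hej
      (norm_pD5_j hD hp3 ι j hl) hR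
    -- the character that is trivial at `π j`
    set n : ℕ := ε.val with hn
    have hn3 : (n : ZMod 3) = ε := ZMod.natCast_zmod_val _
    have hy := kc_mul (pr0w hD x) (pow_ne_zero n (pr0w hD _)) hx (kc_pow (pr0w hD _) hb n)
    have hy1 : ∀ (τ : Au p) (σ : GK i₀), Cmp ι τ σ → h σ + n * -a σ = 0 := by
      intro τ σ hcc
      rw [hε τ σ hcc, hn3]
      ring
    have ey : (∏ o, pw π κ o ^ x o) * (∏ o, pw π κ o ^ (ew e o).val) ^ n =
        ∏ o, pw π κ o ^ (x o + (ew e o).val * n) := by
      rw [← Finset.prod_pow, ← Finset.prod_mul_distrib]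
      refine Finset.prod_congr rfl fun i _ => ?_
      rw [← pow_mul, ← pow_add]
    rw [ey] at hy
    set y : Option J → ZMod 3 := fun o => x o + ew e o * ε with hydef
    have hy2 : Kc hi (∏ o, pw π κ o ^ (y o).val) (fun σ => h σ + n * -a σ) := by
      refine kc_exp (pw_ne hD) (fun o => ?_) hy
      rw [ZMod.natCast_zmod_val, hydef]
      push_cast
      rw [hn3, ZMod.natCast_zmod_val]
    have hyj : y (some j) = 0 :=
      not_dvd_unr hD y hy2 hp3 ι j hl (fun τ σ hcc _ => hy1 τ σ hcc)
    have hεv : ε = -v (some j) := by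
      have h1 : (x (some j) : ZMod 3) + ew e (some j) * ε = 0 := hyj
      have h2 := esqw hD (some j)
      rw [hxv (some j)] at h1
      calc ε = (ew e (some j) * ew e (some j)) * ε := by rw [h2, one_mul]
        _ = ew e (some j) * (ew e (some j) * v (some j) + ew e (some j) * ε) -
            (ew e (some j) * ew e (some j)) * v (some j) := by ring
        _ = _ := by rw [h1, h2]; ring
    have hyi : ∀ o, y o = ew e o * (v o - v (some j)) := by
      intro i
      rw [hydef]
      change (x i : ZMod 3) + ew e i * ε = _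
      rw [hxv i, hεv]
      ring
    have e2 : ∏ o, pw π κ o ^ (y o).val =
        ∏ o ∈ Finset.univ.erase (some j), pw π κ o ^ (y o).val := by
      rw [← Finset.mul_prod_erase Finset.univ (fun o => pw π κ o ^ (y o).val)
        (Finset.mem_univ (some j)), hyj, ZMod.val_zero, pow_zero, one_mul]
    rw [e2] at hy2
    have hcube := resid_kc hy2 hp3 ι (hD.pq j).prime hl hy1
    have hnd := not_dvd_prodw (κ := κ) hD j (fun o => (y o).val)
    have h9 := (hD.pq j).norm
    have hpj := (hD.pq j).prime
    have hcs := (cs_zero_iff hpj h9 hnd).2 hcube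
    have hnd1 : ∀ i ∈ Finset.univ.erase (some j), ¬ π j ∣ pw π κ i := fun i hij =>
      ndw hD j i (Finset.ne_of_mem_erase hij)
    rw [cs_prod hpj h9 _ _ (fun i hij h1 => hnd1 i hij (hpj.dvd_of_dvd_pow h1))] at hcs
    have h10 : ∑ o : Option J, ew e o * cs (π j) (pw π κ o) * (v o - v (some j)) = 0 := by
      rw [← Finset.add_sum_erase Finset.univ _ (Finset.mem_univ (some j)), sub_self, mul_zero,
        zero_add, ← hcs]
      refine Finset.sum_congr rfl fun i hij => ?_
      rw [cs_pow hpj h9 (hnd1 i hij), ZMod.natCast_zmod_val, hyi i]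
      ring
    rw [Fintype.sum_option] at h10
    have h11 : cs (π j) (pw π κ none) = ts κ (π j) := by
      rw [pw_none, cs_pD (hD.pq j)]
    rw [h11] at h10
    simp only [ew_none, ew_some, pw_some] at h10
    linear_combination h10
  have hev : ∀ o, ew e o * (x o : ZMod 3) = v o := fun o => by
    rw [hv]
    ring
  refine ⟨fun o => (x o : ZMod 3), fun j => ?_, kc_exp (pw_ne hD) (fun o => ?_) hx⟩
  · simp only [hev]
    exact heq j
  · rw [ZMod.natCast_zmod_val]

/-- the conditions in terms of the differences -/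
lemma cond5 {y : Option J → ZMod 3} :
    (∀ j : J, ∑ i, e i * cs (π j) (π i) *
      (ew e (some i) * y (some i) - ew e (some j) * y (some j)) =
      -(ts κ (π j) * (ew e none * y none - ew e (some j) * y (some j)))) ↔
    (fun j => ew e (some j) * y (some j) - ew e none * y none) ∈ V5 π e κ := by
  refine forall_congr' fun j => ?_
  have h1 : ∀ i, (ew e (some i) * y (some i) - ew e none * y none) -
      (ew e (some j) * y (some j) - ew e none * y none) =
      ew e (some i) * y (some i) - ew e (some j) * y (some j) := fun i => by ring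
  simp only [h1]
  have h2 : -(ts κ (π j) * (ew e none * y none - ew e (some j) * y (some j))) =
      ts κ (π j) * (ew e (some j) * y (some j) - ew e none * y none) := by ring
  rw [h2]

/-- **SN5** -/
theorem s_SN5 : S_SN5 := by
  intro J _ π e κ hD i₀ hi u a hTw
  have hE : ∀ o, ew e o ≠ 0 := by
    rintro (_ | j)
    · exact one_ne_zero
    · exact hD.e0 j
  rw [← card_opt (V5 π e κ) (ew e) hE]
  refine sel_card_gen (P := pw π κ) (pw_ne hD) _ (fun y h hk h0 o => exp_zero5 hD y hk h0 o)
    (fun h hs => ?_) fun y hy h hk p _ ι => ?_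
  · obtain ⟨y, hy, hk⟩ := gen5 hD hTw hs
    exact ⟨y, cond5.1 hy, hk⟩
  · -- the shifted character
    have hy : (fun j => ew e (some j) * y (some j) - ew e none * y none) ∈ V5 π e κ := hy
    set v : J → ZMod 3 := fun j => ew e (some j) * y (some j) - ew e none * y none with hv
    have hD0 : pD5 π e κ ≠ 0 := pD5_ne hD
    have hb : Kc hi (∏ o, pw π κ o ^ (ew e o).val) (fun σ => -a σ) := by
      rw [← pD5_eq]
      exact kc_of hi (root_ne (hi := hi) hD0 hTw.cube) hTw.cube hTw.act
    have h1 := kc_add (pw_ne hD) hk (kc_smul (pw_ne hD) hb (-(y none)))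
    have e1 : ∏ o, pw π κ o ^ (y o + -(y none) * ew e o).val = ∏ j, π j ^ (e j * v j).val := by
      rw [prod_pw]
      have e2 : y none + -(y none) * ew e none = 0 := by
        rw [ew_none]
        ring
      rw [e2, ZMod.val_zero, pow_zero, one_mul]
      refine Finset.prod_congr rfl fun j _ => ?_
      congr 2
      have h3 : e j * e j = 1 := esqw hD (some j)
      rw [hv]
      show y (some j) + -(y none) * e j = e j * (e j * y (some j) - 1 * y none)
      linear_combination -(y (some j)) * h3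
    rw [e1] at h1
    have h2 := kloc5 hD hTw hy h1 p ι
    have h3 := st1_shift h2 (-(y none))
    have e3 : (fun σ => h σ + -(y none) * -a σ + -(y none) * a σ) = h := by
      funext σ
      ring
    rw [e3] at h3
    exact h3

end Pool.Agent.Helper68.C10.SN5
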