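import Pool.Agent.Helper68.C10.Gen10
import Pool.Agent.Helper68.C6.Sel6
import Pool.Agent.Helper68.C6.Selc6

/-!
# The order of the Selmer group for `D = √-3 w^κ ∏ π_j^(e_j)`
-/

set_option autoImplicit false
set_option linter.unusedSectionVars false
set_option linter.unusedVariables false

open scoped Classical

namespace Pool.Agent.Helper68.C10.SN6

open Pool.Agent.Y692.QS (Ei w nr)
open Pool.Agent.Y715.T.Gi Pool.Agent.Y715.T.Nr Pool.Agent.Y715.T.Df
open Pool.Agent.Y715.T.Rec (cs)
open Pool.Agent.Y715.T.RecG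
open Pool.Agent.Y715.T.Sel (fac kc_mul kc_one kc_congr kc_pow kc_cube kc_uniq kc_cancel kc_unit
  kc_exp ex_root root_ne iota_sq iota_ev odd_of not_dvd_of_unr resid_kc exists_emb3)
open Pool.Agent.Y703.CT
open Pool.Agent.Y48.CT.SEL
open Pool.Agent.Helper68.C6 Pool.Agent.Helper68.C6.Sel6
open Pool.Agent.Helper68.C6.Selc6 (KV yv prod_yv kloc6 exp_zero6)
open Pool.Agent.Helper68.C5.Chr5 (ts)
open Pool.Agent.Helper68.C5.Sup5 (cs_pD)
open Pool.Agent.Helper68.C5.Sel5 (st1_add cf_lam lam_not_prod)
open Pool.Agent.Helper68.C2.Chr (tq tq_prim)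
open Pool.Agent.Helper68.C2.LK2 (w_unit not_dvd_w cs_w)
open Pool.Agent.Helper68.C2.Sel2 (norm_unit)
open Pool.Agent.Helper68.C10 Pool.Agent.Helper68.C10.Gen10
open Pool.Agent.XL6 (SelH)

variable {J : Type} [Fintype J] {π : J → Ei} {e : J → ZMod 3} {κ : ZMod 3}
variable {i₀ : QB} {hi : i₀ ^ 2 + i₀ + 1 = 0}

/-- a Selmer character satisfies the equations (from the proof of `sel6`) -/
theorem gen6 (hD : Dt π e) {u : QB} {a : GK i₀ → ZMod 3}
    (hTw : Tw hi (pD6 π e κ) u a) {h : GK i₀ → ZMod 3} (hs' : h ∈ SelH hi a) :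
    ∃ y : Option (Option J) → ZMod 3,
      ((fun j => e j * y (some (some j)) - y (some none)), -(y none)) ∈ V6 π e κ ∧
      Kc hi (∏ o, pw π κ o ^ (y o).val) h := by
  obtain ⟨hc, hm, hloc⟩ := hs'
  have hD0 : pD6 π e κ ≠ 0 := pD6_ne hD
  -- the character `a`
  have hb : Kc hi (∏ o, pw π κ o ^ (ew e o).val) (fun σ => -a σ) := by
    rw [← pD6_eq]
    exact kc_of hi (root_ne (hi := hi) hD0 hTw.cube) hTw.cube hTw.act
  -- the Kummer generator
  obtain ⟨z, hz, hzh⟩ := kum hi h hc hm
  obtain ⟨v₀, g, x₀, hu, ez⟩ := fac (π := π) z hz.1 (support hD hz hzh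
    (fun p _ ι hp3 hpj τ σ hcc hτ => by
      obtain ⟨R, hR⟩ := hloc p ι
      exact (Pool.Agent.Helper68.C2.Ram2.unr hp3 hD0 hTw (norm_pD6_one hp3 ι hpj) hR τ σ
        hcc hτ).2))
  rw [ez] at hzh
  obtain ⟨x, hx, hthree⟩ := exp_of_loc hD hTw hu hzh (fun p _ ι => hloc p ι)
  set v : J → ZMod 3 := fun j => x (some (some j)) * e j with hv
  obtain ⟨t, ht⟩ : ∃ t : ZMod 3, t = (x (some none) : ZMod 3) := ⟨_, rfl⟩
  obtain ⟨s, hs⟩ : ∃ s : ZMod 3, s = (x none : ZMod 3) := ⟨_, rfl⟩
  rw [← ht, ← hs] at hthree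
  have hxv : ∀ j, (x (some (some j)) : ZMod 3) = e j * v j := by
    intro j
    have := esq hD j
    calc (x (some (some j)) : ZMod 3) = x (some (some j)) * (e j * e j) := by rw [this, mul_one]
      _ = _ := by rw [hv]; ring
  have heq : ∀ j : J, ∑ i, e i * cs (π j) (π i) * (v i - v j) =
      s * rq (π j) + ts (-κ) (π j) * (t - v j) := by
    intro j
    obtain ⟨p, hp, ι, hl⟩ := exists_emb hi (hD.pq j).prime
    have hp3 := odd_of hi ι (hD.pq j).prime hl (not_assoc_lam (hD.pq j))
    obtain ⟨R, hR⟩ := hloc p ι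
    have hej : ¬ 3 ∣ (e j).val := by
      have h6 : (e j).val < 3 := ZMod.val_lt _
      have h7 : (e j).val ≠ 0 := by
        intro h8
        exact hD.e0 j ((ZMod.val_eq_zero _).1 h8)
      omega
    obtain ⟨ε, hε⟩ := Pool.Agent.Helper68.C2.Ram2.ram hp3 hD0 hTw hej
      (norm_pD6_j hD hp3 ι j hl) hR
    -- the character that is trivial at `π j`
    set n : ℕ := ε.val with hn
    have hn3 : (n : ZMod 3) = ε := ZMod.natCast_zmod_val _
    have hy := kc_mul (pr0w hD x) (pow_ne_zero n (pr0w hD _)) hx (kc_pow (pr0w hD _) hb n)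
    have hy1 : ∀ (τ : Au p) (σ : GK i₀), Cmp ι τ σ → h σ + n * -a σ = 0 := by
      intro τ σ hcc
      rw [hε τ σ hcc, hn3]
      ring
    have ey : (∏ o, pw π κ o ^ x o) * (∏ o, pw π κ o ^ (ew e o).val) ^ n =
        ∏ o, pw π κ o ^ (x o + (ew e o).val * n) := by
      rw [← Finset.prod_pow, ← Finset.prod_mul_distrib]
      refine Finset.prod_congr rfl fun i _ => ?_
      rw [← pow_mul, ← pow_add]
    rw [ey] at hy
    set y : Option (Option J) → ZMod 3 := fun o => x o + ew e o * ε with hydef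
    have hy2 : Kc hi (∏ o, pw π κ o ^ (y o).val) (fun σ => h σ + n * -a σ) := by
      refine kc_exp (pw_ne hD) (fun o => ?_) hy
      rw [ZMod.natCast_zmod_val, hydef]
      push_cast
      rw [hn3, ZMod.natCast_zmod_val]
    have hyj : y (some (some j)) = 0 :=
      not_dvd_unr hD y hy2 hp3 ι j hl (fun τ σ hcc _ => hy1 τ σ hcc)
    have hεv : ε = -v j := by
      have h1 : (x (some (some j)) : ZMod 3) + e j * ε = 0 := hyj
      have h2 := esq hD j
      rw [hxv j] at h1
      calc ε = (e j * e j) * ε := by rw [h2, one_mul]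
        _ = e j * (e j * v j + e j * ε) - (e j * e j) * v j := by ring
        _ = _ := by rw [h1, h2]; ring
    have hyi : ∀ i, y (some (some i)) = e i * (v i - v j) := by
      intro i
      show (x (some (some i)) : ZMod 3) + e i * ε = _
      rw [hxv i, hεv]
      ring
    have hyt : y (some none) = t - v j := by
      show (x (some none) : ZMod 3) + 1 * ε = _
      rw [hεv, ht]
      ring
    have hys : y none = s := by
      show (x none : ZMod 3) + 0 * ε = _
      rw [zero_mul, add_zero, hs]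
    have e2 : ∏ o, pw π κ o ^ (y o).val =
        ∏ o ∈ Finset.univ.erase (some (some j)), pw π κ o ^ (y o).val := by
      rw [← Finset.mul_prod_erase Finset.univ (fun o => pw π κ o ^ (y o).val)
        (Finset.mem_univ (some (some j))), hyj, ZMod.val_zero, pow_zero, one_mul]
    rw [e2] at hy2
    have hcube := resid_kc hy2 hp3 ι (hD.pq j).prime hl hy1
    have hnd := not_dvd_prodw (κ := κ) hD j (fun o => (y o).val)
    have h9 := (hD.pq j).norm
    have hpj := (hD.pq j).prime
    have hcs := (cs_zero_iff hpj h9 hnd).2 hcube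
    have hnd1 : ∀ i ∈ Finset.univ.erase (some (some j)), ¬ π j ∣ pw π κ i := fun i hij =>
      ndw hD j i (Finset.ne_of_mem_erase hij)
    rw [cs_prod hpj h9 _ _ (fun i hij h1 => hnd1 i hij (hpj.dvd_of_dvd_pow h1))] at hcs
    have h10 : ∑ o : Option (Option J), cs (π j) (pw π κ o) * y o = 0 := by
      rw [← Finset.add_sum_erase Finset.univ _ (Finset.mem_univ (some (some j))), hyj, mul_zero,
        zero_add, ← hcs]
      refine Finset.sum_congr rfl fun i hij => ?_
      rw [cs_pow hpj h9 (hnd1 i hij), ZMod.natCast_zmod_val]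
      ring
    rw [Fintype.sum_option, Fintype.sum_option, hys, hyt] at h10
    have h11 : cs (π j) (pw π κ none) = -rq (π j) := by
      rw [pw_none, cs_w (hD.pq j), tq_prim (hD.pq j).three]
    have h12 : cs (π j) (pw π κ (some none)) = -ts (-κ) (π j) := by
      rw [pw_t, cs_t (hD.pq j)]
    rw [h11, h12] at h10
    have h13 : ∑ i, cs (π j) (pw π κ (some (some i))) * y (some (some i)) =
        ∑ i, e i * cs (π j) (π i) * (v i - v j) := by
      refine Finset.sum_congr rfl fun i _ => ?_
      rw [hyi i, pw_some]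
      ring
    rw [h13] at h10
    linear_combination h10
  have hev : ∀ j, e j * (x (some (some j)) : ZMod 3) = v j := fun j => by
    rw [hv]
    ring
  refine ⟨fun o => (x o : ZMod 3), ?_, kc_exp (pw_ne hD) (fun o => ?_) hx⟩
  · show ((fun j => e j * (x (some (some j)) : ZMod 3) - (x (some none) : ZMod 3)),
      -((x none : ZMod 3))) ∈ V6 π e κ
    simp only [hev]
    rw [← ht, ← hs]
    refine ⟨fun j => ?_, ?_⟩
    · show ∑ i, e i * cs (π j) (π i) * (v i - t - (v j - t)) = _
      have h3 : ∀ i, v i - t - (v j - t) = v i - v j := fun i => by ring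
      simp only [h3]
      rw [heq j]
      ring
    · show κ * -s = ∑ i, e i * rq (π i) * (v i - t)
      have h3 : ∑ i, e i * rq (π i) * (v i - t) =
          ∑ j, ((x (some (some j)) : ZMod 3) - t * e j) * rq (π j) := by
        refine Finset.sum_congr rfl fun i _ => ?_
        rw [hxv i]
        ring
      rw [h3]
      linear_combination -hthree
  · rw [ZMod.natCast_zmod_val]

/-- **SN6** -/
theorem s_SN6 : S_SN6 := by
  intro J _ π e κ hD i₀ hi u a hTw
  rw [← card_opt2 (V6 π e κ) e hD.e0]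
  refine sel_card_gen (P := pw π κ) (pw_ne hD) _ (fun y h hk h0 o => exp_zero6 hD y hk h0 o)
    (fun h hs => gen6 hD hTw hs) fun y hy h hk p _ ι => ?_
  obtain ⟨g1, g2⟩ : ((fun j => e j * y (some (some j)) - y (some none)), -(y none)) ∈ V6 π e κ :=
    hy
  have hv : KV π e κ (fun j => e j * y (some (some j)) - y (some none)) (-(y none)) := ⟨g1, g2⟩
  have hD0 : pD6 π e κ ≠ 0 := pD6_ne hD
  have hb : Kc hi (∏ o, pw π κ o ^ (ew e o).val) (fun σ => -a σ) := by
    rw [← pD6_eq]
    exact kc_of hi (root_ne (hi := hi) hD0 hTw.cube) hTw.cube hTw.act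
  have h1 := kc_add (pw_ne hD) hk (kc_smul (pw_ne hD) hb (-(y (some none))))
  have e1 : ∏ o, pw π κ o ^ (y o + -(y (some none)) * ew e o).val =
      w ^ (-(-(y none))).val *
        ∏ j, π j ^ (e j * (e j * y (some (some j)) - y (some none))).val := by
    rw [prod_pw]
    have e2 : y (some none) + -(y (some none)) * ew e (some none) = 0 := by
      rw [ew_t]
      ring
    have e3 : y none + -(y (some none)) * ew e none = -(-(y none)) := by
      rw [ew_none]
      ring
    rw [e2, e3, ZMod.val_zero, pow_zero, one_mul]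
    refine congrArg _ (Finset.prod_congr rfl fun j _ => ?_)
    congr 2
    have h3 : e j * e j = 1 := esq hD j
    rw [ew_some]
    linear_combination -(y (some (some j))) * h3
  rw [e1] at h1
  have h2 := kloc6 hD hTw hv h1 p ι
  have h3 := st1_shift h2 (-(y (some none)))
  have e3 : (fun σ => h σ + -(y (some none)) * -a σ + -(y (some none)) * a σ) = h := by
    funext σ
    ring
  rw [e3] at h3
  exact h3

end Pool.Agent.Helper68.C10.SN6
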