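import Pool.Agent.Helper68.C10.Gen10
import Pool.Agent.Helper68.C7.Sel7
import Pool.Agent.Helper68.C7.Selc7

/-!
# The order of the Selmer group for `D = ∏ π_j^(e_j)`, congruent to one modulo `3 √-3`
-/

set_option autoImplicit false
set_option linter.unusedSectionVars false
set_option linter.unusedVariables false

open scoped Classical

namespace Pool.Agent.Helper68.C10.SN7

open Pool.Agent.Y692.QS (Ei w nr)
open Pool.Agent.Y715.T.Gi Pool.Agent.Y715.T.Nr Pool.Agent.Y715.T.Df
open Pool.Agent.Y715.T.Rec (cs)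
open Pool.Agent.Y715.T.RecG
open Pool.Agent.Y715.T.Sel (fac kc_mul kc_one kc_congr kc_pow kc_cube kc_uniq kc_cancel kc_unit
  kc_exp ex_root root_ne iota_sq iota_ev odd_of not_dvd_of_unr resid_kc exists_emb3)
open Pool.Agent.Y703.CT
open Pool.Agent.Y48.CT.SEL
open Pool.Agent.Helper68.C2
open Pool.Agent.Helper68.C2.Chr (tq tq_prim)
open Pool.Agent.Helper68.C2.LK2 (cs_w w_unit not_dvd_w)
open Pool.Agent.Helper68.C2.Sel2 (pw ew pw_none pw_some ew_none ew_some prod_pw pD2_eq pw_ne pr0w
  pD2_ne cf_prodw ndw not_dvd_prodw norm_pD2_one norm_pD2_j not_lam_pD2)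
open Pool.Agent.Helper68.C5.Chr5 (ts lt Cp cp_prim ts_prim ts_mul ts_u)
open Pool.Agent.Helper68.C5.Selc5 (ts_pow ts_prodf cp_pq)
open Pool.Agent.Helper68.C7.Sel7 (pD2_zero exp_of_loc)
open Pool.Agent.Helper68.C7.Selc7 (KV yv prod_yv kloc7 exp_zero7)
open Pool.Agent.Helper68.C10 Pool.Agent.Helper68.C10.Gen10
open Pool.Agent.XL6 (SelH)

variable {J : Type} [Fintype J] {π : J → Ei} {e : J → ZMod 3}
variable {i₀ : QB} {hi : i₀ ^ 2 + i₀ + 1 = 0}

/-- a Selmer character satisfies the equations (from the proof of `sel7`) -/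
theorem gen7 (hD : Dt π e) (h0 : ∑ j, e j * rq (π j) = 0) {u : QB}
    {a : GK i₀ → ZMod 3} (hTw : Tw hi (pD π e) u a) {h : GK i₀ → ZMod 3} (hs' : h ∈ SelH hi a) :
    ∃ y : Option J → ZMod 3, ((fun j => e j * y (some j)), 1 * y none) ∈ V7 π e ∧
      Kc hi (∏ o, pw π o ^ (y o).val) h := by
  obtain ⟨hc, hm, hloc⟩ := hs'
  have hTw1 := hTw
  rw [← pD2_zero] at hTw
  have hD0 : pD2 π e 0 ≠ 0 := pD2_ne hD
  -- the character `a`
  have hb : Kc hi (∏ o, pw π o ^ (ew e 0 o).val) (fun σ => -a σ) := by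
    rw [← pD2_eq]
    exact kc_of hi (root_ne (hi := hi) hD0 hTw.cube) hTw.cube hTw.act
  -- the Kummer generator
  obtain ⟨z, hz, hzh⟩ := kum hi h hc hm
  obtain ⟨v₀, g, x₀, hu, ez⟩ := fac (π := π) z hz.1 (support hD hz hzh
    (fun p _ ι hp3 hpj τ σ hcc hτ => by
      obtain ⟨R, hR⟩ := hloc p ι
      exact (Ram2.unr hp3 hD0 hTw (norm_pD2_one ι hpj) hR τ σ hcc hτ).2))
  rw [ez] at hzh
  obtain ⟨x, hx, hthree⟩ := exp_of_loc hD h0 hTw1 hu hzh (fun p _ ι => hloc p ι)
  set v : J → ZMod 3 := fun j => x (some j) * e j with hv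
  obtain ⟨s, hs⟩ : ∃ s : ZMod 3, s = (x none : ZMod 3) := ⟨_, rfl⟩
  rw [← hs] at hthree
  have hxv : ∀ j, (x (some j) : ZMod 3) = e j * v j := by
    intro j
    have := esq hD j
    calc (x (some j) : ZMod 3) = x (some j) * (e j * e j) := by rw [this, mul_one]
      _ = _ := by rw [hv]; ring
  have heq : ∀ j : J, ∑ i, e i * cs (π j) (π i) * (v i - v j) = s * rq (π j) := by
    intro j
    obtain ⟨p, hp, ι, hl⟩ := exists_emb hi (hD.pq j).prime
    have hp3 := odd_of hi ι (hD.pq j).prime hl (not_assoc_lam (hD.pq j))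
    obtain ⟨R, hR⟩ := hloc p ι
    have hej : ¬ 3 ∣ (e j).val := by
      have h6 : (e j).val < 3 := ZMod.val_lt _
      have h7 : (e j).val ≠ 0 := by
        intro h8
        exact hD.e0 j ((ZMod.val_eq_zero _).1 h8)
      omega
    obtain ⟨ε, hε⟩ := Ram2.ram hp3 hD0 hTw hej (norm_pD2_j hD hp3 ι j hl) hR
    -- the character that is trivial at `π j`
    set n : ℕ := ε.val with hn
    have hn3 : (n : ZMod 3) = ε := ZMod.natCast_zmod_val _
    have hy := kc_mul (pr0w hD x) (pow_ne_zero n (pr0w hD _)) hx (kc_pow (pr0w hD _) hb n)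
    have hy1 : ∀ (τ : Au p) (σ : GK i₀), Cmp ι τ σ → h σ + n * -a σ = 0 := by
      intro τ σ hcc
      rw [hε τ σ hcc, hn3]
      ring
    have ey : (∏ o, pw π o ^ x o) * (∏ o, pw π o ^ (ew e 0 o).val) ^ n =
        ∏ o, pw π o ^ (x o + (ew e 0 o).val * n) := by
      rw [← Finset.prod_pow, ← Finset.prod_mul_distrib]
      refine Finset.prod_congr rfl fun i _ => ?_
      rw [← pow_mul, ← pow_add]
    rw [ey] at hy
    set y : Option J → ZMod 3 := fun o => x o + ew e 0 o * ε with hydef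
    have hy2 : Kc hi (∏ o, pw π o ^ (y o).val) (fun σ => h σ + n * -a σ) := by
      refine kc_exp (pw_ne hD) (fun o => ?_) hy
      rw [ZMod.natCast_zmod_val, hydef]
      push_cast
      rw [hn3, ZMod.natCast_zmod_val]
    have hyj : y (some j) = 0 := by
      have h1 := not_dvd_of_unr (cf_prodw hD y) hy2 hp3 ι (hD.pq j).prime hl
        (fun τ σ hcc _ => hy1 τ σ hcc)
      by_contra hne
      apply h1
      refine dvd_trans (dvd_pow_self (π j) ?_) (Finset.dvd_prod_of_mem
        (fun o => pw π o ^ (y o).val) (Finset.mem_univ (some j)))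
      rwa [Ne, ZMod.val_eq_zero]
    have hεv : ε = -v j := by
      have h1 : (x (some j) : ZMod 3) + e j * ε = 0 := hyj
      have h2 := esq hD j
      rw [hxv j] at h1
      calc ε = (e j * e j) * ε := by rw [h2, one_mul]
        _ = e j * (e j * v j + e j * ε) - (e j * e j) * v j := by ring
        _ = _ := by rw [h1, h2]; ring
    have hyi : ∀ i, y (some i) = e i * (v i - v j) := by
      intro i
      show (x (some i) : ZMod 3) + e i * ε = _
      rw [hxv i, hεv]
      ring
    have hys : y none = s := by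
      show (x none : ZMod 3) + 0 * ε = _
      rw [zero_mul, add_zero, hs]
    have e2 : ∏ o, pw π o ^ (y o).val =
        ∏ o ∈ Finset.univ.erase (some j), pw π o ^ (y o).val := by
      rw [← Finset.mul_prod_erase Finset.univ (fun o => pw π o ^ (y o).val)
        (Finset.mem_univ (some j)), hyj, ZMod.val_zero, pow_zero, one_mul]
    rw [e2] at hy2
    have hcube := resid_kc hy2 hp3 ι (hD.pq j).prime hl hy1
    have hnd := not_dvd_prodw hD j (fun o => (y o).val)
    have h9 := (hD.pq j).norm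
    have hpj := (hD.pq j).prime
    have hcs := (cs_zero_iff hpj h9 hnd).2 hcube
    have hnd1 : ∀ i ∈ Finset.univ.erase (some j), ¬ π j ∣ pw π i := fun i hij =>
      ndw hD j i (Finset.ne_of_mem_erase hij)
    rw [cs_prod hpj h9 _ _ (fun i hij h1 => hnd1 i hij (hpj.dvd_of_dvd_pow h1))] at hcs
    have h10 : ∑ o : Option J, cs (π j) (pw π o) * y o = 0 := by
      rw [← Finset.add_sum_erase Finset.univ _ (Finset.mem_univ (some j)), hyj, mul_zero,
        zero_add, ← hcs]
      refine Finset.sum_congr rfl fun i hij => ?_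
      rw [cs_pow hpj h9 (hnd1 i hij), ZMod.natCast_zmod_val]
      ring
    rw [Fintype.sum_option, hys] at h10
    have h11 : cs (π j) (pw π none) = -rq (π j) := by
      rw [pw_none, cs_w (hD.pq j), tq_prim (hD.pq j).three]
    rw [h11] at h10
    have h13 : ∑ i, cs (π j) (pw π (some i)) * y (some i) =
        ∑ i, e i * cs (π j) (π i) * (v i - v j) := by
      refine Finset.sum_congr rfl fun i _ => ?_
      rw [hyi i, pw_some]
      ring
    rw [h13] at h10
    linear_combination h10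
  have hev : (fun j => e j * (x (some j) : ZMod 3)) = v := funext fun j => by
    rw [hv]
    ring
  refine ⟨fun o => (x o : ZMod 3), ?_, kc_exp (pw_ne hD) (fun o => ?_) hx⟩
  · show ((fun j => e j * (x (some j) : ZMod 3)), 1 * (x none : ZMod 3)) ∈ V7 π e
    rw [hev, one_mul, ← hs]
    refine ⟨heq, ?_⟩
    rw [← hthree]
    refine Finset.sum_congr rfl fun i _ => ?_
    rw [hxv i]
    ring
  · rw [ZMod.natCast_zmod_val]

/-- **SN7** -/
theorem s_SN7 : S_SN7 := by
  intro J _ _ π e hD h0 i₀ hi u a hTw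
  rw [← card_opt' (V7 π e) e hD.e0 1 one_ne_zero]
  refine sel_card_gen (P := pw π) (pw_ne hD) _ (fun y h hk h1 o => exp_zero7 hD y hk h1 o)
    (fun h hs => gen7 hD h0 hTw hs) fun y hy h hk p _ ι => ?_
  obtain ⟨h1, h2⟩ : ((fun j => e j * y (some j)), 1 * y none) ∈ V7 π e := hy
  have hv : KV π e (fun j => e j * y (some j)) (1 * y none) := ⟨h1, h2⟩
  refine kloc7 hD h0 hTw hv ?_ p ι
  rw [← prod_yv]
  have e1 : yv e (fun j => e j * y (some j)) (1 * y none) = y := by
    funext o
    rcases o with _ | j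
    · show 1 * y none = y none
      rw [one_mul]
    · show e j * (e j * y (some j)) = y (some j)
      linear_combination y (some j) * esq hD j
  rw [e1]
  exact hk

end Pool.Agent.Helper68.C10.SN7
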