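import Pool.Agent.Helper68.C10.LRd
import Pool.Agent.Helper68.C10.SN2
import Pool.Agent.Helper68.C10.SN5
import Pool.Agent.Helper68.C10.SN6
import Pool.Agent.Helper68.C10.SN7
import Pool.Agent.Helper68.C7.Asm1
import Pool.Graph.R_seed8.Y696.XL.Asm

/-!
# The law for all ranks, part 5: the Selmer group and the rank of one curve
-/

set_option autoImplicit false
set_option linter.unusedSectionVars false

open scoped Classical

namespace Pool.Agent.Helper68.C10.LR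

open NumberField IsDedekindDomain WeierstrassCurve
open Pool.Agent.Y692.QS (Ei w nr)
open Pool.Agent.Y703.CT
open Pool.Agent.Y696.CTK
open Pool.Agent.Y715.T.Gi Pool.Agent.Y715.T.Nr Pool.Agent.Y715.T.Df Pool.Agent.Y715.T.Ell
open Pool.Agent.Y715.T.RecG (Pq)
open Pool.Agent.Helper68.C2 (pD2)
open SN2 SN5 SN6 SN7
open Pool.Agent.Helper68.C5 (pD5)
open Pool.Agent.Helper68.C6 (pD6)
open Pool.Agent.Helper68.C8 (eT)
open Pool.Agent.Helper68.C8.AllCf (el PU pD_of dt_T)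
open Pool.Agent.XL6 (SelH SelK KerV selK_card sel_card rk_le rank_le)
open Pool.Agent.Y155.CT (a_mul a_cont)

theorem tw_pm {i₀ : QB} {hi : i₀ ^ 2 + i₀ + 1 = 0} {D D' : Ei} (h : D = D' ∨ D = -D') {u : QB}
    {a : GK i₀ → ZMod 3} (hT : Tw hi D u a) : ∃ u' : QB, Tw hi D' u' a := by
  rcases h with h | h
  · exact ⟨u, h ▸ hT⟩
  · refine ⟨-u, ?_, fun σ => ?_⟩
    · have h1 := hT.cube
      rw [h, map_neg] at h1
      rw [Odd.neg_pow (by decide), h1, neg_neg]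
    · rw [map_neg, hT.act σ, mul_neg]

theorem el_pm (s : Bool) (m : ℕ) (κ : ZMod 3) (T U : Finset Ei) :
    el s m κ T U = lam ^ m * w ^ κ.val * PU T U ∨
      el s m κ T U = -(lam ^ m * w ^ κ.val * PU T U) := by
  unfold el
  cases s
  · right
    simp
  · left
    simp

/-- the Selmer group for the characters -/
theorem selH_nG {T U : Finset Ei} (hU : ∀ π ∈ U, Pq π) {m : ℕ} (hm : m ≤ 2) (κ : ZMod 3)
    (hne : ¬ (m = 0 ∧ κ = 0 ∧ U = ∅)) (s : Bool) {i₀ : QB} (hi : i₀ ^ 2 + i₀ + 1 = 0) {u : QB}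
    {a : GK i₀ → ZMod 3} (hT : Tw hi (el s m κ T U) u a) :
    (SelH hi a).ncard = nG m κ T U ∧ ∃ σ, a σ ≠ 0 := by
  have hdt := dt_T (T := T) hU
  obtain ⟨u₁, hT⟩ := tw_pm (el_pm s m κ T U) hT
  rw [← pD_of] at hT
  obtain rfl | rfl | rfl : m = 0 ∨ m = 1 ∨ m = 2 := by omega
  · rw [pow_zero, one_mul] at hT
    by_cases hκ : κ = 0
    · subst hκ
      have hUne : U.Nonempty := by
        rw [Finset.nonempty_iff_ne_empty]
        exact fun h => hne ⟨rfl, rfl, h⟩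
      have : Nonempty {ρ // ρ ∈ U} := hUne.to_subtype
      rw [ZMod.val_zero, pow_zero, one_mul] at hT
      unfold nG
      rw [if_pos ⟨rfl, rfl⟩]
      by_cases hs : ∑ ρ : {ρ // ρ ∈ U}, eT T ρ * rq (ρ : Ei) = 0
      · rw [if_pos hs]
        exact ⟨s_SN7 {ρ // ρ ∈ U} _ _ hdt hs i₀ hi _ _ hT, a_ne hdt hT⟩
      · rw [if_neg hs]
        exact ⟨sel_card hdt ((sum_ne_iff hdt).2 hs) hT, a_ne hdt hT⟩
    · unfold nG
      rw [if_neg (fun h => hκ h.2), if_pos rfl]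
      exact ⟨s_SN2 {ρ // ρ ∈ U} _ _ κ hdt hκ i₀ hi _ _ hT, SN2.a_ne2 hdt hκ hT⟩
  · unfold nG
    rw [if_neg (fun h => absurd h.1 one_ne_zero), if_neg one_ne_zero, if_pos rfl]
    rw [pow_one] at hT
    exact ⟨s_SN6 {ρ // ρ ∈ U} _ _ κ hdt i₀ hi _ _ hT, Pool.Agent.Helper68.C6.Sel6.a_ne hdt hT⟩
  · unfold nG
    rw [if_neg (fun h => absurd h.1 two_ne_zero), if_neg two_ne_zero, if_neg (by norm_num)]
    have e1 : (lam : Ei) ^ 2 * w ^ κ.val * pD (fun ρ : {ρ // ρ ∈ U} => (ρ : Ei)) (eT T) =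
        -Pool.Agent.Helper68.C5.pD5 (fun ρ : {ρ // ρ ∈ U} => (ρ : Ei)) (eT T) κ := by
      unfold Pool.Agent.Helper68.C5.pD5
      rw [lam_sq]
      ring
    obtain ⟨u₂, hT⟩ := tw_pm (Or.inr e1) hT
    exact ⟨s_SN5 {ρ // ρ ∈ U} _ _ κ hdt i₀ hi _ _ hT, Pool.Agent.Helper68.C5.Sel5.a_ne hdt hT⟩

theorem el_ne {T U : Finset Ei} (hU : ∀ π ∈ U, Pq π) (s : Bool) {m : ℕ} (hm : m < 3)
    (κ : ZMod 3) : el s m κ T U ≠ 0 := (Pool.Agent.Helper68.C8.AllCf.el_cf s hm κ hU).1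

theorem nG_pos (m : ℕ) (κ : ZMod 3) (T U : Finset Ei) : nG m κ T U ≠ 0 := by
  have h5 : ∀ κ, (V5 (fun ρ : {ρ // ρ ∈ U} => (ρ : Ei)) (eT T) κ).ncard ≠ 0 := fun κ =>
    Set.ncard_ne_zero_of_mem (a := 0) (fun j => by simp) (Set.toFinite _)
  have h2 : ∀ κ, (V2 (fun ρ : {ρ // ρ ∈ U} => (ρ : Ei)) (eT T) κ).ncard ≠ 0 := fun κ =>
    Set.ncard_ne_zero_of_mem (a := 0) (fun j => by simp) (Set.toFinite _)
  have h6 : ∀ κ, (V6 (fun ρ : {ρ // ρ ∈ U} => (ρ : Ei)) (eT T) κ).ncard ≠ 0 := fun κ =>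
    Set.ncard_ne_zero_of_mem (a := 0) ⟨fun j => by simp, by simp⟩ (Set.toFinite _)
  have h7 : (V7 (fun ρ : {ρ // ρ ∈ U} => (ρ : Ei)) (eT T)).ncard ≠ 0 :=
    Set.ncard_ne_zero_of_mem (a := 0) ⟨fun j => by simp, by simp⟩ (Set.toFinite _)
  have hk : (KerV (fun ρ : {ρ // ρ ∈ U} => (ρ : Ei)) (eT T)).ncard ≠ 0 :=
    Set.ncard_ne_zero_of_mem (a := 0) (fun j => by simp) (Set.toFinite _)
  unfold nG
  split_ifs
  · exact h7
  · exact hk
  · exact mul_ne_zero three_ne_zero (h2 κ)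
  · exact mul_ne_zero three_ne_zero (h6 κ)
  · exact mul_ne_zero three_ne_zero (h5 κ)

/-- **the Selmer group and the rank of one curve** -/
theorem selK_nG {K : Type} [Field K] [NumberField K] (j : Ei ≃+* 𝓞 K) {T U : Finset Ei}
    (hU : ∀ π ∈ U, Pq π) {m : ℕ} (hm : m ≤ 2) (κ : ZMod 3)
    (hne : ¬ (m = 0 ∧ κ = 0 ∧ U = ∅)) (s : Bool) :
    (SelK (j (el s m κ T U) : K)).ncard = nG m κ T U ∧
    ∀ r : ℕ, nG m κ T U ≤ 3 ^ (r + 1) →
      Module.finrank ℤ (ED (j (el s m κ T U) : K)).toAffine.Point ≤ 2 * r := by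
  have P := parts
  have h0 : el s m κ T U ≠ 0 := el_ne hU s (by omega) κ
  obtain ⟨e, i₀, hi, u, a, Ψ, g, hdata⟩ := P.trf K j _ h0
  have hT := hdata.1
  obtain ⟨h1, h2⟩ := selH_nG hU hm κ hne s hi hT
  refine ⟨(selK_card h0 hdata).trans h1, fun r hr => ?_⟩
  have hfin : (SelH hi a).Finite :=
    Set.finite_of_ncard_ne_zero (by rw [h1]; exact nG_pos m κ T U)
  exact (rk_le h0 hdata).trans (rank_le (a_mul h0 hT) (a_cont h0 hT) h2 hfin
    (by rw [h1]; exact hr))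

end Pool.Agent.Helper68.C10.LR
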