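import Pool.Agent.Helper68.C10.LRe
import Pool.Agent.Helper68.C8.AllCf

/-!
# The law for all ranks, part 6: the final statement over `K`
-/

set_option autoImplicit false
set_option linter.unusedSectionVars false

open scoped Classical

namespace Pool.Agent.Helper68.C10.LR

open NumberField IsDedekindDomain WeierstrassCurve
open Pool.Agent.Y692.QS (Ei w nr)
open Pool.Agent.Y703.CT (rq Dt Ker)
open Pool.Agent.Y715.T.Rec (cs)
open Pool.Agent.Y696.CTK
open Pool.Agent.Y715.T.Gi (lam CF)
open Pool.Agent.Y715.T.RecG (Pq)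
open Pool.Agent.Y703.XL (cr)
open Pool.Agent.Helper68.C3 (Part3)
open Pool.Agent.Helper68.C5.Chr5 (ts)
open Pool.Agent.Helper68.C7.D7 (Lap ww)
open Pool.Agent.Helper68.C8 (eT GoodU S_III S_IV)
open Pool.Agent.Helper68.C8.CF (LapC lapC_iff_card cW wC wD cW_symm ker_iff ker2_iff ker5_iff
  ker6_iff ker7_iff eT_ne)
open Pool.Agent.Helper68.C8.AllCf (el PU pD_of dt_T part_all cf_iff count_K el_surj el_cf)
open Pool.Agent.XL6 (SelH SelK KerV)

/-! ### The criterion -/

theorem lapC_nL {T : Type} [Fintype T] [Nonempty T] (w : T → T → ZMod 3) :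
    LapC w ↔ nL w = 3 := by
  rw [lapC_iff_card, zero_add, pow_one]
  rfl

/-- the criterion is that the order is three -/
theorem good_iff {T U : Finset Ei} (hU : ∀ π ∈ U, Pq π) {a : ℕ} (κ : ZMod 3)
    (hne : ¬ (a = 0 ∧ κ = 0 ∧ U = ∅)) : GoodU a κ T U ↔ nG a κ T U = 3 := by
  have he : ∀ j : {ρ // ρ ∈ U}, eT T j ≠ 0 := fun j => eT_ne j
  have hc := cW_symm (T := T) hU
  unfold GoodU nG
  by_cases h0 : a = 0 ∧ κ = 0
  · rw [if_pos h0, if_pos h0]
    have hUne : U.Nonempty := by
      rw [Finset.nonempty_iff_ne_empty]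
      exact fun h => hne ⟨h0.1, h0.2, h⟩
    have hJ : Nonempty {ρ // ρ ∈ U} := hUne.to_subtype
    by_cases hs : ∑ ρ : {ρ // ρ ∈ U}, eT T ρ * rq (ρ : Ei) = 0
    · rw [if_pos hs, if_pos hs, ker7_iff he (Classical.arbitrary _) hs, lapC_nL,
        v7_card he (Classical.arbitrary _) hs]
    · rw [if_neg hs, if_neg hs, ker_iff he, lapC_nL, kv_card he]
  · rw [if_neg h0, if_neg h0]
    by_cases ha : a = 0
    · rw [if_pos ha, if_pos ha, ker2_iff he hc, lapC_nL, v2_card he hc]
    · rw [if_neg ha, if_neg ha]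
      by_cases ha1 : a = 1
      · rw [if_pos ha1, if_pos ha1, ker6_iff he hc, lapC_nL, v6_card he hc]
      · rw [if_neg ha1, if_neg ha1, ker5_iff he hc, lapC_nL, v5_card he hc]

/-! ### Powers of three -/

theorem pow3 {M : Type} [AddCommGroup M] [Module (ZMod 3) M] [Finite M] {S : Set M}
    (h0 : (0 : M) ∈ S) (ha : ∀ x ∈ S, ∀ y ∈ S, x + y ∈ S) :
    ∃ k : ℕ, S.ncard = 3 ^ k ∧ ((∃ x ∈ S, x ≠ 0) → k ≠ 0) := by
  have hs : ∀ (c : ZMod 3), ∀ x ∈ S, c • x ∈ S := by
    intro c x hx
    have h2 : ∀ n : ℕ, (n : ZMod 3) • x ∈ S := by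
      intro n
      induction n with
      | zero => simpa using h0
      | succ n ih =>
        rw [Nat.cast_succ, add_smul, one_smul]
        exact ha _ ih _ hx
    have h3 := h2 c.val
    rwa [ZMod.natCast_zmod_val] at h3
  let V : Submodule (ZMod 3) M :=
    { carrier := S
      zero_mem' := h0
      add_mem' := fun {a b} h h' => ha a h b h'
      smul_mem' := fun c x hx => hs c x hx }
  have h1 : S.ncard = Nat.card V := (Nat.card_coe_set_eq _).symm
  have h2 : Nat.card V = 3 ^ Module.finrank (ZMod 3) V := by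
    rw [Module.natCard_eq_pow_finrank (K := ZMod 3), Nat.card_zmod]
  refine ⟨_, h1.trans h2, ?_⟩
  rintro ⟨x, hx, hx0⟩ h4
  rw [h4, pow_zero] at h2
  have h5 : Subsingleton V := (Nat.card_eq_one_iff_unique.1 h2).1
  have h6 : (⟨x, hx⟩ : V) = 0 := Subsingleton.elim _ _
  exact hx0 (congrArg Subtype.val h6)

theorem sum_lin {J : Type} [Fintype J] (c : J → ZMod 3) (x y : J → ZMod 3) (j : J) :
    ∑ i, c i * ((x + y) i - (x + y) j) = ∑ i, c i * (x i - x j) + ∑ i, c i * (y i - y j) := by
  rw [← Finset.sum_add_distrib]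
  exact Finset.sum_congr rfl fun i _ => by rw [Pi.add_apply, Pi.add_apply]; ring

theorem sum_lin2 {J : Type} [Fintype J] (c : J → ZMod 3) (x y : J → ZMod 3) :
    ∑ i, c i * (x + y) i = ∑ i, c i * x i + ∑ i, c i * y i := by
  rw [← Finset.sum_add_distrib]
  exact Finset.sum_congr rfl fun i _ => by rw [Pi.add_apply]; ring

/-- the order of the Selmer group is a power of three, at least three -/
theorem nG_pow {T U : Finset Ei} (a : ℕ) (κ : ZMod 3) (hne : ¬ (a = 0 ∧ κ = 0 ∧ U = ∅)) :
    ∃ r : ℕ, nG a κ T U = 3 ^ (r + 1) := by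
  have h3 : ∀ n : ℕ, (∃ k, n = 3 ^ k) → ∃ r, 3 * n = 3 ^ (r + 1) := by
    rintro _ ⟨k, rfl⟩
    exact ⟨k, by rw [pow_succ]; ring⟩
  unfold nG
  by_cases h0 : a = 0 ∧ κ = 0
  · rw [if_pos h0]
    have hUne : U.Nonempty := by
      rw [Finset.nonempty_iff_ne_empty]
      exact fun h => hne ⟨h0.1, h0.2, h⟩
    have hJ : Nonempty {ρ // ρ ∈ U} := hUne.to_subtype
    by_cases hs : ∑ ρ : {ρ // ρ ∈ U}, eT T ρ * rq (ρ : Ei) = 0
    · rw [if_pos hs]
      obtain ⟨k, hk, hk0⟩ := pow3 (S := V7 (fun ρ : {ρ // ρ ∈ U} => (ρ : Ei)) (eT T))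
        ⟨fun j => by simp, by simp⟩ (by
          rintro ⟨x, s⟩ ⟨h1, h2⟩ ⟨y, t⟩ ⟨h3, h4⟩
          constructor
          · intro j
            have e := sum_lin (fun i => eT T i * cs (j : Ei) (i : Ei)) x y j
            refine e.trans ?_
            have h1' := h1 j
            have h3' := h3 j
            simp only at h1' h3'
            rw [h1', h3']
            show _ = (s + t) * _
            ring
          · have e := sum_lin2 (fun i : {ρ // ρ ∈ U} => eT T i * rq (i : Ei)) x y
            refine e.trans ?_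
            simp only at h2 h4
            rw [h2, h4]
            show _ = (s + t) * _
            ring)
      have hne0 : k ≠ 0 := by
        refine hk0 ⟨(fun _ => 1, 0), ⟨fun j => ?_, ?_⟩, ?_⟩
        · simp
        · have e : ∑ i : {ρ // ρ ∈ U}, eT T i * rq (i : Ei) * (1 : ZMod 3) = 0 := by
            simp only [mul_one]
            exact hs
          show ∑ i : {ρ // ρ ∈ U}, eT T i * rq (i : Ei) * (1 : ZMod 3) = 0 * _
          rw [e, zero_mul]
        · intro h
          have h7 := congrFun (congrArg Prod.fst h) (Classical.arbitrary _)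
          exact one_ne_zero h7
      obtain ⟨r, rfl⟩ := Nat.exists_eq_succ_of_ne_zero hne0
      exact ⟨r, hk⟩
    · rw [if_neg hs]
      obtain ⟨k, hk, hk0⟩ := pow3 (S := KerV (fun ρ : {ρ // ρ ∈ U} => (ρ : Ei)) (eT T))
        (fun j => by simp) (by
          intro x h1 y h3 j
          have e := sum_lin (fun i => eT T i * cs (j : Ei) (i : Ei)) x y j
          refine e.trans ?_
          have h1' := h1 j
          have h3' := h3 j
          simp only at h1' h3'
          rw [h1', h3', add_zero])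
      have hne0 : k ≠ 0 := by
        refine hk0 ⟨fun _ => 1, fun j => by simp, ?_⟩
        intro h
        exact one_ne_zero (congrFun h (Classical.arbitrary _))
      obtain ⟨r, rfl⟩ := Nat.exists_eq_succ_of_ne_zero hne0
      exact ⟨r, hk⟩
  · rw [if_neg h0]
    by_cases ha : a = 0
    · rw [if_pos ha]
      apply h3
      obtain ⟨k, hk, -⟩ := pow3 (S := V2 (fun ρ : {ρ // ρ ∈ U} => (ρ : Ei)) (eT T) κ)
        (fun j => by simp) (by
          intro x h1 y h3 j
          have e := sum_lin (fun i => eT T i * cs (j : Ei) (i : Ei)) x y j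
          refine e.trans ?_
          have h1' := h1 j
          have h3' := h3 j
          simp only at h1' h3'
          rw [h1', h3', Pi.add_apply]
          ring)
      exact ⟨k, hk⟩
    · rw [if_neg ha]
      by_cases ha1 : a = 1
      · rw [if_pos ha1]
        apply h3
        obtain ⟨k, hk, -⟩ := pow3 (S := V6 (fun ρ : {ρ // ρ ∈ U} => (ρ : Ei)) (eT T) κ)
          ⟨fun j => by simp, by simp⟩ (by
            rintro ⟨x, s⟩ ⟨h1, h2⟩ ⟨y, t⟩ ⟨h3, h4⟩
            constructor
            · intro j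
              have e := sum_lin (fun i => eT T i * cs (j : Ei) (i : Ei)) x y j
              refine e.trans ?_
              have h1' := h1 j
              have h3' := h3 j
              simp only at h1' h3'
              rw [h1', h3']
              show _ = -ts (-κ) _ * (x j + y j) - rq _ * (s + t)
              ring
            · have e := sum_lin2 (fun i : {ρ // ρ ∈ U} => eT T i * rq (i : Ei)) x y
              refine Eq.trans ?_ e.symm
              simp only at h2 h4
              rw [← h2, ← h4]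
              show κ * (s + t) = _
              ring)
        exact ⟨k, hk⟩
      · rw [if_neg ha1]
        apply h3
        obtain ⟨k, hk, -⟩ := pow3 (S := V5 (fun ρ : {ρ // ρ ∈ U} => (ρ : Ei)) (eT T) κ)
          (fun j => by simp) (by
            intro x h1 y h3 j
            have e := sum_lin (fun i => eT T i * cs (j : Ei) (i : Ei)) x y j
            refine e.trans ?_
            have h1' := h1 j
            have h3' := h3 j
            simp only at h1' h3'
            rw [h1', h3', Pi.add_apply]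
            ring)
        exact ⟨k, hk⟩

/-! ### The final statements -/

section
variable (K : Type) [Field K] [NumberField K] [IsCyclotomicExtension {3} ℚ K]

/-- **The law over `K`**, for all cube-free `D`. -/
theorem law_K (r : ℕ) : Filter.Tendsto (fun X : ℕ =>
      ({D : 𝓞 K | Algebra.norm ℤ D ≤ X ∧ (∀ x : 𝓞 K, x ^ 3 ∣ D → IsUnit x) ∧
        (SelK (D : K)).ncard = 3 ^ (r + 1)}.ncard : ℝ) /
        ({D : 𝓞 K | Algebra.norm ℤ D ≤ X ∧ ∀ x : 𝓞 K, x ^ 3 ∣ D → IsUnit x}.ncard : ℝ))
      Filter.atTop (nhds (cr r)) := by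
  obtain ⟨⟨j, hj⟩, -⟩ := Pool.Agent.Y455.CTK.jex K
  have hQ : Agr r (fun z : Ei => (SelK (j z : K)).ncard = 3 ^ (r + 1)) := by
    intro s a κ T S ha hS hT hne hd
    have hU : ∀ π ∈ S ∪ T, Pq π := fun π hπ => by
      rw [Finset.mem_union] at hπ
      exact hπ.elim (hS π) (hT π)
    have h1 := (selK_nG (K := K) j (T := T) hU (show a ≤ 2 by omega) κ (fun h => by
      have h6 := Finset.union_eq_empty.1 h.2.2
      exact hne.ne_empty h6.1) s).1
    show (SelK (j (el s a κ T (S ∪ T)) : K)).ncard = 3 ^ (r + 1) ↔ _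
    rw [h1]
    rfl
  have h1 := lim_all r _ hQ
  refine h1.congr fun X => ?_
  rw [count_K j hj X (fun D => (SelK (D : K)).ncard = 3 ^ (r + 1))]
  have h2 := count_K j hj X (fun _ => True)
  simp only [and_true] at h2
  rw [h2]

/-- **One curve.** -/
theorem one_K (D : 𝓞 K) (hcf : ∀ x : 𝓞 K, x ^ 3 ∣ D → IsUnit x) (h1 : D ≠ 1) (h2 : D ≠ -1) :
    (∃ r : ℕ, (SelK (D : K)).ncard = 3 ^ (r + 1) ∧
      Module.finrank ℤ (ED (D : K)).toAffine.Point ≤ 2 * r) ∧
    ((SelK (D : K)).ncard = 3 ↔ Part3 D) := by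
  obtain ⟨⟨j, hj⟩, hdisc⟩ := Pool.Agent.Y455.CTK.jex K
  obtain ⟨z, rfl⟩ := j.surjective D
  obtain ⟨s, a, κ, T, S, ha, hS, hT, hd, rfl⟩ := el_surj ((cf_iff j z).1 hcf)
  have hU : ∀ π ∈ S ∪ T, Pq π := fun π hπ => by
    rw [Finset.mem_union] at hπ
    exact hπ.elim (hS π) (hT π)
  have hne : ¬ (a = 0 ∧ κ = 0 ∧ S ∪ T = ∅) := by
    rintro ⟨rfl, rfl, h3⟩
    have e : el s 0 0 T (S ∪ T) = if s then 1 else -1 := by
      unfold el PU
      rw [h3, Finset.prod_empty, pow_zero, ZMod.val_zero, pow_zero, mul_one, mul_one, mul_one]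
    rw [e] at h1 h2
    cases s
    · exact h2 (by simp)
    · exact h1 (by simp)
  obtain ⟨h3, h4⟩ := selK_nG (K := K) j (T := T) hU (show a ≤ 2 by omega) κ hne s
  obtain ⟨r, hr⟩ := nG_pow (T := T) a κ hne
  refine ⟨⟨r, h3.trans hr, h4 r hr.le⟩, ?_⟩
  have h5 := part_all (T := T) (U := S ∪ T) j Pool.Agent.Helper68.C8.Fin8.iii
    Pool.Agent.Helper68.C5K.Asm5K.s_IV hdisc hU (show a ≤ 2 by omega) κ hne
  rw [h3, ← good_iff hU κ hne, ← h5]
  rcases el_pm s a κ T (S ∪ T) with h6 | h6
  · rw [h6]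
  · rw [h6, map_neg, Pool.Agent.Helper68.C6.MJ.part_neg]

end

end Pool.Agent.Helper68.C10.LR
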