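import Pool.Agent.Helper68.C10.St10
import Pool.Graph.R_pool_sql_team_seeded_3997aac3.Q285.CE.EDD

/-!
# The `p`-adic closure of the Mordell-Weil group of `E_D` over `ℚ(ω)`, if its rank is at most one
over `ℤ[ω]`: statements
-/

set_option autoImplicit false
set_option linter.unusedVariables false

open scoped Classical

namespace Pool.Agent.Helper68.C10

open NumberField IsDedekindDomain WeierstrassCurve
open Pool.Agent.TH841.SH.D (Pt act)
open Pool.Agent.Q7.CE (ED)
open Pool.Agent.Q285.CE (imP)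

section
variable {K : Type} [Field K] [NumberField K]

/-- The group homomorphism from `E_D(K)` to `E_D(K_v)`. -/
noncomputable def toC (D : K) (v : HeightOneSpectrum (𝓞 K)) :
    Pt (ED D) K →+ Pt (ED D) (v.adicCompletion K) :=
  act (ED D) (Algebra.ofId K (v.adicCompletion K))

/-- Points `P i` of `E_D(K)` which are independent over `ℤ` are independent over `ℤ_p` in the
product of the `E_D(K_v)`, `v` above `p`: if `∑ a_i P_i = 0` in this product for `a_i ∈ ℤ_p`, that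
is, for all `v` and `n` some combination `∑ m_i P_i` with integers `m_i ≡ a_i` modulo `p ^ n` is
divisible by `p ^ n` in `E_D(K_v)`, then `a = 0`. -/
def Indep (p : ℕ) [Fact p.Prime] (D : K) : Prop :=
  ∀ (r : ℕ) (P : Fin r → Pt (ED D) K), (∀ c : Fin r → ℤ, IsOfFinAddOrder (∑ i, c i • P i) → c = 0) →
    ∀ a : Fin r → ℤ_[p],
      (∀ v : HeightOneSpectrum (𝓞 K), (p : 𝓞 K) ∈ v.asIdeal → ∀ n : ℕ,
        ∃ m : Fin r → ℤ, (∀ i, (p : ℤ_[p]) ^ n ∣ (m i : ℤ_[p]) - a i) ∧
        ∃ R : Pt (ED D) (v.adicCompletion K), ∑ i, m i • toC D v (P i) = (p ^ n : ℕ) • R) →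
      a = 0

/-- the point is zero or its `x`-coordinate is large -/
def Lg (D : K) (v : HeightOneSpectrum (𝓞 K)) (B : WithZero (Multiplicative ℤ))
    (R : Pt (ED D) (v.adicCompletion K)) : Prop :=
  R = 0 ∨ ∃ x y h, R = Affine.Point.some x y h ∧ B ≤ Valued.v x

end

/-- **FIL1**: a bounded multiple of every local point is close to zero. -/
def S_FIL1 : Prop := ∀ (K : Type) [Field K] [NumberField K] (D : K), D ≠ 0 →
  ∀ (v : HeightOneSpectrum (𝓞 K)) (B : WithZero (Multiplicative ℤ)), ∃ N : ℕ,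
    ∀ R : Pt (ED D) (v.adicCompletion K), ∃ n : ℕ, 1 ≤ n ∧ n ≤ N ∧ Lg D v B (n • R)

/-- **FIL2**: the filtration of the local points; `imP` is the endomorphism `ω`,
`(x, y) ↦ (ω x, y)`. -/
def S_FIL2 : Prop := ∀ (K : Type) [Field K] [NumberField K] (ω D : K) (hω : ω ^ 2 + ω + 1 = 0)
  (hD : D ≠ 0) (v : HeightOneSpectrum (𝓞 K)),
  ∃ (B : WithZero (Multiplicative ℤ)) (F : ℕ → AddSubgroup (Pt (ED D) (v.adicCompletion K))),
    (∀ R, Lg D v B R → R ∈ F 0) ∧ (∀ n, F (n + 1) ≤ F n) ∧ (∀ R, (∀ n, R ∈ F n) → R = 0) ∧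
    ∀ a b : ℤ, v.valuation K ((a : K) + (b : K) * ω) < 1 → ∀ n, ∀ R ∈ F n,
      a • R + b • imP hD hω (v.adicCompletion K) R ∈ F (n + 1)

/-- **PAD**: the question Q1 of MP_52423f_nt for `A = Res_{K/ℚ} E_D`, all primes `p` and all
subgroups, if the rank of `E_D(K)` over `ℤ` is at most two. -/
def S_PAD : Prop := ∀ (K : Type) [Field K] [NumberField K] [IsCyclotomicExtension {3} ℚ K] (D : K),
  D ≠ 0 → Module.finrank ℤ (Pt (ED D) K) ≤ 2 → ∀ (p : ℕ) [Fact p.Prime], Indep p D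

/-- **PADA** (algebra) -/
def S_PADA : Prop := S_FIL1 → S_FIL2 → S_PAD

end Pool.Agent.Helper68.C10
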